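import Pool.Agent.Helper15.FC.St5

set_option autoImplicit false

namespace Pool.Agent.Helper91.FC

open Pool.Agent.Helper15.FC Polynomial

private theorem seqs (x : ℝ) (_hx0 : 0 ≤ x) (hx1 : x ≤ 1) (g : ℕ → ℕ → ℝ)
    (h0 : ∀ j, g j 0 = 1) (h00 : ∀ a, g 0 (a + 1) = 0)
    (hrec : ∀ j a, g (j + 1) a = 1 + (1 - x) * ∑ i ∈ Finset.range a, g j (i + 1)) (j : ℕ) :
    x * g j 1 = 1 - (1 - x) ^ j ∧ x * g j 1 ≤ j * x ∧ ∀ a : ℕ, x * g j (a + 1) ≤ g j a := by
  have h1 : x * g j 1 = 1 - (1 - x) ^ j := by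
    induction j with
    | zero => rw [show (1 : ℕ) = 0 + 1 from rfl, h00]; simp
    | succ j ih =>
      rw [hrec, Finset.sum_range_one, pow_succ]
      linear_combination (1 - x) * ih
  refine ⟨h1, ?_, ?_⟩
  · rw [h1]
    have := one_add_mul_le_pow (a := -x) (by linarith) j
    have h2 : (1 : ℝ) + -x = 1 - x := by ring
    rw [h2] at this
    linarith
  · induction j with
    | zero =>
      intro a
      rw [h00, mul_zero]
      cases a with
      | zero => rw [h0]; exact zero_le_one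
      | succ a => rw [h00]
    | succ j ih =>
      have h1' : x * g j 1 = 1 - (1 - x) ^ j := by
        clear h1 ih
        induction j with
        | zero => rw [show (1 : ℕ) = 0 + 1 from rfl, h00]; simp
        | succ j ih =>
          rw [hrec, Finset.sum_range_one, pow_succ]
          linear_combination (1 - x) * ih
      have ih' := ih h1'
      intro a
      rw [hrec, hrec]
      have h3 : ∑ i ∈ Finset.range (a + 1), x * g j (i + 1) ≤
          ∑ i ∈ Finset.range (a + 1), g j i := Finset.sum_le_sum fun i _ => ih' i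
      rw [← Finset.mul_sum] at h3
      have h4 : ∑ i ∈ Finset.range (a + 1), g j i = (∑ i ∈ Finset.range a, g j (i + 1)) + 1 := by
        rw [Finset.sum_range_succ', h0]
      rw [h4] at h3
      have h5 : 0 ≤ 1 - x := by linarith
      have h6 := mul_le_mul_of_nonneg_left h3 h5
      nlinarith [h6]

theorem hGKP (hDVM : StDVM) (hPHM : StPHM) (hGKM : StGKM) : StGKP := by
  intro F _ _ j P hP hPi
  have hdeg : 0 < P.natDegree := hPi.natDegree_pos
  have hq : (2 : ℝ) ≤ qr F := by
    have : 1 < Fintype.card F := Fintype.one_lt_card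
    unfold qr
    exact_mod_cast this
  have hq0 : (0 : ℝ) < qr F := by linarith
  obtain ⟨Q, hQ⟩ : ∃ Q, Q = qr F ^ P.natDegree := ⟨_, rfl⟩
  have hQ1 : 1 < Q := by
    rw [hQ]
    exact one_lt_pow₀ (by linarith) hdeg.ne'
  have hphi : ∀ a : ℕ, (phi (P ^ (a + 1)) : ℝ) = Q ^ a * (Q - 1) := by
    intro a
    rw [(hPHM F).2 P a hP hPi, pow_mul, ← hQ]
  have hphi1 : (phi (1 : F[X]) : ℝ) = 1 := by
    have h1 := (hPHM F).1 P 1 hP monic_one isCoprime_one_right
    rw [mul_one] at h1
    have h2 := hphi 0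
    rw [zero_add, pow_one, pow_zero, one_mul] at h2
    have h3 : (phi P : ℝ) = phi P * phi (1 : F[X]) := by exact_mod_cast h1
    have h4 : (phi P : ℝ) ≠ 0 := by rw [h2]; linarith
    have h5 : (phi P : ℝ) * (phi (1 : F[X]) : ℝ) = phi P * 1 := by rw [mul_one]; exact h3.symm
    exact mul_left_cancel₀ h4 h5
  have hrec : ∀ j a, Gk (j + 1) (P ^ a) =
      1 + (1 - Q⁻¹) * ∑ i ∈ Finset.range a, Gk j (P ^ (i + 1)) := by
    intro j a
    have h1 : Gk (j + 1) (P ^ a) = ∑ e ∈ Dv (P ^ a), (phi e : ℝ) / qr F ^ e.natDegree * Gk j e :=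
      rfl
    rw [h1, (hDVM F).2 P a _ hP hPi, Finset.sum_range_succ', add_comm, pow_zero, hphi1,
      Polynomial.natDegree_one, pow_zero, (hGKM F j).1, Finset.mul_sum]
    congr 1
    · norm_num
    · refine Finset.sum_congr rfl fun i _ => ?_
      rw [hphi, hP.natDegree_pow, mul_comm (i + 1) P.natDegree, pow_mul, ← hQ]
      have hQ0 : Q ≠ 0 := by linarith
      field_simp
      ring
  have key := seqs Q⁻¹ (inv_nonneg.2 (by linarith)) (inv_le_one_of_one_le₀ hQ1.le)
    (fun j a => Gk j (P ^ a)) (fun j => by simpa using (hGKM F j).1)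
    (fun a => by
      have : P ^ (a + 1) ≠ 1 := fun h => hPi.not_isUnit (IsUnit.of_pow_eq_one h (Nat.succ_ne_zero a))
      simp [Gk, this]) hrec j
  rw [← hQ]
  simpa using key

end Pool.Agent.Helper91.FC
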