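import Mathlib

/-! Abstract part of the argument: finite generation by successive approximation, functionals on
finitely generated modules, and the final contradiction. -/

set_option autoImplicit false

namespace Pool.Agent.Helper91.FC

open PowerSeries nonZeroDivisors

/-- a functional with bounded denominators on a finitely generated module -/
theorem la {S V : Type*} [CommRing S] [IsDomain S] [AddCommGroup V] [Module S V]
    (ε : V) (hε : ∀ s : S, s • ε = 0 → s = 0) (N : Submodule S V) (hN : N.FG) :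
    ∃ b : S, b ≠ 0 ∧ ∀ v ∈ N, ∃ t : S, ∀ s c : S, s • v = c • ε → s * t = b * c := by
  classical
  obtain ⟨T, rfl⟩ := hN
  let K := Localization S⁰
  let _ : Field K := inferInstanceAs (Field (FractionRing S))
  let ι : V →ₗ[S] LocalizedModule S⁰ V := LocalizedModule.mkLinearMap S⁰ V
  have h1 : ι ε ≠ 0 := by
    intro h
    rw [IsLocalizedModule.eq_zero_iff S⁰ ι] at h
    obtain ⟨c, hc⟩ := h
    exact nonZeroDivisors.ne_zero c.2 (hε _ hc)
  obtain ⟨φ, hφ⟩ : ∃ φ : Module.Dual K (LocalizedModule S⁰ V), φ (ι ε) ≠ 0 := by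
    by_contra hcon
    push Not at hcon
    exact h1 ((Module.forall_dual_apply_eq_zero_iff K (ι ε)).1 hcon)
  let lam : V →ₗ[S] K := ((φ (ι ε))⁻¹ • φ).restrictScalars S ∘ₗ ι
  have hlam : lam ε = 1 := by
    show (φ (ι ε))⁻¹ • φ (ι ε) = 1
    rw [smul_eq_mul, inv_mul_cancel₀ hφ]
  obtain ⟨b, hb⟩ := IsLocalization.exist_integer_multiples_of_finset S⁰ (T.image lam)
  refine ⟨b, nonZeroDivisors.ne_zero b.2, fun v hv => ?_⟩
  have h2 : IsLocalization.IsInteger S ((b : S) • lam v) := by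
    induction hv using Submodule.span_induction with
    | mem x hx => exact hb _ (Finset.mem_image_of_mem _ hx)
    | zero => rw [map_zero, smul_zero]; exact ⟨0, map_zero _⟩
    | add x y _ _ hx hy =>
      rw [map_add, smul_add]
      exact IsLocalization.isInteger_add hx hy
    | smul a x _ hx =>
      rw [map_smul, smul_comm]
      exact IsLocalization.isInteger_smul hx
  obtain ⟨t, ht⟩ := h2
  refine ⟨t, fun s c h => ?_⟩
  have h3 := congrArg lam h
  rw [map_smul, map_smul, hlam] at h3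
  apply IsLocalization.injective K (le_refl S⁰)
  rw [map_mul, map_mul, ht, Algebra.smul_def]
  rw [Algebra.smul_def, Algebra.smul_def, mul_one] at h3
  rw [← h3]
  ring

/-- the operator `X d/dX` -/
noncomputable def th {R : Type*} [CommRing R] (s : R⟦X⟧) : R⟦X⟧ := X * derivative R s

lemma th_mul {R : Type*} [CommRing R] (s t : R⟦X⟧) : th (s * t) = th s * t + s * th t := by
  unfold th
  rw [Derivation.leibniz, smul_eq_mul, smul_eq_mul]
  ring

lemma th_add {R : Type*} [CommRing R] (s t : R⟦X⟧) : th (s + t) = th s + th t := by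
  unfold th
  rw [map_add, mul_add]

lemma th_X_pow {R : Type*} [CommRing R] (a : ℕ) : th (X ^ a : R⟦X⟧) = (a : R⟦X⟧) * X ^ a := by
  unfold th
  rw [derivative_pow, derivative_X, mul_one]
  cases a with
  | zero => simp
  | succ a => rw [Nat.add_sub_cancel, pow_succ]; ring

lemma th_C {R : Type*} [CommRing R] (c : R) : th (C c : R⟦X⟧) = 0 := by
  unfold th
  rw [derivative_C, mul_zero]

lemma constantCoeff_th {R : Type*} [CommRing R] (s : R⟦X⟧) : constantCoeff (th s) = 0 := by
  unfold th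
  rw [map_mul, constantCoeff_X, zero_mul]

/-- the final contradiction: a finitely generated module, stable under `X⁻¹ δ^q`, contains no
element `X^(-a) P ε` with `a ≥ 1`, `P(0) ≠ 0` -/
theorem end_contra {R V : Type*} [CommRing R] [IsDomain R] [CharZero R] [AddCommGroup V]
    [Module R⟦X⟧ V] (δ : V →+ V) (hδ : ∀ (s : R⟦X⟧) (v : V), δ (s • v) = th s • v + s • δ v)
    (ε : V) (hε0 : δ ε = 0) (hε : ∀ s : R⟦X⟧, s • ε = 0 → s = 0)
    (N : Submodule R⟦X⟧ V) (hN : N.FG) (q : ℕ)
    (hq : ∀ v ∈ N, ∃ v' ∈ N, (X : R⟦X⟧) • v' = δ^[q] v)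
    (v₀ : V) (hv₀ : v₀ ∈ N) (a : ℕ) (ha : 1 ≤ a) (P : R⟦X⟧) (hP : constantCoeff P ≠ 0)
    (h : (X ^ a : R⟦X⟧) • v₀ = P • ε) : False := by
  classical
  have step1 : ∀ (a : ℕ) (v : V), 1 ≤ a →
      (∃ P : R⟦X⟧, constantCoeff P ≠ 0 ∧ (X ^ a : R⟦X⟧) • v = P • ε) →
      (∃ P : R⟦X⟧, constantCoeff P ≠ 0 ∧ (X ^ a : R⟦X⟧) • δ v = P • ε) := by
    rintro a v ha ⟨P, hP, hv⟩
    refine ⟨th P - (a : R⟦X⟧) * P, ?_, ?_⟩
    · rw [map_sub, constantCoeff_th, zero_sub, neg_ne_zero, map_mul, map_natCast]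
      exact mul_ne_zero (Nat.cast_ne_zero.2 (by omega)) hP
    · have h1 := congrArg δ hv
      rw [hδ, hδ, hε0, smul_zero, add_zero, th_X_pow, mul_smul, hv] at h1
      rw [sub_smul, mul_smul, ← h1]
      abel
  have step1' : ∀ (q a : ℕ) (v : V), 1 ≤ a →
      (∃ P : R⟦X⟧, constantCoeff P ≠ 0 ∧ (X ^ a : R⟦X⟧) • v = P • ε) →
      (∃ P : R⟦X⟧, constantCoeff P ≠ 0 ∧ (X ^ a : R⟦X⟧) • (δ^[q] v) = P • ε) := by
    intro q
    induction q with
    | zero => intro a v _ h; exact h
    | succ q ih =>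
      intro a v ha h
      rw [Function.iterate_succ_apply]
      exact ih a _ ha (step1 a v ha h)
  have step2 : ∀ j : ℕ, ∃ v ∈ N, ∃ P : R⟦X⟧, constantCoeff P ≠ 0 ∧
      (X ^ (a + j) : R⟦X⟧) • v = P • ε := by
    intro j
    induction j with
    | zero => exact ⟨v₀, hv₀, P, hP, h⟩
    | succ j ih =>
      obtain ⟨v, hv, hv2⟩ := ih
      obtain ⟨v', hv', h'⟩ := hq v hv
      obtain ⟨P', hP', h2⟩ := step1' q (a + j) v (by omega) hv2
      refine ⟨v', hv', P', hP', ?_⟩
      rw [← add_assoc, pow_succ, mul_smul, h', h2]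
  obtain ⟨b, hb, hlam⟩ := la ε hε N hN
  apply hb
  have h3 : ∀ j : ℕ, (X ^ j : R⟦X⟧) ∣ b := by
    intro j
    obtain ⟨v, hv, P', hP', h2⟩ := step2 j
    obtain ⟨t, ht⟩ := hlam v hv
    have h4 := ht _ _ h2
    have h5 : (X ^ (a + j) : R⟦X⟧) ∣ b := by
      refine X_prime.pow_dvd_of_dvd_mul_right _ ?_ ⟨t, h4.symm⟩
      rwa [X_dvd_iff]
    exact (pow_dvd_pow X (Nat.le_add_left j a)).trans h5
  ext j
  rw [map_zero]
  exact X_pow_dvd_iff.1 (h3 (j + 1)) j (Nat.lt_succ_self j)

/-- finite generation by successive approximation -/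
theorem fg_core {R V ι : Type*} [CommRing R] [AddCommGroup V] [Module R⟦X⟧ V]
    (hsep : ∀ v : V, (∀ N : ℕ, ∃ v' : V, v = (X ^ N : R⟦X⟧) • v') → v = 0)
    (G : Finset ι) (u : ι → ℕ) (φ : ι → V) (ρ : ι → (ι →₀ R⟦X⟧))
    (hρ : ∀ k, k ∉ G → ∀ k', (X ^ (u k' + 1 - u k) : R⟦X⟧) ∣ ρ k k')
    (hφ : ∀ k, k ∉ G → φ k = Finsupp.linearCombination R⟦X⟧ φ (ρ k)) (k₀ : ι) :
    φ k₀ ∈ Submodule.span R⟦X⟧ (φ '' (G : Set ι)) := by
  classical
  let T : (ι →₀ R⟦X⟧) →ₗ[R⟦X⟧] (ι →₀ R⟦X⟧) :=
    Finsupp.linearCombination R⟦X⟧ (fun k => if k ∈ G then 0 else ρ k)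
  let L : (ι →₀ R⟦X⟧) →ₗ[R⟦X⟧] V := Finsupp.linearCombination R⟦X⟧ φ
  have hstep : ∀ h : ι →₀ R⟦X⟧, L h = (∑ k ∈ G, h k • φ k) + L (T h) := by
    intro h
    induction h using Finsupp.induction_linear with
    | zero => simp
    | add f g hf hg =>
      rw [map_add, map_add, map_add, hf, hg]
      have : ∑ k ∈ G, (f + g) k • φ k = ∑ k ∈ G, f k • φ k + ∑ k ∈ G, g k • φ k := by
        rw [← Finset.sum_add_distrib]
        refine Finset.sum_congr rfl fun k _ => ?_
        rw [Finsupp.add_apply, add_smul]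
      rw [this]
      abel
    | single k s =>
      have e1 : L (Finsupp.single k s) = s • φ k := Finsupp.linearCombination_single _ _ _
      have e2 : T (Finsupp.single k s) = s • (if k ∈ G then 0 else ρ k) :=
        Finsupp.linearCombination_single _ _ _
      have e3 : ∑ k' ∈ G, (Finsupp.single k s) k' • φ k' = if k ∈ G then s • φ k else 0 := by
        have : ∀ k' ∈ G, (Finsupp.single k s) k' • φ k' = if k = k' then s • φ k else 0 := by
          intro k' _
          rw [Finsupp.single_apply]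
          split_ifs with h
          · rw [h]
          · rw [zero_smul]
        rw [Finset.sum_congr rfl this, Finset.sum_ite_eq]
      rw [e1, e2, e3]
      split_ifs with h
      · rw [smul_zero, map_zero, add_zero]
      · rw [map_smul, zero_add, hφ k h]
  have hiter : ∀ (N : ℕ) (h : ι →₀ R⟦X⟧),
      L h = (∑ k ∈ G, (∑ i ∈ Finset.range N, (T^[i] h) k) • φ k) + L (T^[N] h) := by
    intro N
    induction N with
    | zero => intro h; simp
    | succ N ih =>
      intro h
      rw [ih h, hstep (T^[N] h), Function.iterate_succ_apply', ← add_assoc]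
      congr 1
      rw [← Finset.sum_add_distrib]
      refine Finset.sum_congr rfl fun k _ => ?_
      rw [Finset.sum_range_succ, add_smul]
  let h₀ : ι →₀ R⟦X⟧ := Finsupp.single k₀ 1
  have hdiv : ∀ (i : ℕ) (k : ι), (X ^ (i + u k - u k₀) : R⟦X⟧) ∣ (T^[i] h₀) k := by
    intro i
    induction i with
    | zero =>
      intro k
      show _ ∣ (Finsupp.single k₀ (1 : R⟦X⟧)) k
      rw [Finsupp.single_apply]
      split_ifs with h
      · rw [h, zero_add, Nat.sub_self, pow_zero]
      · exact dvd_zero _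
    | succ i ih =>
      intro k
      rw [Function.iterate_succ_apply']
      have e : T (T^[i] h₀) = (T^[i] h₀).sum fun k' s => s • (if k' ∈ G then 0 else ρ k') := rfl
      rw [e, Finsupp.sum, Finsupp.finsetSum_apply]
      refine Finset.dvd_sum fun k' _ => ?_
      rw [Finsupp.smul_apply, smul_eq_mul]
      by_cases hk' : k' ∈ G
      · rw [if_pos hk', Finsupp.zero_apply, mul_zero]
        exact dvd_zero _
      · rw [if_neg hk']
        have h1 := mul_dvd_mul (ih k') (hρ k' hk' k)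
        rw [← pow_add] at h1
        exact (pow_dvd_pow X (by omega)).trans h1
  let s : ι → R⟦X⟧ := fun k => PowerSeries.mk fun j =>
    ∑ i ∈ Finset.range (j + u k₀ + 1), coeff j ((T^[i] h₀) k)
  have hs : ∀ (N : ℕ) (k : ι), (X ^ N : R⟦X⟧) ∣
      s k - ∑ i ∈ Finset.range (N + u k₀), (T^[i] h₀) k := by
    intro N k
    rw [X_pow_dvd_iff]
    intro j hj
    rw [map_sub, map_sum, coeff_mk, sub_eq_zero]
    have hsub : Finset.range (j + u k₀ + 1) ⊆ Finset.range (N + u k₀) :=
      Finset.range_subset_range.2 (by omega)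
    refine Finset.sum_subset hsub fun i _ hi => ?_
    rw [Finset.mem_range, not_lt] at hi
    exact X_pow_dvd_iff.1 (hdiv i k) j (by omega)
  have hfinal : φ k₀ = ∑ k ∈ G, s k • φ k := by
    have hL : L h₀ = φ k₀ := by
      show Finsupp.linearCombination R⟦X⟧ φ (Finsupp.single k₀ 1) = _
      rw [Finsupp.linearCombination_single, one_smul]
    rw [← sub_eq_zero]
    apply hsep
    intro N
    choose t ht using fun k => hs N k
    have h1 : ∀ k, ∃ t' : R⟦X⟧, (T^[N + u k₀] h₀) k = X ^ N * t' := by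
      intro k
      exact (pow_dvd_pow X (by omega)).trans (hdiv (N + u k₀) k)
    choose t' ht' using h1
    refine ⟨(∑ k ∈ (T^[N + u k₀] h₀).support, t' k • φ k) - ∑ k ∈ G, t k • φ k, ?_⟩
    rw [← hL, hiter (N + u k₀) h₀, smul_sub, Finset.smul_sum, Finset.smul_sum]
    have e1 : L (T^[N + u k₀] h₀) = ∑ k ∈ (T^[N + u k₀] h₀).support,
        (X ^ N : R⟦X⟧) • t' k • φ k := by
      show Finsupp.sum _ _ = _
      refine Finset.sum_congr rfl fun k _ => ?_
      rw [smul_smul, ← ht' k]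
      rfl
    have e2 : ∑ k ∈ G, (X ^ N : R⟦X⟧) • t k • φ k = ∑ k ∈ G, s k • φ k -
        ∑ k ∈ G, (∑ i ∈ Finset.range (N + u k₀), (T^[i] h₀) k) • φ k := by
      rw [← Finset.sum_sub_distrib]
      refine Finset.sum_congr rfl fun k _ => ?_
      rw [smul_smul, ← ht k, sub_smul]
    rw [e1, e2]
    abel
  rw [hfinal]
  exact Submodule.sum_mem _ fun k hk => Submodule.smul_mem _ _ (Submodule.subset_span ⟨k, hk, rfl⟩)

end Pool.Agent.Helper91.FC
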