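import Mathlib
import Pool.Agent.Helper91.FC.Abs

/-! Passing from series in `τ` to series in `X`, `τ = X^(-2M)`, and the module of sequences of
power series modulo powers of an ideal. -/

set_option autoImplicit false

namespace Pool.Agent.Helper91.FC

open PowerSeries

variable {Q : Type*} [CommRing Q]

/-- substitute `X^(-2M)` in a polynomial of degree at most `T`, and multiply by `X^B` -/
noncomputable def ev (M T B : ℕ) (G : Q⟦X⟧) : Q⟦X⟧ :=
  ∑ m ∈ Finset.range (T + 1), C (coeff m G) * X ^ (B - 2 * M * m)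

lemma ev_add (M T B : ℕ) (G H : Q⟦X⟧) : ev M T B (G + H) = ev M T B G + ev M T B H := by
  unfold ev
  rw [← Finset.sum_add_distrib]
  exact Finset.sum_congr rfl fun m _ => by rw [map_add, map_add, add_mul]

lemma ev_C_mul (M T B : ℕ) (c : Q) (G : Q⟦X⟧) : ev M T B (C c * G) = C c * ev M T B G := by
  unfold ev
  rw [Finset.mul_sum]
  exact Finset.sum_congr rfl fun m _ => by rw [coeff_C_mul, map_mul, mul_assoc]

lemma ev_X_mul (M T B : ℕ) (hB : 2 * M * (T + 1) ≤ B) (G : Q⟦X⟧)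
    (hG : ∀ m, T ≤ m → coeff m G = 0) : X ^ (2 * M) * ev M T B (X * G) = ev M T B G := by
  unfold ev
  rw [Finset.sum_range_succ', coeff_zero_X_mul, map_zero, zero_mul, add_zero,
    Finset.sum_range_succ, hG T le_rfl, map_zero, zero_mul, add_zero, Finset.mul_sum]
  refine Finset.sum_congr rfl fun m hm => ?_
  rw [coeff_succ_X_mul, mul_left_comm, ← pow_add]
  congr 2
  have h1 : m + 1 ≤ T + 1 := by
    have := Finset.mem_range.1 hm
    omega
  have h2 : 2 * M * (m + 1) ≤ B := (Nat.mul_le_mul_left _ h1).trans hB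
  have h3 : 2 * M * (m + 1) = 2 * M * m + 2 * M := by ring
  omega

lemma ev_X_pow_mul (M T B : ℕ) (hB : 2 * M * (T + 1) ≤ B) (j : ℕ) (G : Q⟦X⟧)
    (hG : ∀ m, T ≤ m + j → coeff m G = 0) : X ^ (2 * M * j) * ev M T B (X ^ j * G) =
      ev M T B G := by
  induction j generalizing G with
  | zero => rw [mul_zero, pow_zero, one_mul, one_mul]
  | succ j ih =>
    have h1 : (X ^ (j + 1) * G : Q⟦X⟧) = X ^ j * (X * G) := by rw [pow_succ]; ring
    have h2 : (X ^ (2 * M * (j + 1)) : Q⟦X⟧) = X ^ (2 * M) * X ^ (2 * M * j) := by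
      rw [← pow_add]
      congr 1
      ring
    rw [h1, h2, mul_assoc, ih, ev_X_mul M T B hB]
    · intro m hm
      exact hG m (by omega)
    · intro m hm
      cases m with
      | zero => exact coeff_zero_X_mul G
      | succ m => rw [coeff_succ_X_mul]; exact hG m (by omega)

lemma coeff_th (m : ℕ) (G : Q⟦X⟧) : coeff m (th G) = (m : Q) * coeff m G := by
  unfold th
  cases m with
  | zero => rw [coeff_zero_X_mul, Nat.cast_zero, zero_mul]
  | succ m =>
    rw [coeff_succ_X_mul, coeff_derivative, Nat.cast_succ]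
    ring

lemma th_ev (M T B : ℕ) (hB : 2 * M * (T + 1) ≤ B) (G : Q⟦X⟧) :
    th (ev M T B G) - (B : Q⟦X⟧) * ev M T B G = -(((2 * M : ℕ) : Q⟦X⟧) * ev M T B (th G)) := by
  have h0 : th (0 : Q⟦X⟧) = 0 := by unfold th; rw [map_zero, mul_zero]
  have hsum : ∀ (s : Finset ℕ) (g : ℕ → Q⟦X⟧), th (∑ m ∈ s, g m) = ∑ m ∈ s, th (g m) := by
    intro s g
    unfold th
    rw [map_sum, Finset.mul_sum]
  unfold ev
  rw [hsum, Finset.mul_sum, Finset.mul_sum, ← Finset.sum_sub_distrib, ← Finset.sum_neg_distrib]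
  refine Finset.sum_congr rfl fun m hm => ?_
  rw [th_mul, th_C, zero_mul, zero_add, th_X_pow, coeff_th]
  have h1 : m ≤ T + 1 := by
    have := Finset.mem_range.1 hm
    omega
  have h2 : 2 * M * m ≤ B := (Nat.mul_le_mul_left _ h1).trans hB
  have h3 : (B : Q⟦X⟧) = ((B - 2 * M * m : ℕ) : Q⟦X⟧) + ((2 * M * m : ℕ) : Q⟦X⟧) := by
    rw [← Nat.cast_add]
    congr 1
    omega
  obtain ⟨E, hE⟩ : ∃ E, E = B - 2 * M * m := ⟨_, rfl⟩
  rw [← hE] at h3 ⊢
  rw [h3, map_mul, map_natCast]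
  push_cast
  ring

lemma ev_congr (M T B : ℕ) (G H : Q⟦X⟧) (h : ∀ m, m ≤ T → coeff m G = coeff m H) :
    ev M T B G = ev M T B H := by
  unfold ev
  refine Finset.sum_congr rfl fun m hm => ?_
  rw [h m (by have := Finset.mem_range.1 hm; omega)]

lemma ev_factor (M T B b : ℕ) (hB : 2 * M * T + b ≤ B) (G : Q⟦X⟧) :
    ev M T B G = X ^ b * ev M T (B - b) G := by
  unfold ev
  rw [Finset.mul_sum]
  refine Finset.sum_congr rfl fun m hm => ?_
  rw [mul_left_comm, ← pow_add]
  congr 2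
  have h1 : m ≤ T := by
    have := Finset.mem_range.1 hm
    omega
  have h2 : 2 * M * m ≤ 2 * M * T := Nat.mul_le_mul_left _ h1
  omega

end Pool.Agent.Helper91.FC
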