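import Mathlib
import Pool.Agent.Helper91.FC.Abs

/-! The formal module attached to a polynomial and a finite set of weights. -/

set_option autoImplicit false

namespace Pool.Agent.Helper91.FC

open MvPolynomial

/-- the value of a weight -/
def wt {n : ℕ} (w : Fin n → ℕ) (k : Fin n →₀ ℕ) : ℕ := ∑ i, w i * k i

lemma wt_add {n : ℕ} (w : Fin n → ℕ) (k l : Fin n →₀ ℕ) : wt w (k + l) = wt w k + wt w l := by
  unfold wt
  rw [← Finset.sum_add_distrib]
  exact Finset.sum_congr rfl fun i _ => by rw [Finsupp.add_apply, mul_add]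

lemma wt_single {n : ℕ} (w : Fin n → ℕ) (i : Fin n) (a : ℕ) :
    wt w (Finsupp.single i a) = w i * a := by
  unfold wt
  rw [Finset.sum_eq_single i]
  · rw [Finsupp.single_eq_same]
  · intro j _ hj
    rw [Finsupp.single_apply, if_neg (Ne.symm hj), mul_zero]
  · intro h
    exact absurd (Finset.mem_univ i) h

/-- the exponent `(1,...,1)` -/
noncomputable def oo (n : ℕ) : Fin n →₀ ℕ := Finsupp.equivFunOnFinite.symm fun _ => 1

@[simp] lemma oo_apply (n : ℕ) (i : Fin n) : oo n i = 1 := rfl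

/-- the minimum of the weights -/
noncomputable def nu {n : ℕ} (W : Finset (Fin n → ℕ)) (hW : W.Nonempty) (k : Fin n →₀ ℕ) : ℕ :=
  W.inf' hW fun w => wt w k

lemma nu_le {n : ℕ} {W : Finset (Fin n → ℕ)} (hW : W.Nonempty) {w : Fin n → ℕ} (hw : w ∈ W)
    (k : Fin n →₀ ℕ) : nu W hW k ≤ wt w k := Finset.inf'_le _ hw

lemma nu_mem {n : ℕ} {W : Finset (Fin n → ℕ)} (hW : W.Nonempty) (k : Fin n →₀ ℕ) :
    ∃ w ∈ W, nu W hW k = wt w k := Finset.exists_mem_eq_inf' hW _

lemma nu_superadd {n : ℕ} {W : Finset (Fin n → ℕ)} (hW : W.Nonempty) (k l : Fin n →₀ ℕ) :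
    nu W hW k + nu W hW l ≤ nu W hW (k + l) := by
  obtain ⟨w, hw, h⟩ := nu_mem hW (k + l)
  rw [h, wt_add]
  exact add_le_add (nu_le hW hw k) (nu_le hW hw l)

/-- the data: `f` over `R`, weights `W` with value at least `M` on `f`, a module `V` over the power
series, the operator `δ`, and the functional `Ψ` -/
structure Dat (n : ℕ) (R V : Type*) [CommRing R] [AddCommGroup V] [Module (PowerSeries R) V] where
  f : MvPolynomial (Fin n) R
  W : Finset (Fin n → ℕ)
  hW : W.Nonempty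
  M : ℕ
  hM : 1 ≤ M
  hpos : ∀ w ∈ W, ∀ i, 1 ≤ w i
  hWf : ∀ w ∈ W, ∀ l ∈ f.support, M ≤ wt w l
  δ : V →+ V
  hδ : ∀ (s : PowerSeries R) (v : V), δ (s • v) = th s • v + s • δ v
  htor : ∀ v : V, (PowerSeries.X : PowerSeries R) • v = 0 → v = 0
  hsep : ∀ v : V, (∀ N : ℕ, ∃ v' : V, v = (PowerSeries.X ^ N : PowerSeries R) • v') → v = 0
  Ψ : MvPolynomial (Fin n) R →+ V
  hΨ : ∀ (c : R) (P : MvPolynomial (Fin n) R), Ψ (C c * P) = (PowerSeries.C c) • Ψ P
  r1 : ∀ (i : Fin n) (P : MvPolynomial (Fin n) R),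
    (PowerSeries.X ^ (2 * M) : PowerSeries R) • (Ψ (pderiv i (X i * P)) - Ψ (X i * P)) +
      Ψ (X i * pderiv i f * P) = 0
  r2 : ∀ P : MvPolynomial (Fin n) R, (PowerSeries.X ^ (2 * M) : PowerSeries R) • δ (Ψ P) =
    -(((2 * M : ℕ) : PowerSeries R) • Ψ (f * P))
  φ : (Fin n →₀ ℕ) → V
  hφ : ∀ k, (PowerSeries.X ^ (2 * nu W hW (k + oo n)) : PowerSeries R) • φ k = Ψ (monomial k 1)

namespace Dat

variable {n : ℕ} {R V : Type*} [CommRing R] [AddCommGroup V] [Module (PowerSeries R) V]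
  (D : Dat n R V)

/-- half of the pole order -/
noncomputable def u (k : Fin n →₀ ℕ) : ℕ := nu D.W D.hW (k + oo n)

lemma u_mono (k l : Fin n →₀ ℕ) : D.u k ≤ D.u (k + l) := by
  unfold u
  rw [add_right_comm]
  have := nu_superadd D.hW (k + oo n) l
  omega

lemma u_single (k : Fin n →₀ ℕ) (i : Fin n) : D.u k + 1 ≤ D.u (k + Finsupp.single i 1) := by
  unfold u
  rw [add_right_comm]
  obtain ⟨w, hw, h⟩ := nu_mem D.hW (k + oo n + Finsupp.single i 1)
  rw [h, wt_add, wt_single]
  have h1 := nu_le D.hW hw (k + oo n)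
  have h2 := D.hpos w hw i
  omega

lemma u_f (k l : Fin n →₀ ℕ) (hl : l ∈ D.f.support) : D.u k + D.M ≤ D.u (k + l) := by
  unfold u
  rw [add_right_comm]
  obtain ⟨w, hw, h⟩ := nu_mem D.hW (k + oo n + l)
  rw [h, wt_add]
  exact add_le_add (nu_le D.hW hw (k + oo n)) (D.hWf w hw l hl)

include D in
lemma tor_pow (a : ℕ) (v : V) (h : (PowerSeries.X ^ a : PowerSeries R) • v = 0) : v = 0 := by
  induction a with
  | zero => rwa [pow_zero, one_smul] at h
  | succ a ih =>
    rw [pow_succ', mul_smul] at h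
    exact ih (D.htor _ h)

include D in
lemma cancel (a : ℕ) {v v' : V} (h : (PowerSeries.X ^ a : PowerSeries R) • v =
    (PowerSeries.X ^ a : PowerSeries R) • v') : v = v' := by
  rw [← sub_eq_zero] at h ⊢
  rw [← smul_sub] at h
  exact D.tor_pow a _ h

lemma Psi_monomial (s : Fin n →₀ ℕ) (c : R) : D.Ψ (monomial s c) =
    (PowerSeries.C c * PowerSeries.X ^ (2 * D.u s)) • D.φ s := by
  have h : (monomial s c : MvPolynomial (Fin n) R) = C c * monomial s 1 := by
    rw [C_mul_monomial, mul_one]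
  rw [h, D.hΨ, mul_smul]
  congr 1
  exact (D.hφ s).symm

lemma Psi_eq (P : MvPolynomial (Fin n) R) : D.Ψ P = ∑ s ∈ P.support,
    (PowerSeries.C (coeff s P) * PowerSeries.X ^ (2 * D.u s)) • D.φ s := by
  conv_lhs => rw [P.as_sum]
  rw [map_sum]
  exact Finset.sum_congr rfl fun s _ => D.Psi_monomial s _

lemma Psi_X_mul (i : Fin n) (P : MvPolynomial (Fin n) R) : D.Ψ (X i * P) = ∑ s ∈ P.support,
    (PowerSeries.C (coeff s P) * PowerSeries.X ^ (2 * D.u (s + Finsupp.single i 1))) •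
      D.φ (s + Finsupp.single i 1) := by
  conv_lhs => rw [P.as_sum]
  rw [Finset.mul_sum, map_sum]
  refine Finset.sum_congr rfl fun s _ => ?_
  rw [← D.Psi_monomial]
  congr 1
  rw [X, monomial_mul, one_mul, add_comm]

lemma Psi_pderiv (i : Fin n) (P : MvPolynomial (Fin n) R) : D.Ψ (pderiv i (X i * P)) =
    ∑ s ∈ P.support, (PowerSeries.C (coeff s P * ((s i : R) + 1)) *
      PowerSeries.X ^ (2 * D.u s)) • D.φ s := by
  conv_lhs => rw [P.as_sum]
  rw [Finset.mul_sum, map_sum, map_sum]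
  refine Finset.sum_congr rfl fun s _ => ?_
  rw [← D.Psi_monomial]
  congr 1
  rw [X, monomial_mul, one_mul, pderiv_monomial]
  congr 1
  · rw [add_comm, add_tsub_cancel_right]
  · rw [Finsupp.add_apply, Finsupp.single_eq_same]
    push_cast
    ring

/-- a reduction of the monomial `k` -/
def Cert (k : Fin n →₀ ℕ) : Prop :=
  ∃ (A : Fin n → MvPolynomial (Fin n) R) (A₀ : MvPolynomial (Fin n) R),
    monomial k 1 = (∑ i, X i * pderiv i D.f * A i) + A₀ ∧
    (∀ i, ∀ s ∈ (A i).support, D.u k ≤ D.u s + D.M) ∧ ∀ s ∈ A₀.support, D.u k + 1 ≤ D.u s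

lemma exists_rho (k : Fin n →₀ ℕ) (hk : D.Cert k) : ∃ ρ : (Fin n →₀ ℕ) →₀ PowerSeries R,
    (∀ k', (PowerSeries.X ^ (D.u k' + 1 - D.u k) : PowerSeries R) ∣ ρ k') ∧
      D.φ k = Finsupp.linearCombination (PowerSeries R) D.φ ρ := by
  classical
  obtain ⟨A, A₀, hA, h1, h0⟩ := hk
  let ρ : (Fin n →₀ ℕ) →₀ PowerSeries R :=
    (∑ i, ∑ s ∈ (A i).support, (Finsupp.single (s + Finsupp.single i 1)
        (PowerSeries.C (coeff s (A i)) *
          PowerSeries.X ^ (2 * D.M + 2 * D.u (s + Finsupp.single i 1) - 2 * D.u k)) -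
      Finsupp.single s (PowerSeries.C (coeff s (A i) * ((s i : R) + 1)) *
          PowerSeries.X ^ (2 * D.M + 2 * D.u s - 2 * D.u k)))) +
    ∑ s ∈ A₀.support, Finsupp.single s (PowerSeries.C (coeff s A₀) *
      PowerSeries.X ^ (2 * D.u s - 2 * D.u k))
  have hsing : ∀ (s k' : Fin n →₀ ℕ) (c : PowerSeries R) (e : ℕ),
      (k' = s → D.u k' + 1 - D.u k ≤ e) →
      (PowerSeries.X ^ (D.u k' + 1 - D.u k) : PowerSeries R) ∣
        Finsupp.single s (c * PowerSeries.X ^ e) k' := by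
    intro s k' c e h
    rw [Finsupp.single_apply]
    split_ifs with h'
    · exact Dvd.dvd.mul_left (pow_dvd_pow _ (h h'.symm)) _
    · exact dvd_zero _
  refine ⟨ρ, fun k' => ?_, ?_⟩
  · rw [Finsupp.add_apply, Finsupp.finsetSum_apply, Finsupp.finsetSum_apply]
    refine dvd_add (Finset.dvd_sum fun i _ => ?_) (Finset.dvd_sum fun s hs => ?_)
    · rw [Finsupp.finsetSum_apply]
      refine Finset.dvd_sum fun s hs => ?_
      rw [Finsupp.sub_apply]
      have h2 := h1 i s hs
      have h3 := D.u_single s i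
      have h4 := D.hM
      refine dvd_sub (hsing _ _ _ _ fun h => ?_) (hsing _ _ _ _ fun h => ?_)
      · rw [h]; omega
      · rw [h]; omega
    · refine hsing _ _ _ _ fun h => ?_
      have h2 := h0 s hs
      rw [h]; omega
  · apply D.cancel (2 * D.u k)
    have e1 : (PowerSeries.X ^ (2 * D.u k) : PowerSeries R) • D.φ k = D.Ψ (monomial k 1) := D.hφ k
    rw [e1, hA, map_add, map_sum, map_add, smul_add, map_sum, Finset.smul_sum]
    congr 1
    · refine Finset.sum_congr rfl fun i _ => ?_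
      have e2 : D.Ψ (X i * pderiv i D.f * A i) = (PowerSeries.X ^ (2 * D.M) : PowerSeries R) •
          (D.Ψ (X i * A i) - D.Ψ (pderiv i (X i * A i))) := by
        have := D.r1 i (A i)
        rw [add_comm, ← eq_neg_iff_add_eq_zero] at this
        rw [this, ← smul_neg, neg_sub]
      rw [e2, D.Psi_X_mul, D.Psi_pderiv, ← Finset.sum_sub_distrib, Finset.smul_sum, map_sum,
        Finset.smul_sum]
      refine Finset.sum_congr rfl fun s hs => ?_
      have h2 := h1 i s hs
      have h3 := D.u_single s i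
      have h4 := D.hM
      rw [map_sub, Finsupp.linearCombination_single, Finsupp.linearCombination_single, smul_sub,
        smul_sub, smul_smul, smul_smul, smul_smul, smul_smul]
      congr 2
      · have e3 : 2 * D.M + 2 * D.u (s + Finsupp.single i 1) = 2 * D.u k +
            (2 * D.M + 2 * D.u (s + Finsupp.single i 1) - 2 * D.u k) := by omega
        rw [mul_left_comm, ← pow_add, mul_left_comm, ← pow_add, ← e3]
      · have e3 : 2 * D.M + 2 * D.u s = 2 * D.u k + (2 * D.M + 2 * D.u s - 2 * D.u k) := by omega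
        rw [mul_left_comm, ← pow_add, mul_left_comm, ← pow_add, ← e3]
    · rw [D.Psi_eq, map_sum, Finset.smul_sum]
      refine Finset.sum_congr rfl fun s hs => ?_
      have h2 := h0 s hs
      rw [Finsupp.linearCombination_single, smul_smul]
      have e3 : 2 * D.u s = 2 * D.u k + (2 * D.u s - 2 * D.u k) := by omega
      rw [mul_left_comm, ← pow_add, ← e3]

/-- the module generated by all `φ k` -/
noncomputable def N : Submodule (PowerSeries R) V := Submodule.span (PowerSeries R) (Set.range D.φ)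

lemma phi_mem (k : Fin n →₀ ℕ) : D.φ k ∈ D.N := Submodule.subset_span ⟨k, rfl⟩

theorem N_fg (G : Finset (Fin n →₀ ℕ)) (hG : ∀ k, k ∉ G → D.Cert k) : D.N.FG := by
  classical
  have h1 : ∀ k, ∃ ρ : (Fin n →₀ ℕ) →₀ PowerSeries R, k ∉ G →
      ((∀ k', (PowerSeries.X ^ (D.u k' + 1 - D.u k) : PowerSeries R) ∣ ρ k') ∧
      D.φ k = Finsupp.linearCombination (PowerSeries R) D.φ ρ) := by
    intro k
    by_cases hk : k ∈ G
    · exact ⟨0, fun h => absurd hk h⟩
    · obtain ⟨ρ, h⟩ := D.exists_rho k (hG k hk)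
      exact ⟨ρ, fun _ => h⟩
  choose ρ hρ using h1
  have h2 : D.N = Submodule.span (PowerSeries R) (D.φ '' (G : Set (Fin n →₀ ℕ))) := by
    refine le_antisymm ?_ (Submodule.span_mono (Set.image_subset_range _ _))
    unfold N
    rw [Submodule.span_le]
    rintro _ ⟨k, rfl⟩
    exact fg_core D.hsep G D.u D.φ ρ (fun k hk => (hρ k hk).1) (fun k hk => (hρ k hk).2) k
  rw [h2]
  exact Submodule.fg_span (G.finite_toSet.image _)

end Dat

end Pool.Agent.Helper91.FC
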