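import Mathlib
import Pool.Agent.Helper91.FC.Core

/-! The operator `δ` on the module: it is nilpotent modulo `X`. -/

set_option autoImplicit false

namespace Pool.Agent.Helper91.FC

open MvPolynomial

namespace Dat

variable {n : ℕ} {R V : Type*} [CommRing R] [AddCommGroup V] [Module (PowerSeries R) V]
  (D : Dat n R V)

lemma Psi_f_mul (k : Fin n →₀ ℕ) : D.Ψ (D.f * monomial k 1) =
    ∑ l ∈ D.f.support, (PowerSeries.C (coeff l D.f)) • D.Ψ (monomial (k + l) 1) := by
  conv_lhs => rw [D.f.as_sum]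
  rw [Finset.sum_mul, map_sum]
  refine Finset.sum_congr rfl fun l _ => ?_
  rw [← D.hΨ]
  congr 1
  rw [monomial_mul, mul_one, C_mul_monomial, mul_one, add_comm]

lemma Psi_df_mul (i : Fin n) (k : Fin n →₀ ℕ) : D.Ψ (X i * pderiv i D.f * monomial k 1) =
    ∑ l ∈ D.f.support, (PowerSeries.C ((l i : R) * coeff l D.f)) •
      D.Ψ (monomial (k + l) 1) := by
  conv_lhs => rw [D.f.as_sum]
  rw [map_sum, Finset.mul_sum, Finset.sum_mul, map_sum]
  refine Finset.sum_congr rfl fun l _ => ?_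
  rw [← D.hΨ, X_mul_pderiv_monomial]
  congr 1
  rw [smul_mul_assoc, monomial_mul, mul_one, C_mul_monomial, mul_one, add_comm,
    ← Nat.cast_smul_eq_nsmul R, smul_monomial, smul_eq_mul]

lemma r1_mono (i : Fin n) (k : Fin n →₀ ℕ) :
    (PowerSeries.X ^ (2 * D.M) : PowerSeries R) • ((PowerSeries.C ((k i : R) + 1)) •
      D.Ψ (monomial k 1) - D.Ψ (monomial (k + Finsupp.single i 1) 1)) +
      ∑ l ∈ D.f.support, (PowerSeries.C ((l i : R) * coeff l D.f)) •
        D.Ψ (monomial (k + l) 1) = 0 := by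
  have h := D.r1 i (monomial k 1)
  rw [D.Psi_df_mul] at h
  rw [← h]
  congr 2
  have e : (X i * monomial k 1 : MvPolynomial (Fin n) R) = monomial (k + Finsupp.single i 1) 1 := by
    rw [X, monomial_mul, one_mul, add_comm]
  rw [e, pderiv_monomial, ← D.hΨ, add_tsub_cancel_right, Finsupp.add_apply,
    Finsupp.single_eq_same, one_mul, C_mul_monomial, mul_one]
  push_cast
  rfl

/-- the active weights -/
noncomputable def act (k : Fin n →₀ ℕ) : Finset (Fin n → ℕ) :=
  D.W.filter fun w => wt w (k + oo n) = D.u k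

lemma wt_oo (w : Fin n → ℕ) (k : Fin n →₀ ℕ) : wt w (k + oo n) = ∑ i, w i * (k i + 1) := by
  unfold wt
  exact Finset.sum_congr rfl fun i _ => by rw [Finsupp.add_apply, oo_apply]

lemma weighted (w : Fin n → ℕ) (k : Fin n →₀ ℕ) :
    (PowerSeries.X ^ (2 * D.M) : PowerSeries R) •
      (((2 * wt w (k + oo n) : ℕ) : PowerSeries R) • D.Ψ (monomial k 1)) =
    (PowerSeries.X ^ (2 * D.M) : PowerSeries R) •
      (∑ i, ((2 * w i : ℕ) : PowerSeries R) • D.Ψ (monomial (k + Finsupp.single i 1) 1)) -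
      ∑ l ∈ D.f.support, (((2 * wt w l : ℕ) : PowerSeries R) * PowerSeries.C (coeff l D.f)) •
        D.Ψ (monomial (k + l) 1) := by
  have h1 : ∑ i, ((2 * w i : ℕ) : PowerSeries R) •
      ((PowerSeries.X ^ (2 * D.M) : PowerSeries R) • ((PowerSeries.C ((k i : R) + 1)) •
      D.Ψ (monomial k 1) - D.Ψ (monomial (k + Finsupp.single i 1) 1)) +
      ∑ l ∈ D.f.support, (PowerSeries.C ((l i : R) * coeff l D.f)) •
        D.Ψ (monomial (k + l) 1)) = 0 := by
    refine Finset.sum_eq_zero fun i _ => ?_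
    rw [D.r1_mono, smul_zero]
  have e1 : ((2 * wt w (k + oo n) : ℕ) : PowerSeries R) =
      ∑ i, ((2 * w i : ℕ) : PowerSeries R) * PowerSeries.C ((k i : R) + 1) := by
    rw [wt_oo, Finset.mul_sum]
    push_cast
    refine Finset.sum_congr rfl fun i _ => ?_
    rw [map_add, map_natCast, map_one]
    ring
  have e2 : ∑ l ∈ D.f.support, (((2 * wt w l : ℕ) : PowerSeries R) *
      PowerSeries.C (coeff l D.f)) • D.Ψ (monomial (k + l) 1) =
      ∑ i, ((2 * w i : ℕ) : PowerSeries R) • ∑ l ∈ D.f.support,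
        (PowerSeries.C ((l i : R) * coeff l D.f)) • D.Ψ (monomial (k + l) 1) := by
    simp_rw [Finset.smul_sum]
    rw [Finset.sum_comm]
    refine Finset.sum_congr rfl fun l _ => ?_
    simp_rw [smul_smul]
    rw [← Finset.sum_smul]
    congr 1
    unfold wt
    rw [Finset.mul_sum, Nat.cast_sum, Finset.sum_mul]
    refine Finset.sum_congr rfl fun i _ => ?_
    rw [map_mul, map_natCast]
    push_cast
    ring
  rw [e2, e1]
  simp_rw [smul_add, Finset.sum_add_distrib] at h1
  rw [eq_sub_iff_add_eq]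
  rw [← sub_eq_zero, ← h1, Finset.sum_smul, Finset.smul_sum, Finset.smul_sum]
  rw [add_sub_right_comm]
  congr 1
  rw [← Finset.sum_sub_distrib]
  refine Finset.sum_congr rfl fun i _ => ?_
  rw [smul_sub, smul_sub, smul_smul, smul_smul, smul_smul, smul_smul, smul_smul]
  congr 2
  · ring
  · ring

lemma delta_phi (k : Fin n →₀ ℕ) (w : Fin n → ℕ) (hw : w ∈ D.act k) :
    D.δ (D.φ k) = (∑ l ∈ D.f.support, (((2 * (wt w l - D.M) : ℕ) : PowerSeries R) *
        PowerSeries.C (coeff l D.f) * PowerSeries.X ^ (2 * D.u (k + l) - 2 * D.u k - 2 * D.M)) •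
          D.φ (k + l)) -
      ∑ i, (((2 * w i : ℕ) : PowerSeries R) *
        PowerSeries.X ^ (2 * D.u (k + Finsupp.single i 1) - 2 * D.u k)) •
          D.φ (k + Finsupp.single i 1) := by
  obtain ⟨hwW, hwk⟩ := Finset.mem_filter.1 hw
  apply D.cancel (2 * D.M + 2 * D.u k)
  have e1 : (PowerSeries.X ^ (2 * D.M + 2 * D.u k) : PowerSeries R) • D.δ (D.φ k) =
      -(((2 * D.M : ℕ) : PowerSeries R) • D.Ψ (D.f * monomial k 1)) -
      (PowerSeries.X ^ (2 * D.M) : PowerSeries R) •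
      (((2 * D.u k : ℕ) : PowerSeries R) • D.Ψ (monomial k 1)) := by
    rw [pow_add, mul_smul, ← D.r2, ← smul_sub]
    congr 1
    have h : (PowerSeries.X ^ (2 * D.u k) : PowerSeries R) • D.φ k = D.Ψ (monomial k 1) := D.hφ k
    rw [← h, D.hδ, th_X_pow, mul_smul]
    abel
  have e2 : (PowerSeries.X ^ (2 * D.M + 2 * D.u k) : PowerSeries R) • (∑ i, (((2 * w i : ℕ) :
      PowerSeries R) * PowerSeries.X ^ (2 * D.u (k + Finsupp.single i 1) - 2 * D.u k)) •
          D.φ (k + Finsupp.single i 1)) = (PowerSeries.X ^ (2 * D.M) : PowerSeries R) •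
      (∑ i, ((2 * w i : ℕ) : PowerSeries R) •
        D.Ψ (monomial (k + Finsupp.single i 1) 1)) := by
    rw [Finset.smul_sum, Finset.smul_sum]
    refine Finset.sum_congr rfl fun i _ => ?_
    have h : (PowerSeries.X ^ (2 * D.u (k + Finsupp.single i 1)) : PowerSeries R) •
      D.φ (k + Finsupp.single i 1) = D.Ψ (monomial (k + Finsupp.single i 1) 1) := D.hφ _
    rw [← h, smul_smul, smul_smul, smul_smul]
    congr 1
    have h2 := D.u_single k i
    have e3 : 2 * D.u (k + Finsupp.single i 1) = 2 * D.u k +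
      (2 * D.u (k + Finsupp.single i 1) - 2 * D.u k) := by omega
    rw [e3, Nat.add_sub_cancel_left, pow_add, pow_add]
    ring
  have e4 : (PowerSeries.X ^ (2 * D.M + 2 * D.u k) : PowerSeries R) • (∑ l ∈ D.f.support,
      (((2 * (wt w l - D.M) : ℕ) : PowerSeries R) *
        PowerSeries.C (coeff l D.f) * PowerSeries.X ^ (2 * D.u (k + l) - 2 * D.u k - 2 * D.M)) •
          D.φ (k + l)) = (∑ l ∈ D.f.support, (((2 * wt w l : ℕ) : PowerSeries R) *
            PowerSeries.C (coeff l D.f)) • D.Ψ (monomial (k + l) 1)) -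
        ((2 * D.M : ℕ) : PowerSeries R) • ∑ l ∈ D.f.support, (PowerSeries.C (coeff l D.f)) •
          D.Ψ (monomial (k + l) 1) := by
    rw [Finset.smul_sum, Finset.smul_sum, ← Finset.sum_sub_distrib]
    refine Finset.sum_congr rfl fun l hl => ?_
    have h : (PowerSeries.X ^ (2 * D.u (k + l)) : PowerSeries R) •
      D.φ (k + l) = D.Ψ (monomial (k + l) 1) := D.hφ _
    rw [← h, smul_smul, smul_smul, smul_smul, smul_smul, ← sub_smul]
    congr 1
    have h2 := D.u_f k l hl
    have h3 := D.hWf w hwW l hl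
    have e3 : 2 * D.u (k + l) = 2 * D.u k + 2 * D.M +
      (2 * D.u (k + l) - 2 * D.u k - 2 * D.M) := by omega
    have e5 : ((2 * wt w l : ℕ) : PowerSeries R) = ((2 * (wt w l - D.M) : ℕ) : PowerSeries R) +
        ((2 * D.M : ℕ) : PowerSeries R) := by
      rw [← Nat.cast_add]
      congr 1
      omega
    obtain ⟨E, hE⟩ : ∃ E, E = 2 * D.u (k + l) - 2 * D.u k - 2 * D.M := ⟨_, rfl⟩
    rw [← hE] at e3 ⊢
    rw [e3, e5, pow_add, pow_add, pow_add]
    ring
  have hw' := D.weighted w k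
  rw [hwk] at hw'
  rw [e1, hw', D.Psi_f_mul, smul_sub, e2, e4]
  abel

lemma act_nonempty (k : Fin n →₀ ℕ) : (D.act k).Nonempty := by
  obtain ⟨w, hw, h⟩ := nu_mem D.hW (k + oo n)
  exact ⟨w, Finset.mem_filter.2 ⟨hw, h.symm⟩⟩

lemma act_lt (k l : Fin n →₀ ℕ) (hl : l ∈ D.f.support) (h : D.u (k + l) = D.u k + D.M)
    (w : Fin n → ℕ) (hw : w ∈ D.act k) (hwl : D.M < wt w l) :
    (D.act (k + l)).card < (D.act k).card := by
  refine Finset.card_lt_card ((Finset.ssubset_iff_of_subset fun w' hw' => ?_).2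
    ⟨w, hw, fun hw' => ?_⟩)
  · obtain ⟨h1, h2⟩ := Finset.mem_filter.1 hw'
    refine Finset.mem_filter.2 ⟨h1, ?_⟩
    rw [add_right_comm, wt_add] at h2
    have h3 := nu_le D.hW h1 (k + oo n)
    have h4 := D.hWf w' h1 l hl
    have h5 : D.u k = nu D.W D.hW (k + oo n) := rfl
    omega
  · obtain ⟨h1, h2⟩ := Finset.mem_filter.1 hw'
    rw [add_right_comm, wt_add] at h2
    have h3 := nu_le D.hW h1 (k + oo n)
    have h5 : D.u k = nu D.W D.hW (k + oo n) := rfl
    omega

/-- multiples of `X` -/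
noncomputable def XN : Submodule (PowerSeries R) V :=
  D.N.map (LinearMap.lsmul (PowerSeries R) V PowerSeries.X)

lemma mem_XN {v : V} : v ∈ D.XN ↔ ∃ v' ∈ D.N, (PowerSeries.X : PowerSeries R) • v' = v :=
  Submodule.mem_map

lemma X_smul_mem_XN (a : ℕ) (ha : 1 ≤ a) (c : PowerSeries R) (k : Fin n →₀ ℕ) :
    (c * PowerSeries.X ^ a) • D.φ k ∈ D.XN := by
  obtain ⟨a, rfl⟩ := Nat.exists_eq_add_of_le' ha
  refine D.mem_XN.2 ⟨(c * PowerSeries.X ^ a) • D.φ k, Submodule.smul_mem _ _ (D.phi_mem k), ?_⟩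
  rw [smul_smul]
  congr 1
  rw [pow_succ]
  ring

/-- the filtration by the number of active weights -/
noncomputable def Nt (t : ℕ) : Submodule (PowerSeries R) V :=
  Submodule.span (PowerSeries R) (D.φ '' {k | (D.act k).card ≤ t}) ⊔ D.XN

lemma delta_phi_mem (t : ℕ) (k : Fin n →₀ ℕ) (hk : (D.act k).card ≤ t + 1) :
    D.δ (D.φ k) ∈ D.Nt t := by
  obtain ⟨w, hw⟩ := D.act_nonempty k
  rw [D.delta_phi k w hw]
  refine Submodule.sub_mem _ (Submodule.sum_mem _ fun l hl => ?_)
    (Submodule.sum_mem _ fun i _ => ?_)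
  · have h1 := D.u_f k l hl
    have h2 := D.hWf w (Finset.mem_filter.1 hw).1 l hl
    rcases Nat.eq_or_lt_of_le h2 with h3 | h3
    · rw [← h3, Nat.sub_self, mul_zero, Nat.cast_zero, zero_mul, zero_mul, zero_smul]
      exact Submodule.zero_mem _
    · rcases Nat.eq_or_lt_of_le h1 with h4 | h4
      · refine Submodule.mem_sup_left (Submodule.smul_mem _ _ (Submodule.subset_span ⟨_, ?_, rfl⟩))
        have := D.act_lt k l hl h4.symm w hw h3
        exact Nat.le_of_lt_succ (this.trans_le hk)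
      · exact Submodule.mem_sup_right (D.X_smul_mem_XN _ (by omega) _ _)
  · have h1 := D.u_single k i
    exact Submodule.mem_sup_right (D.X_smul_mem_XN _ (by omega) _ _)

lemma XN_le_N : D.XN ≤ D.N := by
  intro v hv
  obtain ⟨v', hv', rfl⟩ := D.mem_XN.1 hv
  exact Submodule.smul_mem _ _ hv'

lemma Nt_le_N (t : ℕ) : D.Nt t ≤ D.N :=
  sup_le (Submodule.span_mono (Set.image_subset_range _ _)) D.XN_le_N

lemma th_smul_mem (s : PowerSeries R) (v : V) (hv : v ∈ D.N) : th s • v ∈ D.XN := by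
  refine D.mem_XN.2 ⟨PowerSeries.derivative R s • v, Submodule.smul_mem _ _ hv, ?_⟩
  rw [smul_smul]
  rfl

lemma delta_N (v : V) (hv : v ∈ D.N) : D.δ v ∈ D.N := by
  induction hv using Submodule.span_induction with
  | mem x hx =>
    obtain ⟨k, rfl⟩ := hx
    exact D.Nt_le_N _ (D.delta_phi_mem (D.act k).card k (Nat.le_succ _))
  | zero => rw [map_zero]; exact Submodule.zero_mem _
  | add x y _ _ hx hy => rw [map_add]; exact Submodule.add_mem _ hx hy
  | smul s x hx0 hx =>
    rw [D.hδ]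
    exact Submodule.add_mem _ (D.XN_le_N (D.th_smul_mem s x hx0)) (Submodule.smul_mem _ _ hx)

lemma delta_XN (v : V) (hv : v ∈ D.XN) : D.δ v ∈ D.XN := by
  obtain ⟨v', hv', rfl⟩ := D.mem_XN.1 hv
  rw [D.hδ]
  exact Submodule.add_mem _ (D.th_smul_mem _ _ hv') (D.mem_XN.2 ⟨_, D.delta_N _ hv', rfl⟩)

lemma delta_Nt (t : ℕ) (v : V) (hv : v ∈ D.Nt (t + 1)) : D.δ v ∈ D.Nt t := by
  obtain ⟨y, hy, z, hz, rfl⟩ := Submodule.mem_sup.1 hv
  rw [map_add]
  refine Submodule.add_mem _ ?_ (Submodule.mem_sup_right (D.delta_XN z hz))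
  clear hv hz z
  induction hy using Submodule.span_induction with
  | mem x hx =>
    obtain ⟨k, hk, rfl⟩ := hx
    exact D.delta_phi_mem t k hk
  | zero => rw [map_zero]; exact Submodule.zero_mem _
  | add x y _ _ hx hy => rw [map_add]; exact Submodule.add_mem _ hx hy
  | smul s x hx0 hx =>
    rw [D.hδ]
    refine Submodule.add_mem _ (Submodule.mem_sup_right (D.th_smul_mem s x ?_))
      (Submodule.smul_mem _ _ hx)
    exact Submodule.span_mono (Set.image_subset_range _ _) hx0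

theorem nil (v : V) (hv : v ∈ D.N) :
    ∃ v' ∈ D.N, (PowerSeries.X : PowerSeries R) • v' = D.δ^[D.W.card] v := by
  have h1 : ∀ t : ℕ, ∀ v ∈ D.Nt t, D.δ^[t] v ∈ D.XN := by
    intro t
    induction t with
    | zero =>
      intro v hv
      have h0 : D.Nt 0 ≤ D.XN := by
        refine sup_le ?_ le_rfl
        rw [Submodule.span_le]
        rintro _ ⟨k, hk, rfl⟩
        exact absurd (Finset.card_pos.2 (D.act_nonempty k)) (by
          rw [Set.mem_ofPred_eq] at hk
          omega)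
      exact h0 hv
    | succ t ih =>
      intro v hv
      rw [Function.iterate_succ_apply]
      exact ih _ (D.delta_Nt t v hv)
  have h2 : D.N ≤ D.Nt D.W.card := by
    unfold N
    rw [Submodule.span_le]
    rintro _ ⟨k, rfl⟩
    exact Submodule.mem_sup_left (Submodule.subset_span ⟨k, Finset.card_filter_le _ _, rfl⟩)
  exact D.mem_XN.1 (h1 _ v (h2 hv))

end Dat

end Pool.Agent.Helper91.FC
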