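import Mathlib
import Pool.Agent.Helper91.FC.Nil
import Pool.Agent.Helper91.FC.Ev

/-! The data attached to a generating function. -/

set_option autoImplicit false

namespace Pool.Agent.Helper91.FC

open MvPolynomial

/-- sequences of power series modulo the ideals `I e` -/
abbrev VV {R : Type*} [CommRing R] (I : ℕ → Ideal R) : Type _ := ∀ e : ℕ, PowerSeries (R ⧸ I e)

section

variable {R : Type*} [CommRing R] (I : ℕ → Ideal R)

/-- reduction of power series -/
noncomputable abbrev red (e : ℕ) : PowerSeries R →+* PowerSeries (R ⧸ I e) :=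
  PowerSeries.map (algebraMap R (R ⧸ I e))

lemma VV_smul (s : PowerSeries R) (v : VV I) (e : ℕ) : (s • v) e = red I e s * v e := by
  rw [Pi.smul_apply, Algebra.smul_def]
  rfl

lemma red_X_pow (e a : ℕ) : red I e (PowerSeries.X ^ a) = PowerSeries.X ^ a := by
  rw [map_pow, PowerSeries.map_X]

lemma red_C (e : ℕ) (c : R) : red I e (PowerSeries.C c) =
    PowerSeries.C (algebraMap R (R ⧸ I e) c) := PowerSeries.map_C _ _

lemma red_th (e : ℕ) (s : PowerSeries R) : red I e (th s) = th (red I e s) := by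
  ext m
  rw [PowerSeries.coeff_map, coeff_th, coeff_th, PowerSeries.coeff_map, map_mul, map_natCast]

/-- the operator `X d/dX - B e` -/
noncomputable def del (B : ℕ → ℕ) : VV I →+ VV I where
  toFun v := fun e => th (v e) - (B e : PowerSeries (R ⧸ I e)) * v e
  map_zero' := by
    funext e
    show th (0 : PowerSeries (R ⧸ I e)) - _ * 0 = 0
    unfold th
    rw [map_zero, mul_zero, mul_zero, sub_zero]
  map_add' := by
    intro v w
    funext e
    show th (v e + w e) - _ * (v e + w e) = _
    rw [th_add]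
    show _ = th (v e) - _ + (th (w e) - _)
    ring

lemma del_apply (B : ℕ → ℕ) (v : VV I) (e : ℕ) :
    del I B v e = th (v e) - (B e : PowerSeries (R ⧸ I e)) * v e := rfl

lemma del_smul (B : ℕ → ℕ) (s : PowerSeries R) (v : VV I) :
    del I B (s • v) = th s • v + s • del I B v := by
  funext e
  rw [del_apply, Pi.add_apply, VV_smul, VV_smul, VV_smul, del_apply, th_mul, red_th]
  ring

lemma VV_tor (v : VV I) (h : (PowerSeries.X : PowerSeries R) • v = 0) : v = 0 := by
  funext e
  have h1 := congrFun h e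
  rw [VV_smul, PowerSeries.map_X] at h1
  ext m
  have h2 := congrArg (PowerSeries.coeff (m + 1)) h1
  rw [PowerSeries.coeff_succ_X_mul] at h2
  rw [h2]
  rfl

lemma VV_sep (v : VV I)
    (h : ∀ N : ℕ, ∃ v' : VV I, v = (PowerSeries.X ^ N : PowerSeries R) • v') : v = 0 := by
  funext e
  ext m
  obtain ⟨v', hv'⟩ := h (m + 1)
  rw [hv', VV_smul, red_X_pow]
  rw [PowerSeries.coeff_X_pow_mul', if_neg (by omega)]
  rfl

end

/-- the generating function of a polynomial `f` over `R` and its truncations modulo `I e` -/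
structure Ari (n : ℕ) {R : Type*} [CommRing R] (I : ℕ → Ideal R) (D : ℕ → PowerSeries R)
    (T : ℕ → ℕ) (K : ℕ → Finset (Fin n →₀ ℕ)) where
  f : MvPolynomial (Fin n) R
  A : MvPolynomial (Fin n) R →+ PowerSeries R
  hA : ∀ (c : R) (P : MvPolynomial (Fin n) R), A (C c * P) = PowerSeries.C c * A P
  a1 : ∀ (i : Fin n) (P : MvPolynomial (Fin n) R),
    A (pderiv i (X i * P)) + PowerSeries.X * A (X i * pderiv i f * P) = A (X i * P)
  a2 : ∀ P : MvPolynomial (Fin n) R, th (A P) = PowerSeries.X * A (f * P)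
  d2 : ∀ e P m, T e ≤ m → PowerSeries.coeff m (red I e (D e * A P)) = 0
  d3 : ∀ e k, k ∉ K e → red I e (D e * A (monomial k 1)) = 0

namespace Ari

variable {n : ℕ} {R : Type*} [CommRing R] {I : ℕ → Ideal R} {D : ℕ → PowerSeries R}
  {T : ℕ → ℕ} {K : ℕ → Finset (Fin n →₀ ℕ)} (a : Ari n I D T K)

/-- the functional -/
noncomputable def psi (M : ℕ) (B : ℕ → ℕ) : MvPolynomial (Fin n) R →+ VV I where
  toFun P := fun e => ev M (T e) (B e) (red I e (D e * a.A P))
  map_zero' := by
    funext e
    show ev M (T e) (B e) (red I e (D e * a.A 0)) = 0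
    rw [map_zero, mul_zero, map_zero]
    unfold ev
    exact Finset.sum_eq_zero fun m _ => by rw [map_zero, map_zero, zero_mul]
  map_add' := by
    intro P P'
    funext e
    show ev M (T e) (B e) (red I e (D e * a.A (P + P'))) =
      ev M (T e) (B e) (red I e (D e * a.A P)) + ev M (T e) (B e) (red I e (D e * a.A P'))
    rw [map_add, mul_add, map_add, ev_add]

lemma psi_apply (M : ℕ) (B : ℕ → ℕ) (P : MvPolynomial (Fin n) R) (e : ℕ) :
    a.psi M B P e = ev M (T e) (B e) (red I e (D e * a.A P)) := rfl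

/-- the data -/
noncomputable def dat (W : Finset (Fin n → ℕ)) (hW : W.Nonempty) (M : ℕ) (hM : 1 ≤ M)
    (hpos : ∀ w ∈ W, ∀ i, 1 ≤ w i) (hWf : ∀ w ∈ W, ∀ l ∈ a.f.support, M ≤ wt w l)
    (d1 : ∀ e, red I e (th (D e)) = 0)
    (B : ℕ → ℕ) (hB : ∀ e, 2 * M * (T e + 1) ≤ B e)
    (hBK : ∀ e, ∀ k ∈ K e, 2 * M * (T e) + 2 * nu W hW (k + oo n) ≤ B e) :
    Dat n R (VV I) where
  f := a.f
  W := W
  hW := hW
  M := M
  hM := hM
  hpos := hpos
  hWf := hWf
  δ := del I B
  hδ := del_smul I B
  htor := VV_tor I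
  hsep := VV_sep I
  Ψ := a.psi M B
  hΨ := by
    intro c P
    funext e
    rw [VV_smul, psi_apply, psi_apply, a.hA, mul_left_comm, map_mul, red_C, ev_C_mul]
  r1 := by
    intro i P
    funext e
    rw [Pi.add_apply, VV_smul, Pi.sub_apply, psi_apply, psi_apply, psi_apply, red_X_pow,
      Pi.zero_apply, ← a.a1 i P, mul_add, map_add, ev_add, sub_add_cancel_left]
    have h : red I e (D e * (PowerSeries.X * a.A (X i * pderiv i a.f * P))) =
        PowerSeries.X * red I e (D e * a.A (X i * pderiv i a.f * P)) := by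
      rw [mul_left_comm, map_mul, PowerSeries.map_X]
    rw [h, mul_neg, ev_X_mul _ _ _ (hB e) _ (a.d2 e _), neg_add_cancel]
  r2 := by
    intro P
    funext e
    rw [VV_smul, del_apply, Pi.neg_apply, VV_smul, psi_apply, psi_apply, red_X_pow,
      th_ev _ _ _ (hB e), ← red_th, th_mul, map_add, map_mul, d1, zero_mul, zero_add, a.a2]
    have h : red I e (D e * (PowerSeries.X * a.A (a.f * P))) =
        PowerSeries.X * red I e (D e * a.A (a.f * P)) := by
      rw [mul_left_comm, map_mul, PowerSeries.map_X]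
    rw [h, mul_neg, mul_left_comm, ev_X_mul _ _ _ (hB e) _ (a.d2 e _), map_natCast]
  φ := fun k e => ev M (T e) (B e - 2 * nu W hW (k + oo n)) (red I e (D e * a.A (monomial k 1)))
  hφ := by
    intro k
    funext e
    rw [VV_smul, psi_apply, red_X_pow]
    by_cases hk : k ∈ K e
    · rw [← ev_factor _ _ _ _ (hBK e k hk)]
    · rw [a.d3 e k hk]
      have h0 : ∀ B', ev M (T e) B' (0 : PowerSeries (R ⧸ I e)) = 0 := by
        intro B'
        unfold ev
        exact Finset.sum_eq_zero fun m _ => by rw [map_zero, map_zero, zero_mul]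
      rw [h0, h0, mul_zero]

end Ari

end Pool.Agent.Helper91.FC
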