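import Mathlib
import Pool.Agent.Helper91.FC.Mod

/-! The main algebraic statement. -/

set_option autoImplicit false

namespace Pool.Agent.Helper91.FC

open MvPolynomial

/-- a reduction of the monomial `k` -/
def Cer {n : ℕ} {R : Type*} [CommRing R] (W : Finset (Fin n → ℕ)) (hW : W.Nonempty) (M : ℕ)
    (f : MvPolynomial (Fin n) R) (k : Fin n →₀ ℕ) : Prop :=
  ∃ (A : Fin n → MvPolynomial (Fin n) R) (A₀ : MvPolynomial (Fin n) R),
    monomial k 1 = (∑ i, X i * pderiv i f * A i) + A₀ ∧
    (∀ i, ∀ s ∈ (A i).support, nu W hW (k + oo n) ≤ nu W hW (s + oo n) + M) ∧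
    ∀ s ∈ A₀.support, nu W hW (k + oo n) + 1 ≤ nu W hW (s + oo n)

lemma eps_ann {R : Type*} [CommRing R] (I : ℕ → Ideal R) (hI : ∀ x : R, (∀ e, x ∈ I e) → x = 0)
    (M : ℕ) (hM : 1 ≤ M) (D : ℕ → PowerSeries R) (T B d : ℕ → ℕ)
    (hB : ∀ e, 2 * M * (T e + 1) ≤ B e) (hd : ∀ e, d e ≤ T e)
    (hDd : ∀ e m, d e < m → PowerSeries.coeff m (red I e (D e)) = 0)
    (hDu : ∀ e, IsUnit (PowerSeries.coeff (d e) (D e)))
    (s : PowerSeries R)
    (hs : s • (fun e => ev M (T e) (B e) (red I e (D e)) : VV I) = 0) : s = 0 := by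
  have h1 : ∀ e, red I e s = 0 := by
    intro e
    have h2 := congrFun hs e
    rw [VV_smul] at h2
    have h3 : ev M (T e) (B e) (red I e (D e)) =
        ev M (d e) (B e) (red I e (D e)) := by
      unfold ev
      symm
      refine Finset.sum_subset (Finset.range_subset_range.2 (by have := hd e; omega))
        fun m _ hm => ?_
      rw [Finset.mem_range, not_lt] at hm
      rw [hDd e m (by omega), map_zero, zero_mul]
    have h4 : 2 * M * (d e + 1) ≤ 2 * M * (T e + 1) :=
      Nat.mul_le_mul_left _ (by have := hd e; omega)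
    have h5 : 2 * M * (d e + 1) = 2 * M * d e + 2 * M := by ring
    have h6 := hB e
    rw [h3, ev_factor M (d e) (B e) (B e - 2 * M * d e) (by omega)] at h2
    have h7 : B e - (B e - 2 * M * d e) = 2 * M * d e := by omega
    rw [h7] at h2
    have hu : IsUnit (ev M (d e) (2 * M * d e) (red I e (D e))) := by
      rw [PowerSeries.isUnit_iff_constantCoeff]
      have h8 : PowerSeries.constantCoeff (ev M (d e) (2 * M * d e) (red I e (D e))) =
          algebraMap R (R ⧸ I e) (PowerSeries.coeff (d e) (D e)) := by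
        unfold ev
        rw [map_sum, Finset.sum_range_succ, Finset.sum_eq_zero, zero_add]
        · rw [Nat.sub_self, pow_zero, mul_one, PowerSeries.constantCoeff_C, PowerSeries.coeff_map]
        · intro m hm
          have h9 := Finset.mem_range.1 hm
          have h10 : 2 * M * m < 2 * M * d e := (Nat.mul_lt_mul_left (by omega)).2 h9
          have h11 : 2 * M * d e - 2 * M * m ≠ 0 := by omega
          rw [map_mul, map_pow, PowerSeries.constantCoeff_X, zero_pow h11, mul_zero]
      rw [h8]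
      exact (hDu e).map _
    rw [mul_left_comm] at h2
    have h12 : red I e s * ev M (d e) (2 * M * d e) (red I e (D e)) = 0 := by
      ext m
      have h13 := congrArg (PowerSeries.coeff (m + (B e - 2 * M * d e))) h2
      rw [PowerSeries.coeff_X_pow_mul] at h13
      rw [h13]
      rfl
    exact (hu.mul_left_eq_zero).1 h12
  ext m
  rw [map_zero]
  refine hI _ fun e => ?_
  have h2 := congrArg (PowerSeries.coeff m) (h1 e)
  rw [PowerSeries.coeff_map, map_zero] at h2
  exact Ideal.Quotient.eq_zero_iff_mem.1 h2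

theorem fin_contra {n : ℕ} (hn : 1 ≤ n) {R : Type*} [CommRing R] [IsDomain R] [CharZero R]
    (I : ℕ → Ideal R) (hI : ∀ x : R, (∀ e, x ∈ I e) → x = 0)
    (D : ℕ → PowerSeries R) (T : ℕ → ℕ) (K : ℕ → Finset (Fin n →₀ ℕ))
    (d1 : ∀ e, red I e (th (D e)) = 0) (d : ℕ → ℕ) (m₁ : ℕ) (hd : ∀ e, d e + m₁ + 1 ≤ T e)
    (hDd : ∀ e m, d e < m → PowerSeries.coeff m (red I e (D e)) = 0)
    (hDu : ∀ e, IsUnit (PowerSeries.coeff (d e) (D e)))
    (W : Finset (Fin n → ℕ)) (hW : W.Nonempty) (M : ℕ) (hM : 1 ≤ M)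
    (hpos : ∀ w ∈ W, ∀ i, 1 ≤ w i)
    {J : Type} [Fintype J] (a : J → Ari n I D T K)
    (hWf : ∀ j, ∀ w ∈ W, ∀ l ∈ (a j).f.support, M ≤ wt w l)
    (G : J → Finset (Fin n →₀ ℕ)) (hcer : ∀ j k, k ∉ G j → Cer W hW M (a j).f k)
    (h : MvPolynomial (Fin n) R) (ω : J → R)
    (hG : ∀ m, m₁ < m → PowerSeries.coeff m (∑ j, PowerSeries.C (ω j) * (a j).A h) = 0)
    (hG1 : PowerSeries.coeff m₁ (∑ j, PowerSeries.C (ω j) * (a j).A h) ≠ 0) : False := by
  classical
  let B : ℕ → ℕ := fun e =>
    2 * M * (T e + 1) + 2 * (K e).sup (fun k => nu W hW (k + oo n))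
  have hB : ∀ e, 2 * M * (T e + 1) ≤ B e := fun e => Nat.le_add_right _ _
  have hBK : ∀ e, ∀ k ∈ K e, 2 * M * (T e) + 2 * nu W hW (k + oo n) ≤ B e := by
    intro e k hk
    have h1 : nu W hW (k + oo n) ≤ (K e).sup (fun k => nu W hW (k + oo n)) :=
      Finset.le_sup (f := fun k => nu W hW (k + oo n)) hk
    have h2 : 2 * M * T e ≤ 2 * M * (T e + 1) := Nat.mul_le_mul_left _ (Nat.le_succ _)
    show _ ≤ 2 * M * (T e + 1) + 2 * (K e).sup (fun k => nu W hW (k + oo n))
    omega
  let Dj : J → Dat n R (VV I) := fun j => (a j).dat W hW M hM hpos (hWf j) d1 B hB hBK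
  let N : Submodule (PowerSeries R) (VV I) := ⨆ j, (Dj j).N
  have hN : N.FG := Submodule.fg_iSup _ fun j => (Dj j).N_fg (G j) (hcer j)
  let ε : VV I := fun e => ev M (T e) (B e) (red I e (D e))
  have hε0 : del I B ε = 0 := by
    funext e
    rw [del_apply, th_ev _ _ _ (hB e), ← red_th, d1]
    unfold ev
    rw [Finset.sum_eq_zero, mul_zero, neg_zero]
    · rfl
    · intro m _
      rw [map_zero, map_zero, zero_mul]
  have hε : ∀ s : PowerSeries R, s • ε = 0 → s = 0 :=
    fun s hs => eps_ann I hI M hM D T B d hB (fun e => by have := hd e; omega) hDd hDu s hs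
  have hq : ∀ v ∈ N, ∃ v' ∈ N, (PowerSeries.X : PowerSeries R) • v' =
      (del I B)^[W.card] v := by
    have hadd : ∀ (q : ℕ) (v w : VV I), (del I B)^[q] (v + w) =
        (del I B)^[q] v + (del I B)^[q] w := by
      intro q
      induction q with
      | zero => intro v w; rfl
      | succ q ih =>
        intro v w
        rw [Function.iterate_succ_apply, Function.iterate_succ_apply,
          Function.iterate_succ_apply, map_add, ih]
    have hzero : ∀ q : ℕ, (del I B)^[q] 0 = 0 := by
      intro q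
      induction q with
      | zero => rfl
      | succ q ih => rw [Function.iterate_succ_apply, map_zero, ih]
    intro v hv
    induction hv using Submodule.iSup_induction' with
    | mem j x hx =>
      obtain ⟨v', hv', h'⟩ := (Dj j).nil x hx
      exact ⟨v', Submodule.mem_iSup_of_mem j hv', h'⟩
    | zero => exact ⟨0, Submodule.zero_mem _, by rw [smul_zero, hzero]⟩
    | add x y _ _ hx hy =>
      obtain ⟨x', hx', h1⟩ := hx
      obtain ⟨y', hy', h2⟩ := hy
      exact ⟨x' + y', Submodule.add_mem _ hx' hy', by rw [smul_add, h1, h2, hadd]⟩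
  let u : (Fin n →₀ ℕ) → ℕ := fun k => nu W hW (k + oo n)
  have hu0 : ∀ k, u 0 ≤ u k := by
    intro k
    show nu W hW (0 + oo n) ≤ nu W hW (k + oo n)
    rw [zero_add, add_comm]
    have := nu_superadd hW (oo n) k
    omega
  let v₀ : VV I := ∑ j, PowerSeries.C (ω j) • ∑ k ∈ h.support,
    (PowerSeries.C (coeff k h) * PowerSeries.X ^ (2 * u k - 2 * u 0)) • (Dj j).φ k
  have hv₀ : v₀ ∈ N := by
    refine Submodule.sum_mem _ fun j _ => Submodule.smul_mem _ _ (Submodule.sum_mem _ fun k _ =>
      Submodule.smul_mem _ _ (Submodule.mem_iSup_of_mem j ((Dj j).phi_mem k)))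
  obtain ⟨Gs, hGs⟩ : ∃ Gs, Gs = ∑ j, PowerSeries.C (ω j) * (a j).A h := ⟨_, rfl⟩
  rw [← hGs] at hG hG1
  have hv1 : (PowerSeries.X ^ (2 * u 0) : PowerSeries R) • v₀ =
      fun e => ev M (T e) (B e) (red I e (D e * Gs)) := by
    have h1 : (PowerSeries.X ^ (2 * u 0) : PowerSeries R) • v₀ =
        ∑ j, PowerSeries.C (ω j) • (Dj j).Ψ h := by
      show (PowerSeries.X ^ (2 * u 0) : PowerSeries R) • (∑ j, PowerSeries.C (ω j) •
        ∑ k ∈ h.support, (PowerSeries.C (coeff k h) * PowerSeries.X ^ (2 * u k - 2 * u 0)) •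
          (Dj j).φ k) = _
      rw [Finset.smul_sum]
      refine Finset.sum_congr rfl fun j _ => ?_
      rw [smul_comm, (Dj j).Psi_eq h]
      congr 1
      rw [Finset.smul_sum]
      refine Finset.sum_congr rfl fun k _ => ?_
      rw [smul_smul]
      congr 1
      have h2 := hu0 k
      have h3 : (Dj j).u k = u k := rfl
      have h4 : 2 * u k = 2 * u 0 + (2 * u k - 2 * u 0) := by omega
      rw [h3, mul_left_comm, ← pow_add, ← h4]
    rw [h1]
    funext e
    rw [Finset.sum_apply]
    have h2 : ∀ j, (PowerSeries.C (ω j) • (Dj j).Ψ h) e =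
        ev M (T e) (B e) (red I e (D e * (PowerSeries.C (ω j) * (a j).A h))) := by
      intro j
      rw [VV_smul, red_C, mul_left_comm, map_mul, red_C, ev_C_mul]
      rfl
    rw [Finset.sum_congr rfl fun j _ => h2 j, hGs, Finset.mul_sum, map_sum]
    have h3 : ∀ (s : Finset J) (g : J → PowerSeries (R ⧸ I e)),
        ∑ j ∈ s, ev M (T e) (B e) (g j) = ev M (T e) (B e) (∑ j ∈ s, g j) := by
      intro s g
      induction s using Finset.induction_on with
      | empty =>
        rw [Finset.sum_empty, Finset.sum_empty]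
        unfold ev
        rw [Finset.sum_eq_zero]
        intro m _
        rw [map_zero, map_zero, zero_mul]
      | insert j s hj ih => rw [Finset.sum_insert hj, Finset.sum_insert hj, ev_add, ih]
    exact h3 _ _
  let P : PowerSeries R := ∑ m ∈ Finset.range (m₁ + 1),
    PowerSeries.C (PowerSeries.coeff m Gs) * PowerSeries.X ^ (2 * M * (m₁ - m))
  have hPc : PowerSeries.constantCoeff P = PowerSeries.coeff m₁ Gs := by
    show PowerSeries.constantCoeff (∑ m ∈ Finset.range (m₁ + 1), _) = _
    rw [map_sum, Finset.sum_range_succ, Finset.sum_eq_zero, zero_add]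
    · rw [Nat.sub_self, mul_zero, pow_zero, mul_one, PowerSeries.constantCoeff_C]
    · intro m hm
      have h9 := Finset.mem_range.1 hm
      have h11 : 2 * M * (m₁ - m) ≠ 0 := by
        refine mul_ne_zero (by omega) (by omega)
      rw [map_mul, map_pow, PowerSeries.constantCoeff_X, zero_pow h11, mul_zero]
  have hGsum : Gs = ∑ m ∈ Finset.range (m₁ + 1),
      PowerSeries.C (PowerSeries.coeff m Gs) * PowerSeries.X ^ m := by
    ext j
    rw [map_sum]
    simp_rw [PowerSeries.coeff_C_mul, PowerSeries.coeff_X_pow]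
    by_cases hj : j ≤ m₁
    · rw [Finset.sum_eq_single j]
      · rw [if_pos rfl, mul_one]
      · intro m _ hm
        rw [if_neg (Ne.symm hm), mul_zero]
      · intro h
        exact absurd (Finset.mem_range.2 (by omega)) h
    · rw [hG j (by omega), Finset.sum_eq_zero]
      intro m hm
      have h9 := Finset.mem_range.1 hm
      rw [if_neg (by omega), mul_zero]
  have hfin : (PowerSeries.X ^ (2 * M * m₁ + 2 * u 0) : PowerSeries R) • v₀ = P • ε := by
    rw [pow_add, mul_smul, hv1]
    funext e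
    rw [VV_smul, VV_smul, red_X_pow, hGsum, Finset.mul_sum, map_sum]
    have h3 : ∀ (s : Finset ℕ) (g : ℕ → PowerSeries (R ⧸ I e)),
        ev M (T e) (B e) (∑ j ∈ s, g j) = ∑ j ∈ s, ev M (T e) (B e) (g j) := by
      intro s g
      induction s using Finset.induction_on with
      | empty =>
        rw [Finset.sum_empty, Finset.sum_empty]
        unfold ev
        rw [Finset.sum_eq_zero]
        intro m _
        rw [map_zero, map_zero, zero_mul]
      | insert j s hj ih => rw [Finset.sum_insert hj, Finset.sum_insert hj, ev_add, ih]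
    rw [h3, Finset.mul_sum]
    show _ = red I e (∑ m ∈ Finset.range (m₁ + 1), _) * ev M (T e) (B e) (red I e (D e))
    rw [map_sum, Finset.sum_mul]
    refine Finset.sum_congr rfl fun m hm => ?_
    have h9 := Finset.mem_range.1 hm
    rw [mul_left_comm, map_mul, red_C, ev_C_mul, mul_comm (D e), map_mul, red_X_pow,
      map_mul, red_C, red_X_pow]
    have h10 : 2 * M * m₁ = 2 * M * (m₁ - m) + 2 * M * m := by
      rw [← mul_add]
      congr 1
      omega
    have h11 := ev_X_pow_mul M (T e) (B e) (hB e) m (red I e (D e)) (fun m' hm' =>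
      hDd e m' (by have := hd e; omega))
    rw [h10, pow_add, mul_assoc, mul_left_comm (PowerSeries.X ^ (2 * M * m)), h11]
    ring
  refine end_contra (del I B) (del_smul I B) ε hε0 hε N hN W.card hq v₀ hv₀
    (2 * M * m₁ + 2 * u 0) ?_ P (by rw [hPc]; exact hG1) hfin
  have h1 : 1 ≤ u 0 := by
    obtain ⟨w, hw, h⟩ := nu_mem hW (0 + oo n)
    show 1 ≤ nu W hW (0 + oo n)
    rw [h, zero_add]
    unfold wt
    calc 1 ≤ w ⟨0, hn⟩ * oo n ⟨0, hn⟩ := by rw [oo_apply, mul_one]; exact hpos w hw _
      _ ≤ ∑ i, w i * oo n i := Finset.single_le_sum (f := fun i => w i * oo n i)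
        (fun i _ => Nat.zero_le _) (Finset.mem_univ _)
  omega

end Pool.Agent.Helper91.FC
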