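import Mathlib
import Pool.Agent.Helper81.FC.Gap

/-! Divided powers: `p`-adic smallness of `b! * coeff b (g^j) / j!`. -/

set_option autoImplicit false

namespace Pool.Agent.Helper91.FC

open MvPolynomial
open Pool.Agent.Helper81.FC (fac)

/-- `x` lies in `p^e R` -/
def Sm (R : Subalgebra ℤ ℂ) (p e : ℕ) (x : ℂ) : Prop := ∃ y ∈ R, x = (p : ℂ) ^ e * y

section

variable {R : Subalgebra ℤ ℂ} {p : ℕ}

lemma Sm.zero (e : ℕ) : Sm R p e 0 := ⟨0, R.zero_mem, by rw [mul_zero]⟩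

lemma Sm.add {e : ℕ} {x y : ℂ} (hx : Sm R p e x) (hy : Sm R p e y) : Sm R p e (x + y) := by
  obtain ⟨a, ha, rfl⟩ := hx
  obtain ⟨b, hb, rfl⟩ := hy
  exact ⟨a + b, R.add_mem ha hb, by ring⟩

lemma Sm.sum {e : ℕ} {ι : Type*} (s : Finset ι) (f : ι → ℂ) (h : ∀ i ∈ s, Sm R p e (f i)) :
    Sm R p e (∑ i ∈ s, f i) := by
  classical
  induction s using Finset.induction_on with
  | empty => rw [Finset.sum_empty]; exact Sm.zero e
  | insert i s hi ih =>
    rw [Finset.sum_insert hi]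
    exact (h i (Finset.mem_insert_self _ _)).add
      (ih fun j hj => h j (Finset.mem_insert_of_mem hj))

lemma Sm.mul_mem {e : ℕ} {x z : ℂ} (hx : Sm R p e x) (hz : z ∈ R) : Sm R p e (z * x) := by
  obtain ⟨a, ha, rfl⟩ := hx
  exact ⟨z * a, R.mul_mem hz ha, by ring⟩

lemma Sm.mul {e e' : ℕ} {x y : ℂ} (hx : Sm R p e x) (hy : Sm R p e' y) :
    Sm R p (e + e') (x * y) := by
  obtain ⟨a, ha, rfl⟩ := hx
  obtain ⟨b, hb, rfl⟩ := hy
  exact ⟨a * b, R.mul_mem ha hb, by rw [pow_add]; ring⟩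

lemma natCast_mem (m : ℕ) : (m : ℂ) ∈ R := by
  have := R.natCast_mem m
  exact this

lemma Sm_zero_iff (x : ℂ) : Sm R p 0 x ↔ x ∈ R := by
  constructor
  · rintro ⟨y, hy, rfl⟩
    rwa [pow_zero, one_mul]
  · intro h
    exact ⟨x, h, by rw [pow_zero, one_mul]⟩

lemma Sm.mem {e : ℕ} {x : ℂ} (hx : Sm R p e x) : x ∈ R := by
  obtain ⟨a, ha, rfl⟩ := hx
  exact R.mul_mem (R.pow_mem (natCast_mem p) e) ha

lemma Sm_nat {e m : ℕ} (h : p ^ e ∣ m) : Sm R p e (m : ℂ) := by
  obtain ⟨a, rfl⟩ := h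
  exact ⟨a, natCast_mem a, by push_cast; ring⟩

end

lemma pow_dvd_factorial (p e j : ℕ) (hp : 1 ≤ p) (h : e * p ≤ j) : p ^ e ∣ j.factorial := by
  have h1 : (p.factorial) ^ e ∣ (e * p).factorial := by
    have := Nat.prod_factorial_dvd_factorial_sum (Finset.range e) (fun _ => p)
    rwa [Finset.prod_const, Finset.card_range, Finset.sum_const, Finset.card_range,
      smul_eq_mul] at this
  have h2 : p ∣ p.factorial := Nat.dvd_factorial hp le_rfl
  exact ((pow_dvd_pow_of_dvd h2 e).trans h1).trans (Nat.factorial_dvd_factorial h)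

lemma fac_add {n : ℕ} (a b : Fin n →₀ ℕ) : fac (a + b) =
    ((∏ i, (a i + b i).choose (b i) : ℕ) : ℂ) * (fac a * fac b) := by
  have e1 : fac (a + b) = ∏ i, ((a i + b i).factorial : ℂ) := rfl
  rw [e1]
  unfold fac
  push_cast
  rw [← Finset.prod_mul_distrib, ← Finset.prod_mul_distrib]
  refine Finset.prod_congr rfl fun i _ => ?_
  rw [← Nat.add_choose_mul_factorial_mul_factorial]
  push_cast
  ring

lemma fac_ne {n : ℕ} (a : Fin n →₀ ℕ) : fac a ≠ 0 := by
  unfold fac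
  exact Finset.prod_ne_zero_iff.2 fun i _ => Nat.cast_ne_zero.2 (Nat.factorial_ne_zero _)

/-- divided powers of `g` are integral and tend to zero -/
def DP {n : ℕ} (R : Subalgebra ℤ ℂ) (p : ℕ) (g : MvPolynomial (Fin n) ℂ) : Prop :=
  ∃ J : ℕ → ℕ, J 0 = 0 ∧ ∀ e j, J e ≤ j → ∀ b, Sm R p e (coeff b (g ^ j) * fac b / (j.factorial : ℂ))

lemma DP_zero {n : ℕ} (R : Subalgebra ℤ ℂ) (p : ℕ) : DP R p (0 : MvPolynomial (Fin n) ℂ) := by
  classical
  refine ⟨fun e => if e = 0 then 0 else 1, if_pos rfl, fun e j hj b => ?_⟩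
  by_cases h0 : j = 0
  · subst h0
    have he : e = 0 := by
      by_contra h
      have hj' : (if e = 0 then 0 else 1) ≤ 0 := hj
      rw [if_neg h] at hj'
      omega
    subst he
    rw [pow_zero, Nat.factorial_zero, Nat.cast_one, div_one, Sm_zero_iff]
    by_cases hb : b = 0
    · subst hb
      simp [fac, R.one_mem]
    · rw [coeff_one, if_neg (Ne.symm hb), zero_mul]
      exact R.zero_mem
  · rw [zero_pow h0, coeff_zero, zero_mul, zero_div]
    exact Sm.zero e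

lemma DP_monomial {n : ℕ} (R : Subalgebra ℤ ℂ) (p : ℕ) (hp : 1 ≤ p) (l : Fin n →₀ ℕ)
    (hl : 2 ≤ ∑ i, l i) (c : ℂ) (hc : c ∈ R) : DP R p (monomial l c) := by
  classical
  refine ⟨fun e => e * p, zero_mul _, fun e j hj b => ?_⟩
  rw [monomial_pow, coeff_monomial]
  split_ifs with h
  · rw [← h]
    have h1 : (j.factorial) ^ 2 ∣ ∏ i, (j * l i).factorial := by
      have h2 : ∀ i : Fin n, (j.factorial) ^ (l i) ∣ (j * l i).factorial := by
        intro i
        have := Nat.prod_factorial_dvd_factorial_sum (Finset.range (l i)) (fun _ => j)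
        rwa [Finset.prod_const, Finset.card_range, Finset.sum_const, Finset.card_range,
          smul_eq_mul, mul_comm] at this
      have h3 := Finset.prod_dvd_prod_of_dvd (s := Finset.univ) _ _ fun i _ => h2 i
      rw [Finset.prod_pow_eq_pow_sum] at h3
      exact (pow_dvd_pow _ hl).trans h3
    obtain ⟨m, hm⟩ := h1
    have h4 : fac (j • l) = (j.factorial : ℂ) * ((j.factorial : ℂ) * (m : ℂ)) := by
      have h5 : fac (j • l) = ((∏ i, (j * l i).factorial : ℕ) : ℂ) := by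
        push_cast
        rfl
      rw [h5, hm]
      push_cast
      ring
    have hj0 : (j.factorial : ℂ) ≠ 0 := Nat.cast_ne_zero.2 (Nat.factorial_ne_zero _)
    have h6 : c ^ j * fac (j • l) / (j.factorial : ℂ) = (c ^ j * (m : ℂ)) * (j.factorial : ℂ) := by
      rw [h4]
      field_simp
    rw [h6]
    exact (Sm_nat (pow_dvd_factorial p e j hp hj)).mul_mem
      (R.mul_mem (R.pow_mem hc j) (natCast_mem m))
  · rw [zero_mul, zero_div]
    exact Sm.zero e

lemma DP_add {n : ℕ} (R : Subalgebra ℤ ℂ) (p : ℕ) (g g' : MvPolynomial (Fin n) ℂ)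
    (hg : DP R p g) (hg' : DP R p g') : DP R p (g + g') := by
  classical
  obtain ⟨J, hJ0, hJ⟩ := hg
  obtain ⟨J', hJ0', hJ'⟩ := hg'
  refine ⟨fun e => J e + J' e, by show J 0 + J' 0 = 0; rw [hJ0, hJ0'], fun e j hj b => ?_⟩
  have hj' : J e + J' e ≤ j := hj
  rw [(Commute.all g g').add_pow', coeff_sum, Finset.sum_mul, Finset.sum_div]
  refine Sm.sum _ _ fun x hx => ?_
  have hx' := Finset.HasAntidiagonal.mem_antidiagonal.1 hx
  rw [coeff_smul, coeff_mul, Finset.smul_sum, Finset.sum_mul, Finset.sum_div]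
  refine Sm.sum _ _ fun y hy => ?_
  have hy' := Finset.HasAntidiagonal.mem_antidiagonal.1 hy
  have h1 : (j.factorial : ℂ) = (j.choose x.1 : ℂ) * ((x.1).factorial : ℂ) *
      ((x.2).factorial : ℂ) := by
    have := Nat.add_choose_mul_factorial_mul_factorial x.1 x.2
    rw [hx', ← Nat.choose_symm (by omega : x.2 ≤ j)] at this
    have h2 : j - x.2 = x.1 := by omega
    rw [h2] at this
    rw [← this]
    push_cast
    ring
  have hc0 : (j.choose x.1 : ℂ) ≠ 0 :=
    Nat.cast_ne_zero.2 (Nat.choose_pos (by omega : x.1 ≤ j)).ne'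
  have h3 : ((x.1).factorial : ℂ) ≠ 0 := Nat.cast_ne_zero.2 (Nat.factorial_ne_zero _)
  have h4 : ((x.2).factorial : ℂ) ≠ 0 := Nat.cast_ne_zero.2 (Nat.factorial_ne_zero _)
  have e1 : j.choose x.1 • (coeff y.1 (g ^ x.1) * coeff y.2 (g' ^ x.2)) * fac b /
      (j.factorial : ℂ) = ((∏ i, (y.1 i + y.2 i).choose (y.2 i) : ℕ) : ℂ) *
      ((coeff y.1 (g ^ x.1) * fac y.1 / ((x.1).factorial : ℂ)) *
        (coeff y.2 (g' ^ x.2) * fac y.2 / ((x.2).factorial : ℂ))) := by
    rw [← hy', fac_add, h1, nsmul_eq_mul]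
    field_simp
  rw [e1]
  refine Sm.mul_mem ?_ (natCast_mem _)
  by_cases h5 : J e ≤ x.1
  · have h6 := (hJ e x.1 h5 y.1).mul (hJ' 0 x.2 (by rw [hJ0']; exact Nat.zero_le _) y.2)
    rwa [add_zero] at h6
  · have h6 := (hJ 0 x.1 (by rw [hJ0]; exact Nat.zero_le _) y.1).mul
      (hJ' e x.2 (by omega) y.2)
    rwa [zero_add] at h6

theorem DP_of_order {n : ℕ} (R : Subalgebra ℤ ℂ) (p : ℕ) (hp : 1 ≤ p)
    (g : MvPolynomial (Fin n) ℂ) (hg : ∀ l ∈ g.support, 2 ≤ ∑ i, l i)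
    (hR : ∀ l, coeff l g ∈ R) : DP R p g := by
  classical
  have h1 : ∀ s : Finset (Fin n →₀ ℕ), s ⊆ g.support →
      DP R p (∑ l ∈ s, monomial l (coeff l g)) := by
    intro s
    induction s using Finset.induction_on with
    | empty => intro _; rw [Finset.sum_empty]; exact DP_zero R p
    | insert l s hl ih =>
      intro hs
      rw [Finset.sum_insert hl]
      exact DP_add R p _ _ (DP_monomial R p hp l (hg l (hs (Finset.mem_insert_self _ _))) _ (hR l))
        (ih fun x hx => hs (Finset.mem_insert_of_mem hx))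
  rw [g.as_sum]
  exact h1 _ (Finset.Subset.refl _)

end Pool.Agent.Helper91.FC
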