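import Mathlib
import Pool.Agent.Helper91.FC.Dp
import Pool.Agent.Helper91.FC.Ev

/-! The generating function of the moments, over the complex numbers. -/

set_option autoImplicit false

namespace Pool.Agent.Helper91.FC

open MvPolynomial
open Pool.Agent.Helper81.FC (fac Lf fac_add_single X_mul_monomial pderiv_X_mul_monomial)

variable {n : ℕ}

lemma Lf_monomial (s : Fin n →₀ ℕ) (c : ℂ) : Lf (monomial s c) = c * fac s := by
  have : monomial s c = c • (basisMonomials (Fin n) ℂ) s := by
    rw [coe_basisMonomials, smul_monomial, smul_eq_mul, mul_one]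
  rw [this, map_smul, Lf, Module.Basis.constr_basis, smul_eq_mul]

lemma Lf_parts (i : Fin n) (Q : MvPolynomial (Fin n) ℂ) :
    Lf (pderiv i (X i * Q)) = Lf (X i * Q) := by
  induction Q using MvPolynomial.induction_on' with
  | monomial s c =>
    rw [pderiv_X_mul_monomial, X_mul_monomial, Lf_monomial, Lf_monomial, fac_add_single]
    ring
  | add P Q hP hQ => rw [mul_add, map_add, map_add, map_add, hP, hQ]

/-- the generating function of `L(P f^m)/m!` -/
noncomputable def gA (f P : MvPolynomial (Fin n) ℂ) : PowerSeries ℂ :=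
  PowerSeries.mk fun m => Lf (P * f ^ m) / (m.factorial : ℂ)

lemma coeff_gA (f P : MvPolynomial (Fin n) ℂ) (m : ℕ) :
    PowerSeries.coeff m (gA f P) = Lf (P * f ^ m) / (m.factorial : ℂ) := PowerSeries.coeff_mk _ _

lemma gA_add (f P Q : MvPolynomial (Fin n) ℂ) : gA f (P + Q) = gA f P + gA f Q := by
  ext m
  rw [map_add, coeff_gA, coeff_gA, coeff_gA, add_mul, map_add, add_div]

lemma gA_zero (f : MvPolynomial (Fin n) ℂ) : gA f 0 = 0 := by
  ext m
  rw [coeff_gA, zero_mul, map_zero, zero_div, map_zero]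

lemma gA_sum {ι : Type*} (f : MvPolynomial (Fin n) ℂ) (s : Finset ι)
    (P : ι → MvPolynomial (Fin n) ℂ) : gA f (∑ i ∈ s, P i) = ∑ i ∈ s, gA f (P i) := by
  classical
  induction s using Finset.induction_on with
  | empty => rw [Finset.sum_empty, Finset.sum_empty, gA_zero]
  | insert i s hi ih => rw [Finset.sum_insert hi, Finset.sum_insert hi, gA_add, ih]

lemma gA_C_mul (f : MvPolynomial (Fin n) ℂ) (c : ℂ) (P : MvPolynomial (Fin n) ℂ) :
    gA f (C c * P) = PowerSeries.C c * gA f P := by
  ext m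
  rw [PowerSeries.coeff_C_mul, coeff_gA, coeff_gA, mul_assoc, ← smul_eq_C_mul, map_smul,
    smul_eq_mul, mul_div_assoc]

theorem gA_a1 (f : MvPolynomial (Fin n) ℂ) (i : Fin n) (P : MvPolynomial (Fin n) ℂ) :
    gA f (pderiv i (X i * P)) + PowerSeries.X * gA f (X i * pderiv i f * P) = gA f (X i * P) := by
  ext m
  rw [map_add]
  have h := Lf_parts i (P * f ^ m)
  have h2 : pderiv i (X i * (P * f ^ m)) = pderiv i (X i * P) * f ^ m +
      X i * P * ((m : MvPolynomial (Fin n) ℂ) * f ^ (m - 1) * pderiv i f) := by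
    rw [← mul_assoc, Derivation.leibniz, Derivation.leibniz_pow, smul_eq_mul, smul_eq_mul,
      nsmul_eq_mul, smul_eq_mul]
    ring
  rw [h2, map_add] at h
  cases m with
  | zero =>
    rw [PowerSeries.coeff_zero_X_mul, coeff_gA, coeff_gA, add_zero, mul_assoc (X i)]
    rw [Nat.cast_zero, zero_mul, zero_mul, mul_zero, map_zero, add_zero] at h
    rw [h]
  | succ m =>
    rw [PowerSeries.coeff_succ_X_mul, coeff_gA, coeff_gA, coeff_gA, mul_assoc (X i) P, ← h,
      Nat.add_sub_cancel, add_div]
    have e1 : X i * P * (((m + 1 : ℕ) : MvPolynomial (Fin n) ℂ) * f ^ m * pderiv i f) =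
        C (((m + 1 : ℕ) : ℂ)) * (X i * pderiv i f * P * f ^ m) := by
      rw [map_natCast]
      ring
    have hm : ((m + 1 : ℕ) : ℂ) ≠ 0 := Nat.cast_ne_zero.2 (Nat.succ_ne_zero _)
    have hm2 : (m.factorial : ℂ) ≠ 0 := Nat.cast_ne_zero.2 (Nat.factorial_ne_zero _)
    have e3 : Lf (X i * P * (((m + 1 : ℕ) : MvPolynomial (Fin n) ℂ) * f ^ m * pderiv i f)) /
        ((m + 1).factorial : ℂ) = Lf (X i * pderiv i f * P * f ^ m) / (m.factorial : ℂ) := by
      rw [e1, ← smul_eq_C_mul, map_smul, smul_eq_mul, Nat.factorial_succ, Nat.cast_mul,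
        mul_div_mul_left _ _ hm]
    rw [e3]

theorem gA_a2 (f P : MvPolynomial (Fin n) ℂ) :
    th (gA f P) = PowerSeries.X * gA f (f * P) := by
  ext m
  rw [coeff_th]
  cases m with
  | zero => rw [PowerSeries.coeff_zero_X_mul, Nat.cast_zero, zero_mul]
  | succ m =>
    rw [PowerSeries.coeff_succ_X_mul, coeff_gA, coeff_gA, Nat.factorial_succ, Nat.cast_mul]
    have hm : ((m + 1 : ℕ) : ℂ) ≠ 0 := Nat.cast_ne_zero.2 (Nat.succ_ne_zero _)
    rw [mul_div_assoc', mul_div_mul_left _ _ hm]
    congr 2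
    ring

/-! ### linear forms -/

/-- a linear form -/
noncomputable def lin (c : Fin n → ℂ) : MvPolynomial (Fin n) ℂ := ∑ i, C (c i) * X i

lemma pderiv_lin (c : Fin n → ℂ) (i : Fin n) : pderiv i (lin c) = C (c i) := by
  classical
  unfold lin
  rw [map_sum, Finset.sum_eq_single i]
  · rw [pderiv_C_mul, pderiv_X_self, mul_one]
  · intro j _ hj
    rw [pderiv_C_mul, pderiv_X_of_ne (Ne.symm hj.symm), mul_zero]
  · intro h
    exact absurd (Finset.mem_univ i) h

lemma lin_step (c : Fin n → ℂ) (q : Fin n →₀ ℕ) (i : Fin n) :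
    (1 - PowerSeries.C (c i) * PowerSeries.X) * gA (lin c) (monomial (q + Finsupp.single i 1) 1) =
      PowerSeries.C ((q i : ℂ) + 1) * gA (lin c) (monomial q 1) := by
  have h := gA_a1 (lin c) i (monomial q 1)
  rw [pderiv_X_mul_monomial, pderiv_lin, X_mul_monomial] at h
  have e1 : X i * C (c i) * monomial q (1 : ℂ) = C (c i) * monomial (q + Finsupp.single i 1) 1 := by
    rw [mul_comm (X i), mul_assoc, X_mul_monomial]
  have e2 : (monomial q (1 * ((q i : ℂ) + 1)) : MvPolynomial (Fin n) ℂ) =
      C ((q i : ℂ) + 1) * monomial q 1 := by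
    rw [C_mul_monomial, mul_one, one_mul]
  rw [e1, e2, gA_C_mul, gA_C_mul] at h
  linear_combination (-1 : PowerSeries ℂ) * h

lemma lin_q (c : Fin n → ℂ) (q : Fin n →₀ ℕ) :
    (∏ i, (1 - PowerSeries.C (c i) * PowerSeries.X) ^ (q i)) * gA (lin c) (monomial q 1) =
      PowerSeries.C (fac q) * gA (lin c) 1 := by
  classical
  have main : ∀ (N : ℕ) (q : Fin n →₀ ℕ), ∑ i, q i = N →
      (∏ i, (1 - PowerSeries.C (c i) * PowerSeries.X) ^ (q i)) * gA (lin c) (monomial q 1) =
      PowerSeries.C (fac q) * gA (lin c) 1 := by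
    intro N
    induction N with
    | zero =>
      intro q hq
      have h0 : q = 0 := by
        ext i
        exact (Finset.sum_eq_zero_iff.1 hq) i (Finset.mem_univ i)
      subst h0
      have e1 : fac (0 : Fin n →₀ ℕ) = 1 := by simp [fac]
      have e2 : (monomial (0 : Fin n →₀ ℕ) (1 : ℂ)) = 1 := rfl
      have e3 : (∏ i, (1 - PowerSeries.C (c i) * PowerSeries.X) ^ ((0 : Fin n →₀ ℕ) i)) =
          (1 : PowerSeries ℂ) := by
        refine Finset.prod_eq_one fun i _ => ?_
        rw [Finsupp.zero_apply, pow_zero]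
      rw [e1, e2, e3, map_one]
    | succ N ih =>
      intro q hq
      obtain ⟨i, hi⟩ : ∃ i, 1 ≤ q i := by
        by_contra hcon
        push Not at hcon
        rw [Finset.sum_eq_zero fun i _ => by have := hcon i; omega] at hq
        omega
      obtain ⟨q', rfl⟩ : ∃ q', q = q' + Finsupp.single i 1 :=
        ⟨q - Finsupp.single i 1, (tsub_add_cancel_of_le (Finsupp.single_le_iff.2 hi)).symm⟩
      have hq' : ∑ i, q' i = N := by
        have h1 : ∑ j, (q' + Finsupp.single i 1 : Fin n →₀ ℕ) j = ∑ j, q' j + 1 := by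
          have h2 : ∀ j, (q' + Finsupp.single i 1 : Fin n →₀ ℕ) j = q' j + Finsupp.single i 1 j := fun j => rfl
          rw [Finset.sum_congr rfl fun j _ => h2 j, Finset.sum_add_distrib]
          congr 1
          simp [Finsupp.single_apply]
        omega
      have h1 : (∏ j, (1 - PowerSeries.C (c j) * PowerSeries.X) ^ ((q' + Finsupp.single i 1 : Fin n →₀ ℕ) j)) =
          (∏ j, (1 - PowerSeries.C (c j) * PowerSeries.X) ^ (q' j)) *
            (1 - PowerSeries.C (c i) * PowerSeries.X : PowerSeries ℂ) := by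
        have h2 : ∀ j, (1 - PowerSeries.C (c j) * PowerSeries.X : PowerSeries ℂ) ^
            ((q' + Finsupp.single i 1 : Fin n →₀ ℕ) j) = (1 - PowerSeries.C (c j) * PowerSeries.X) ^ (q' j) *
            (if j = i then (1 - PowerSeries.C (c i) * PowerSeries.X : PowerSeries ℂ) else 1) := by
          intro j
          rw [Finsupp.add_apply, pow_add, Finsupp.single_apply]
          by_cases hj : j = i
          · rw [if_pos hj, if_pos hj.symm, pow_one, hj]
          · rw [if_neg hj, if_neg (Ne.symm hj), pow_zero]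
        rw [Finset.prod_congr rfl fun j _ => h2 j, Finset.prod_mul_distrib,
          Finset.prod_ite_eq' Finset.univ i, if_pos (Finset.mem_univ i)]
      rw [h1, mul_assoc, lin_step, mul_left_comm, ih q' hq', fac_add_single, map_mul]
      ring
  exact main _ q rfl

lemma gA_zero_coeff (f P : MvPolynomial (Fin n) ℂ) : PowerSeries.coeff 0 (gA f P) = Lf P := by
  rw [coeff_gA, pow_zero, mul_one, Nat.factorial_zero, Nat.cast_one, div_one]

lemma lin_one (c : Fin n → ℂ) :
    (∏ i, (1 - PowerSeries.C (c i) * PowerSeries.X)) * gA (lin c) 1 = 1 := by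
  classical
  obtain ⟨v, hv⟩ : ∃ v : Fin n → PowerSeries ℂ,
    v = fun i => (1 - PowerSeries.C (c i) * PowerSeries.X) := ⟨_, rfl⟩
  have hv' : ∀ i, (1 - PowerSeries.C (c i) * PowerSeries.X) = v i := fun i => by rw [hv]
  have hthv : ∀ i, th (v i) = - (PowerSeries.C (c i) * PowerSeries.X) := by
    intro i
    rw [← hv']
    ext m
    rw [coeff_th, map_sub, map_neg, PowerSeries.coeff_C_mul, PowerSeries.coeff_X,
      PowerSeries.coeff_one]
    by_cases h1 : m = 1
    · subst h1; simp
    · by_cases h0 : m = 0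
      · subst h0; simp
      · simp [h1, h0]
  have hstep : ∀ i, v i * gA (lin c) (monomial (Finsupp.single i 1) 1) = gA (lin c) 1 := by
    intro i
    have h := lin_step c 0 i
    have h0 : (monomial (0 : Fin n →₀ ℕ) (1 : ℂ)) = 1 := rfl
    have h1 : PowerSeries.C (1 : ℂ) = 1 := map_one _
    rw [zero_add, Finsupp.zero_apply, Nat.cast_zero, zero_add, h0, h1, one_mul] at h
    rw [← hv', h]
  have key : ∀ s : Finset (Fin n), th (∏ i ∈ s, v i) * gA (lin c) 1 =
      -(PowerSeries.X * ∑ i ∈ s, PowerSeries.C (c i) * ((∏ j ∈ s, v j) *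
        gA (lin c) (monomial (Finsupp.single i 1) 1))) := by
    intro s
    induction s using Finset.induction_on with
    | empty =>
      rw [Finset.prod_empty, Finset.sum_empty, mul_zero, neg_zero]
      have : th (1 : PowerSeries ℂ) = 0 := by
        have := th_C (1 : ℂ)
        rwa [map_one] at this
      rw [this, zero_mul]
    | insert a s ha ih =>
      rw [Finset.prod_insert ha, Finset.sum_insert ha, th_mul, add_mul, mul_assoc (v a), ih, hthv,
        mul_add, neg_add]
      congr 1
      · rw [← hstep a]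
        ring
      · rw [mul_neg, ← mul_assoc, mul_comm (v a), mul_assoc, Finset.mul_sum]
        congr 2
        refine Finset.sum_congr rfl fun i _ => ?_
        ring
  have hlin : gA (lin c) (lin c) = ∑ i, PowerSeries.C (c i) *
      gA (lin c) (monomial (Finsupp.single i 1) 1) := by
    conv_lhs => rw [show gA (lin c) (lin c) = gA (lin c) (∑ i, C (c i) * X i) from rfl]
    rw [gA_sum]
    exact Finset.sum_congr rfl fun i _ => by rw [gA_C_mul]; rfl
  have h1 : th ((∏ i, v i) * gA (lin c) 1) = 0 := by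
    rw [th_mul, gA_a2, mul_one, key, hlin, neg_add_eq_zero,
      mul_left_comm (∏ i, v i) PowerSeries.X]
    congr 1
    rw [Finset.mul_sum]
    refine Finset.sum_congr rfl fun i _ => ?_
    ring
  have h2 : ∏ i, (1 - PowerSeries.C (c i) * PowerSeries.X) = ∏ i, v i :=
    Finset.prod_congr rfl fun i _ => hv' i
  rw [h2]
  ext m
  by_cases hm : m = 0
  · subst hm
    have h4 : PowerSeries.coeff 0 (gA (lin c) (1 : MvPolynomial (Fin n) ℂ)) = 1 := by
      rw [gA_zero_coeff]
      have h5 : (1 : MvPolynomial (Fin n) ℂ) = monomial 0 1 := rfl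
      rw [h5, Lf_monomial]
      simp [fac]
    rw [PowerSeries.coeff_zero_eq_constantCoeff] at h4 ⊢
    rw [map_mul, h4, mul_one, map_one, map_prod]
    refine Finset.prod_eq_one fun i _ => ?_
    rw [← hv', map_sub, map_one, map_mul, PowerSeries.constantCoeff_X, mul_zero, sub_zero]
  · have h3 := congrArg (PowerSeries.coeff m) h1
    rw [coeff_th, map_zero] at h3
    rcases mul_eq_zero.1 h3 with h4 | h4
    · exact absurd (Nat.cast_eq_zero.1 h4) hm
    · rw [h4, PowerSeries.coeff_one, if_neg hm]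

end Pool.Agent.Helper91.FC
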