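import Mathlib
import Pool.Agent.Helper91.FC.Gen

/-! Integrality and smallness of the generating function. -/

set_option autoImplicit false

namespace Pool.Agent.Helper91.FC

open MvPolynomial
open Pool.Agent.Helper81.FC (fac Lf fac_add_single X_mul_monomial pderiv_X_mul_monomial)

variable {n : ℕ}

/-- all coefficients lie in `p^e R` -/
def SmS (R : Subalgebra ℤ ℂ) (p e : ℕ) (G : PowerSeries ℂ) : Prop :=
  ∀ m, Sm R p e (PowerSeries.coeff m G)

/-- the geometric series -/
noncomputable def geo {S : Type*} [CommRing S] (c : S) : PowerSeries S := PowerSeries.mk fun m => c ^ m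

lemma geo_mul {S : Type*} [CommRing S] (c : S) :
    (1 - PowerSeries.C c * PowerSeries.X) * geo c = 1 := by
  ext m
  rw [sub_mul, one_mul, mul_assoc, map_sub, PowerSeries.coeff_C_mul]
  cases m with
  | zero => rw [PowerSeries.coeff_zero_X_mul, geo, PowerSeries.coeff_mk]; simp
  | succ m =>
    rw [PowerSeries.coeff_succ_X_mul, geo, PowerSeries.coeff_mk, PowerSeries.coeff_mk, pow_succ,
      PowerSeries.coeff_one, if_neg (Nat.succ_ne_zero m)]
    ring

/-- the product of geometric series -/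
noncomputable def YY {S : Type*} [CommRing S] (c : Fin n → S) (q : Fin n →₀ ℕ) : PowerSeries S :=
  ∏ i, geo (c i) ^ (q i + 1)

lemma gA_lin (c : Fin n → ℂ) (q : Fin n →₀ ℕ) :
    gA (lin c) (monomial q 1) = PowerSeries.C (fac q) * YY c q := by
  have h1 : (∏ i, (1 - PowerSeries.C (c i) * PowerSeries.X) ^ (q i + 1)) *
      gA (lin c) (monomial q 1) = PowerSeries.C (fac q) := by
    have e : (∏ i, (1 - PowerSeries.C (c i) * PowerSeries.X) ^ (q i + 1)) =
        (∏ i, (1 - PowerSeries.C (c i) * PowerSeries.X)) *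
        ∏ i, (1 - PowerSeries.C (c i) * PowerSeries.X) ^ (q i) := by
      rw [← Finset.prod_mul_distrib]
      exact Finset.prod_congr rfl fun i _ => pow_succ' _ _
    rw [e, mul_assoc, lin_q, mul_left_comm, lin_one, mul_one]
  have h2 : YY c q * (∏ i, (1 - PowerSeries.C (c i) * PowerSeries.X) ^ (q i + 1)) = 1 := by
    unfold YY
    rw [← Finset.prod_mul_distrib]
    refine Finset.prod_eq_one fun i _ => ?_
    rw [← mul_pow, mul_comm, geo_mul, one_pow]
  calc gA (lin c) (monomial q 1) = (YY c q *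
        (∏ i, (1 - PowerSeries.C (c i) * PowerSeries.X) ^ (q i + 1))) *
        gA (lin c) (monomial q 1) := by rw [h2, one_mul]
    _ = YY c q * ((∏ i, (1 - PowerSeries.C (c i) * PowerSeries.X) ^ (q i + 1)) *
        gA (lin c) (monomial q 1)) := mul_assoc _ _ _
    _ = PowerSeries.C (fac q) * YY c q := by rw [h1, mul_comm]

/-- the coefficients of the expansion -/
noncomputable def kap (g : MvPolynomial (Fin n) ℂ) (j : ℕ) (b k : Fin n →₀ ℕ) : ℂ :=
  coeff b (g ^ j) / (j.factorial : ℂ) * fac (k + b)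

lemma gA_expand (c : Fin n → ℂ) (g : MvPolynomial (Fin n) ℂ) (k : Fin n →₀ ℕ) (m : ℕ) :
    PowerSeries.coeff m (gA (g + lin c) (monomial k 1)) =
      ∑ x ∈ Finset.HasAntidiagonal.antidiagonal m, ∑ b ∈ (g ^ x.1).support,
        kap g x.1 b k * PowerSeries.coeff x.2 (YY c (k + b)) := by
  rw [coeff_gA, (Commute.all g (lin c)).add_pow', Finset.mul_sum, map_sum, Finset.sum_div]
  refine Finset.sum_congr rfl fun x hx => ?_
  have hx' := Finset.HasAntidiagonal.mem_antidiagonal.1 hx
  have h1 : (m.factorial : ℂ) = (m.choose x.1 : ℂ) * ((x.1).factorial : ℂ) *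
      ((x.2).factorial : ℂ) := by
    have := Nat.add_choose_mul_factorial_mul_factorial x.1 x.2
    rw [hx', ← Nat.choose_symm (by omega : x.2 ≤ m)] at this
    have h2 : m - x.2 = x.1 := by omega
    rw [h2] at this
    rw [← this]
    push_cast
    ring
  have hc0 : (m.choose x.1 : ℂ) ≠ 0 :=
    Nat.cast_ne_zero.2 (Nat.choose_pos (by omega : x.1 ≤ m)).ne'
  have h3 : ((x.1).factorial : ℂ) ≠ 0 := Nat.cast_ne_zero.2 (Nat.factorial_ne_zero _)
  have h4 : ((x.2).factorial : ℂ) ≠ 0 := Nat.cast_ne_zero.2 (Nat.factorial_ne_zero _)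
  have h5 : monomial k (1 : ℂ) * (m.choose x.1 • (g ^ x.1 * lin c ^ x.2)) =
      ∑ b ∈ (g ^ x.1).support, C ((m.choose x.1 : ℂ) * coeff b (g ^ x.1)) *
        (monomial (k + b) 1 * lin c ^ x.2) := by
    conv_lhs => rw [(g ^ x.1).as_sum]
    rw [nsmul_eq_mul, Finset.sum_mul, Finset.mul_sum, Finset.mul_sum]
    refine Finset.sum_congr rfl fun b _ => ?_
    have e1 : (monomial b (coeff b (g ^ x.1)) : MvPolynomial (Fin n) ℂ) =
        C (coeff b (g ^ x.1)) * monomial b 1 := by rw [C_mul_monomial, mul_one]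
    have e2 : (monomial (k + b) (1 : ℂ) : MvPolynomial (Fin n) ℂ) =
        monomial k 1 * monomial b 1 := by rw [monomial_mul, one_mul]
    rw [e1, e2, map_mul, map_natCast]
    ring
  rw [h5, map_sum, Finset.sum_div]
  refine Finset.sum_congr rfl fun b _ => ?_
  have h6 := congrArg (PowerSeries.coeff x.2) (gA_lin c (k + b))
  rw [coeff_gA, PowerSeries.coeff_C_mul] at h6
  rw [← smul_eq_C_mul, map_smul, smul_eq_mul, kap, mul_assoc, mul_assoc, ← h6, h1]
  field_simp

lemma kap_sm {R : Subalgebra ℤ ℂ} {p : ℕ} {g : MvPolynomial (Fin n) ℂ} {e j : ℕ}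
    (h : ∀ b, Sm R p e (coeff b (g ^ j) * fac b / (j.factorial : ℂ))) (b k : Fin n →₀ ℕ) :
    Sm R p e (kap g j b k) := by
  have h1 : kap g j b k = (((∏ i, (k i + b i).choose (b i) : ℕ) : ℂ) * fac k) *
      (coeff b (g ^ j) * fac b / (j.factorial : ℂ)) := by
    unfold kap
    rw [fac_add]
    ring
  rw [h1]
  refine (h b).mul_mem (R.mul_mem (natCast_mem _) ?_)
  have h2 : fac k = ((∏ i, (k i).factorial : ℕ) : ℂ) := by
    unfold fac
    push_cast
    rfl
  rw [h2]
  exact natCast_mem _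

lemma kap_sm' {R : Subalgebra ℤ ℂ} {p : ℕ} (hp : 1 ≤ p) {g : MvPolynomial (Fin n) ℂ} {e j : ℕ}
    (h : ∀ b, Sm R p 0 (coeff b (g ^ j) * fac b / (j.factorial : ℂ))) (b k : Fin n →₀ ℕ)
    (i : Fin n) (hi : e * p ≤ k i) : Sm R p e (kap g j b k) := by
  have h1 : kap g j b k = (((∏ i, (k i + b i).choose (b i) : ℕ) : ℂ)) *
      (fac k * (coeff b (g ^ j) * fac b / (j.factorial : ℂ))) := by
    unfold kap
    rw [fac_add]
    ring
  rw [h1]
  refine Sm.mul_mem ?_ (natCast_mem _)
  have h2 : fac k = ((∏ i, (k i).factorial : ℕ) : ℂ) := by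
    unfold fac
    push_cast
    rfl
  have h3 : p ^ e ∣ ∏ i, (k i).factorial :=
    (pow_dvd_factorial p e (k i) hp hi).trans (Finset.dvd_prod_of_mem _ (Finset.mem_univ i))
  have h4 := (Sm_nat (R := R) h3).mul (h b)
  rw [add_zero] at h4
  rwa [h2]

lemma YY_map {S S' : Type*} [CommRing S] [CommRing S'] (φ : S →+* S') (c : Fin n → S)
    (q : Fin n →₀ ℕ) : PowerSeries.map φ (YY c q) = YY (fun i => φ (c i)) q := by
  unfold YY
  rw [map_prod]
  refine Finset.prod_congr rfl fun i _ => ?_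
  rw [map_pow]
  congr 1
  ext m
  rw [PowerSeries.coeff_map, geo, geo, PowerSeries.coeff_mk, PowerSeries.coeff_mk, map_pow]

lemma YY_mem (R : Subalgebra ℤ ℂ) (c : Fin n → ℂ) (hc : ∀ i, c i ∈ R) (q : Fin n →₀ ℕ) (m : ℕ) :
    PowerSeries.coeff m (YY c q) ∈ R := by
  have h := YY_map (algebraMap R ℂ) (fun i => (⟨c i, hc i⟩ : R)) q
  have h2 : (fun i => (algebraMap R ℂ) (⟨c i, hc i⟩ : R)) = c := rfl
  rw [h2] at h
  rw [← h, PowerSeries.coeff_map]
  exact (PowerSeries.coeff m (YY (fun i => (⟨c i, hc i⟩ : R)) q)).2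

/-! ### polynomials killing the geometric series -/

section

variable {S : Type*} [CommRing S]

/-- one factor -/
noncomputable def fe (r : ℕ) (c : S) : Polynomial S := 1 - Polynomial.C (c ^ r) * Polynomial.X ^ r

/-- the product of the factors -/
noncomputable def EE (r : ℕ) (c : Fin n → S) : Polynomial S := ∏ i, fe r (c i)

lemma fe_factor (r : ℕ) (c : S) : (1 - Polynomial.C c * Polynomial.X) *
    (∑ t ∈ Finset.range r, (Polynomial.C c * Polynomial.X) ^ t) = fe r c := by
  rw [mul_neg_geom_sum, fe, mul_pow, map_pow]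

lemma fe_geo (r : ℕ) (c : S) (K a : ℕ) (h : a ≤ K) : ∃ Q : Polynomial S,
    (Q : PowerSeries S) = ((fe r c ^ K : Polynomial S) : PowerSeries S) * geo c ^ a ∧
    Q * (1 - Polynomial.C c * Polynomial.X) ^ a = fe r c ^ K := by
  obtain ⟨b, rfl⟩ := Nat.exists_eq_add_of_le h
  refine ⟨(∑ t ∈ Finset.range r, (Polynomial.C c * Polynomial.X) ^ t) ^ a * fe r c ^ b, ?_, ?_⟩
  · have h1 : (((fe r c) ^ a : Polynomial S) : PowerSeries S) * geo c ^ a =
        (((∑ t ∈ Finset.range r, (Polynomial.C c * Polynomial.X) ^ t) ^ a : Polynomial S) :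
          PowerSeries S) := by
      rw [← fe_factor, mul_pow, Polynomial.coe_mul, Polynomial.coe_pow, Polynomial.coe_pow,
        mul_right_comm, ← mul_pow]
      have h2 : ((1 - Polynomial.C c * Polynomial.X : Polynomial S) : PowerSeries S) =
          1 - PowerSeries.C c * PowerSeries.X := by
        rw [Polynomial.coe_sub, Polynomial.coe_one, Polynomial.coe_mul, Polynomial.coe_C,
          Polynomial.coe_X]
      rw [h2, geo_mul, one_pow, one_mul]
    rw [pow_add, Polynomial.coe_mul, ← h1, Polynomial.coe_mul]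
    ring
  · rw [pow_add, mul_right_comm, ← mul_pow, mul_comm (Finset.sum _ _), fe_factor]

lemma coe_prod' {ι : Type*} (s : Finset ι) (Q : ι → Polynomial S) :
    ((∏ i ∈ s, Q i : Polynomial S) : PowerSeries S) = ∏ i ∈ s, (Q i : PowerSeries S) := by
  classical
  induction s using Finset.induction_on with
  | empty => rw [Finset.prod_empty, Finset.prod_empty, Polynomial.coe_one]
  | insert i s hi ih => rw [Finset.prod_insert hi, Finset.prod_insert hi, Polynomial.coe_mul, ih]

lemma EE_YY (r : ℕ) (c : Fin n → S) (K : ℕ) (q : Fin n →₀ ℕ) (h : ∀ i, q i + 1 ≤ K) :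
    ∃ Q : Polynomial S, (Q : PowerSeries S) =
      ((EE r c ^ K : Polynomial S) : PowerSeries S) * YY c q ∧ Q ∣ EE r c ^ K := by
  choose Q hQ1 hQ2 using fun i => fe_geo r (c i) K (q i + 1) (h i)
  refine ⟨∏ i, Q i, ?_, ⟨∏ i, (1 - Polynomial.C (c i) * Polynomial.X) ^ (q i + 1), ?_⟩⟩
  · have h1 : ((∏ i, Q i : Polynomial S) : PowerSeries S) = ∏ i, (Q i : PowerSeries S) := coe_prod' _ _
    have h2 : ((EE r c ^ K : Polynomial S) : PowerSeries S) =
        ∏ i, ((fe r (c i) ^ K : Polynomial S) : PowerSeries S) := by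
      unfold EE
      rw [← Finset.prod_pow]
      exact coe_prod' _ _
    rw [h1, h2, YY, ← Finset.prod_mul_distrib]
    exact Finset.prod_congr rfl fun i _ => hQ1 i
  · unfold EE
    rw [← Finset.prod_pow, ← Finset.prod_mul_distrib]
    exact Finset.prod_congr rfl fun i _ => (hQ2 i).symm

end

end Pool.Agent.Helper91.FC
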