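import Mathlib
import Pool.Agent.Helper91.FC.Lift

/-! Smallness of the coefficients of high index after multiplication by the denominators. -/

set_option autoImplicit false

namespace Pool.Agent.Helper91.FC

open MvPolynomial
open Pool.Agent.Helper81.FC (fac Lf fac_add_single X_mul_monomial pderiv_X_mul_monomial)

variable {n : ℕ}

section

variable {R : Subalgebra ℤ ℂ} {p : ℕ}

lemma SmS.mul {e : ℕ} {G H : PowerSeries ℂ} (hG : ∀ m, PowerSeries.coeff m G ∈ R)
    (hH : SmS R p e H) : SmS R p e (G * H) := by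
  intro m
  rw [PowerSeries.coeff_mul]
  exact Sm.sum _ _ fun x _ => (hH x.2).mul_mem (hG x.1)

lemma Sm.neg {e : ℕ} {x : ℂ} (hx : Sm R p e x) : Sm R p e (-x) := by
  obtain ⟨a, ha, rfl⟩ := hx
  exact ⟨-a, R.neg_mem ha, by ring⟩

lemma Sm.sub {e : ℕ} {x y : ℂ} (hx : Sm R p e x) (hy : Sm R p e y) : Sm R p e (x - y) := by
  rw [sub_eq_add_neg]
  exact hx.add hy.neg

/-- the main estimates -/
theorem gA_sm (hp : 1 ≤ p) (c : Fin n → ℂ) (hc : ∀ i, c i ∈ R) (g : MvPolynomial (Fin n) ℂ)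
    (J : ℕ → ℕ) (hJ0 : J 0 = 0)
    (hJ : ∀ e j, J e ≤ j → ∀ b, Sm R p e (coeff b (g ^ j) * fac b / (j.factorial : ℂ)))
    (e : ℕ) (k : Fin n →₀ ℕ) :
    (∀ m, PowerSeries.coeff m (gA (g + lin c) (monomial k 1)) ∈ R) ∧
    ((∃ i, e * p ≤ k i) → SmS R p e (gA (g + lin c) (monomial k 1))) ∧
    SmS R p e (gA (g + lin c) (monomial k 1) - ∑ j ∈ Finset.range (J e), PowerSeries.X ^ j *
      ∑ b ∈ (g ^ j).support, PowerSeries.C (kap g j b k) * YY c (k + b)) := by
  classical
  have h0 : ∀ j b, Sm R p 0 (coeff b (g ^ j) * fac b / (j.factorial : ℂ)) := fun j b =>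
    hJ 0 j (by rw [hJ0]; exact Nat.zero_le _) b
  refine ⟨fun m => ?_, fun ⟨i, hi⟩ m => ?_, fun m => ?_⟩
  · rw [gA_expand, ← Sm_zero_iff (p := p)]
    refine Sm.sum _ _ fun x _ => Sm.sum _ _ fun b _ => ?_
    rw [mul_comm]
    exact (kap_sm (h0 x.1) b k).mul_mem (YY_mem R c hc _ _)
  · rw [gA_expand]
    refine Sm.sum _ _ fun x _ => Sm.sum _ _ fun b _ => ?_
    rw [mul_comm]
    exact (kap_sm' hp (h0 x.1) b k i hi).mul_mem (YY_mem R c hc _ _)
  · rw [map_sub, gA_expand, map_sum]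
    have h1 : ∀ j, PowerSeries.coeff m (PowerSeries.X ^ j *
        ∑ b ∈ (g ^ j).support, PowerSeries.C (kap g j b k) * YY c (k + b)) =
        if j ≤ m then ∑ b ∈ (g ^ j).support, kap g j b k *
          PowerSeries.coeff (m - j) (YY c (k + b)) else 0 := by
      intro j
      rw [PowerSeries.coeff_X_pow_mul']
      split_ifs
      · rw [map_sum]
        exact Finset.sum_congr rfl fun b _ => PowerSeries.coeff_C_mul _ _ _
      · rfl
    rw [Finset.sum_congr rfl fun j _ => h1 j]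
    rw [Finset.Nat.sum_antidiagonal_eq_sum_range_succ_mk]
    have h2 : ∑ j ∈ Finset.range (J e), (if j ≤ m then ∑ b ∈ (g ^ j).support, kap g j b k *
          PowerSeries.coeff (m - j) (YY c (k + b)) else 0) =
        ∑ j ∈ Finset.range (m + 1), (if j < J e then ∑ b ∈ (g ^ j).support, kap g j b k *
          PowerSeries.coeff (m - j) (YY c (k + b)) else 0) := by
      rw [← Finset.sum_filter, ← Finset.sum_filter]
      refine Finset.sum_congr ?_ fun _ _ => rfl
      ext j
      simp only [Finset.mem_filter, Finset.mem_range]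
      omega
    rw [h2, ← Finset.sum_sub_distrib]
    refine Sm.sum _ _ fun j _ => ?_
    split_ifs with h3
    · rw [sub_self]
      exact Sm.zero e
    · rw [sub_zero]
      refine Sm.sum _ _ fun b _ => ?_
      rw [mul_comm]
      exact (kap_sm (hJ e j (not_lt.1 h3)) b k).mul_mem (YY_mem R c hc _ _)

end

end Pool.Agent.Helper91.FC
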