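import Mathlib
import Pool.Agent.Helper91.FC.Tail
import Pool.Agent.Helper91.FC.Fin

/-! Construction of the data for a polynomial without constant term. -/

set_option autoImplicit false

namespace Pool.Agent.Helper91.FC

open MvPolynomial
open Pool.Agent.Helper81.FC (fac Lf fac_add_single X_mul_monomial pderiv_X_mul_monomial)

variable {n : ℕ}

/-- powers of the ideal generated by `p` -/
noncomputable def II (R : Subalgebra ℤ ℂ) (p e : ℕ) : Ideal R := Ideal.span {(p : R)} ^ e

lemma mem_II {R : Subalgebra ℤ ℂ} {p e : ℕ} (x : R) : x ∈ II R p e ↔ Sm R p e (x : ℂ) := by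
  unfold II
  rw [Ideal.span_singleton_pow, Ideal.mem_span_singleton]
  constructor
  · rintro ⟨y, rfl⟩
    exact ⟨y, y.2, by push_cast; rfl⟩
  · rintro ⟨y, hy, h⟩
    refine ⟨⟨y, hy⟩, Subtype.ext ?_⟩
    rw [h]
    push_cast
    rfl

lemma red_zero {R : Subalgebra ℤ ℂ} {p e : ℕ} (G : PowerSeries R) (m : ℕ)
    (h : Sm R p e (PowerSeries.coeff m (PowerSeries.map (algebraMap R ℂ) G))) :
    PowerSeries.coeff m (red (II R p) e G) = 0 := by
  rw [PowerSeries.coeff_map] at h ⊢
  exact Ideal.Quotient.eq_zero_iff_mem.2 ((mem_II _).2 h)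

lemma map_th {S S' : Type*} [CommRing S] [CommRing S'] (φ : S →+* S') (s : PowerSeries S) :
    PowerSeries.map φ (th s) = th (PowerSeries.map φ s) := by
  ext m
  rw [PowerSeries.coeff_map, coeff_th, coeff_th, PowerSeries.coeff_map, map_mul, map_natCast]

lemma th_pow {S : Type*} [CommRing S] (G : PowerSeries S) (K : ℕ) :
    th (G ^ K) = (K : PowerSeries S) * (G ^ (K - 1) * th G) := by
  unfold th
  rw [Derivation.leibniz_pow, nsmul_eq_mul, smul_eq_mul]
  ring

lemma lc_fe {S : Type*} [CommRing S] [IsDomain S] (r : ℕ) (hr : 1 ≤ r) (c : S)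
    (hc : c = 0 ∨ IsUnit c) : IsUnit (fe r c).leadingCoeff := by
  rcases hc with rfl | hc
  · unfold fe
    rw [zero_pow (by omega), map_zero, zero_mul, sub_zero, Polynomial.leadingCoeff_one]
    exact isUnit_one
  · have h0 : c ^ r ≠ 0 := pow_ne_zero _ hc.ne_zero
    unfold fe
    rw [Polynomial.leadingCoeff_sub_of_degree_lt', Polynomial.leadingCoeff_C_mul_X_pow]
    · exact (hc.pow r).neg
    · rw [Polynomial.degree_one, Polynomial.degree_C_mul_X_pow _ h0]
      exact_mod_cast hr

lemma lc_EE {S : Type*} [CommRing S] [IsDomain S] (r : ℕ) (hr : 1 ≤ r) (c : Fin n → S)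
    (hc : ∀ i, c i = 0 ∨ IsUnit (c i)) (K : ℕ) : IsUnit (EE r c ^ K).leadingCoeff := by
  unfold EE
  rw [Polynomial.leadingCoeff_pow, Polynomial.leadingCoeff_prod]
  refine IsUnit.pow _ ?_
  rw [IsUnit.prod_univ_iff]
  exact fun i => lc_fe r hr _ (hc i)

lemma rescale_fe {S : Type*} [CommRing S] (r : ℕ) (c ω : S) (hω : ω ^ r = 1) :
    PowerSeries.rescale ω (fe r c : PowerSeries S) = (fe r c : PowerSeries S) := by
  ext m
  rw [PowerSeries.coeff_rescale, Polynomial.coeff_coe]
  unfold fe
  rw [Polynomial.coeff_sub, Polynomial.coeff_C_mul_X_pow, Polynomial.coeff_one]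
  by_cases h0 : m = 0
  · subst h0
    rw [pow_zero, one_mul]
  · rw [if_neg (Ne.symm (Ne.symm h0))]
    by_cases h1 : m = r
    · rw [if_pos h1, h1, hω, one_mul]
    · rw [if_neg h1, sub_zero, mul_zero]

lemma rescale_EE {S : Type*} [CommRing S] (r : ℕ) (c : Fin n → S) (K : ℕ) (ω : S)
    (hω : ω ^ r = 1) :
    PowerSeries.rescale ω ((EE r c ^ K : Polynomial S) : PowerSeries S) =
      ((EE r c ^ K : Polynomial S) : PowerSeries S) := by
  rw [Polynomial.coe_pow, map_pow]
  unfold EE
  rw [coe_prod', map_prod]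
  congr 1
  exact Finset.prod_congr rfl fun i _ => rescale_fe r _ ω hω

section

variable (R : Subalgebra ℤ ℂ)

/-- the generating function over `R` -/
noncomputable def liftA (F : MvPolynomial (Fin n) ℂ)
    (h : ∀ (P : MvPolynomial (Fin n) R) (m : ℕ),
      PowerSeries.coeff m (gA F (map (algebraMap R ℂ) P)) ∈ R) :
    MvPolynomial (Fin n) R →+ PowerSeries R where
  toFun P := PowerSeries.mk fun m => ⟨PowerSeries.coeff m (gA F (map (algebraMap R ℂ) P)), h P m⟩
  map_zero' := by
    ext m
    rw [PowerSeries.coeff_mk]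
    show PowerSeries.coeff m (gA F (map (algebraMap R ℂ) 0)) = _
    rw [map_zero, gA_zero, map_zero, map_zero]
    rfl
  map_add' := by
    intro P Q
    ext m
    rw [LinearMap.map_add, PowerSeries.coeff_mk, PowerSeries.coeff_mk, PowerSeries.coeff_mk]
    show PowerSeries.coeff m (gA F (map (algebraMap R ℂ) (P + Q))) =
      PowerSeries.coeff m (gA F (map (algebraMap R ℂ) P)) +
        PowerSeries.coeff m (gA F (map (algebraMap R ℂ) Q))
    rw [map_add, gA_add, map_add]

lemma map_liftA (F : MvPolynomial (Fin n) ℂ)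
    (h : ∀ (P : MvPolynomial (Fin n) R) (m : ℕ),
      PowerSeries.coeff m (gA F (map (algebraMap R ℂ) P)) ∈ R) (P : MvPolynomial (Fin n) R) :
    PowerSeries.map (algebraMap R ℂ) (liftA R F h P) = gA F (map (algebraMap R ℂ) P) := by
  ext m
  rw [PowerSeries.coeff_map]
  show algebraMap R ℂ (PowerSeries.coeff m (PowerSeries.mk _)) = _
  rw [PowerSeries.coeff_mk]
  rfl

lemma map_inj {G H : PowerSeries R} (h : PowerSeries.map (algebraMap R ℂ) G =
    PowerSeries.map (algebraMap R ℂ) H) : G = H := by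
  ext m
  have h1 := congrArg (PowerSeries.coeff m) h
  rw [PowerSeries.coeff_map, PowerSeries.coeff_map] at h1
  exact h1

end

lemma coeff_lin (c : Fin n → ℂ) (l : Fin n →₀ ℕ) :
    coeff l (lin c) = ∑ i, c i * (if Finsupp.single i 1 = l then 1 else 0) := by
  classical
  unfold lin
  rw [coeff_sum]
  exact Finset.sum_congr rfl fun i _ => by rw [coeff_C_mul, coeff_X]

lemma lin_split (F : MvPolynomial (Fin n) ℂ) (h0 : coeff 0 F = 0) (l : Fin n →₀ ℕ)
    (hl : l ∈ (F - lin fun i => coeff (Finsupp.single i 1) F).support) : 2 ≤ ∑ i, l i := by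
  classical
  rw [mem_support_iff] at hl
  by_contra hcon
  apply hl
  rw [coeff_sub, coeff_lin, sub_eq_zero]
  rcases Nat.eq_zero_or_pos (∑ i, l i) with h | h
  · have h1 : l = 0 := by
      ext i
      exact (Finset.sum_eq_zero_iff.1 h) i (Finset.mem_univ i)
    rw [h1, h0]
    symm
    refine Finset.sum_eq_zero fun i _ => ?_
    rw [if_neg, mul_zero]
    intro h2
    have := DFunLike.congr_fun h2 i
    simp at this
  · obtain ⟨i, hi⟩ : ∃ i, 1 ≤ l i := by
      by_contra hc
      push Not at hc
      rw [Finset.sum_eq_zero fun i _ => by have := hc i; omega] at h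
      omega
    have h1 : l = Finsupp.single i 1 := by
      ext j
      rw [Finsupp.single_apply]
      have h2 : ∑ j, l j = l i + ∑ j ∈ Finset.univ.erase i, l j :=
        (Finset.add_sum_erase _ _ (Finset.mem_univ i)).symm
      split_ifs with h3
      · rw [← h3]; omega
      · have h4 : l j ≤ ∑ j ∈ Finset.univ.erase i, l j :=
          Finset.single_le_sum (f := fun j => l j) (fun _ _ => Nat.zero_le _)
            (Finset.mem_erase.2 ⟨Ne.symm h3, Finset.mem_univ j⟩)
        omega
    rw [h1, Finset.sum_eq_single i]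
    · rw [if_pos rfl, mul_one]
    · intro j _ hj
      rw [if_neg, mul_zero]
      intro h2
      exact hj (Finsupp.single_left_injective one_ne_zero h2)
    · intro h2
      exact absurd (Finset.mem_univ i) h2

theorem exists_ari (R : Subalgebra ℤ ℂ) (p : ℕ) (hp : 1 ≤ p) (f : MvPolynomial (Fin n) R)
    (hf0 : coeff 0 f = 0) (r : ℕ) (hr : 1 ≤ r) (m₁ : ℕ)
    (hunit : ∀ i : Fin n, coeff (Finsupp.single i 1) f = 0 ∨ IsUnit (coeff (Finsupp.single i 1) f)) :
    ∃ (D : ℕ → PowerSeries R) (T : ℕ → ℕ) (K : ℕ → Finset (Fin n →₀ ℕ)) (d : ℕ → ℕ)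
      (a : Ari n (II R p) D T K), a.f = f ∧
      (∀ P, PowerSeries.map (algebraMap R ℂ) (a.A P) =
        gA (map (algebraMap R ℂ) f) (map (algebraMap R ℂ) P)) ∧
      (∀ e, red (II R p) e (th (D e)) = 0) ∧ (∀ e, d e + m₁ + 1 ≤ T e) ∧
      (∀ e m, d e < m → PowerSeries.coeff m (red (II R p) e (D e)) = 0) ∧
      (∀ e, IsUnit (PowerSeries.coeff (d e) (D e))) ∧
      (∀ ω : R, ω ^ r = 1 → ∀ e, PowerSeries.rescale ω (D e) = D e) := by
  classical
  obtain ⟨F, hF⟩ : ∃ F, F = map (algebraMap R ℂ) f := ⟨_, rfl⟩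
  let cR : Fin n → R := fun i => coeff (Finsupp.single i 1) f
  let c : Fin n → ℂ := fun i => (cR i : ℂ)
  have hcc : c = fun i => coeff (Finsupp.single i 1) F := by
    funext i
    rw [hF, coeff_map]
    rfl
  let g : MvPolynomial (Fin n) ℂ := F - lin c
  have hFg : F = g + lin c := (sub_add_cancel _ _).symm
  have hc : ∀ i, c i ∈ R := fun i => (cR i).2
  have hF0 : coeff 0 F = 0 := by rw [hF, coeff_map, hf0, map_zero]
  have hgo : ∀ l ∈ g.support, 2 ≤ ∑ i, l i := by
    intro l hl
    refine lin_split F hF0 l ?_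
    rw [← hcc]
    exact hl
  have hgR : ∀ l, coeff l g ∈ R := by
    intro l
    show coeff l (F - lin c) ∈ R
    rw [coeff_sub, coeff_lin]
    refine R.sub_mem ?_ (R.sum_mem fun i _ => R.mul_mem (hc i) ?_)
    · rw [hF, coeff_map]
      exact (coeff l f).2
    · split_ifs
      · exact R.one_mem
      · exact R.zero_mem
  obtain ⟨J, hJ0, hJ⟩ := DP_of_order R p hp g hgo hgR
  have hsm := gA_sm (R := R) (p := p) hp c hc g J hJ0 hJ
  rw [← hFg] at hsm
  have hPsum : ∀ P : MvPolynomial (Fin n) R, gA F (map (algebraMap R ℂ) P) =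
      ∑ s ∈ P.support, PowerSeries.C ((coeff s P : R) : ℂ) * gA F (monomial s 1) := by
    intro P
    conv_lhs => rw [P.as_sum]
    rw [map_sum, gA_sum]
    refine Finset.sum_congr rfl fun s _ => ?_
    rw [map_monomial, ← gA_C_mul, C_mul_monomial, mul_one]
    rfl
  have hint : ∀ (P : MvPolynomial (Fin n) R) (m : ℕ),
      PowerSeries.coeff m (gA F (map (algebraMap R ℂ) P)) ∈ R := by
    intro P m
    rw [hPsum, map_sum]
    refine R.sum_mem fun s _ => ?_
    rw [PowerSeries.coeff_C_mul]
    exact R.mul_mem (coeff s P).2 ((hsm 0 s).1 m)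
  let bd : ℕ → ℕ := fun e => e * p + (∑ j ∈ Finset.range (J e), ∑ b ∈ (g ^ j).support, ∑ i, b i) + 1
  let Ke : ℕ → ℕ := fun e => p ^ e * bd e
  let De : ℕ → Polynomial R := fun e => EE r cR ^ (Ke e)
  let D : ℕ → PowerSeries R := fun e => (De e : PowerSeries R)
  let d : ℕ → ℕ := fun e => (De e).natDegree
  let T : ℕ → ℕ := fun e => J e + d e + m₁ + 2
  let K : ℕ → Finset (Fin n →₀ ℕ) := fun e =>
    Finset.Iic (Finsupp.equivFunOnFinite.symm fun _ => e * p)
  have hKe : ∀ e, ∀ k ∈ K e, ∀ j < J e, ∀ b ∈ (g ^ j).support, ∀ i, (k + b) i + 1 ≤ Ke e := by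
    intro e k hk j hj b hb i
    have h1 : k i ≤ e * p := (Finset.mem_Iic.1 hk) i
    have h2 : b i ≤ ∑ j ∈ Finset.range (J e), ∑ b ∈ (g ^ j).support, ∑ i, b i := by
      calc b i ≤ ∑ i, b i := Finset.single_le_sum (f := fun i => b i) (fun _ _ => Nat.zero_le _)
            (Finset.mem_univ i)
        _ ≤ ∑ b ∈ (g ^ j).support, ∑ i, b i := Finset.single_le_sum
            (f := fun b : Fin n →₀ ℕ => ∑ i, b i) (fun _ _ => Nat.zero_le _) hb
        _ ≤ _ := Finset.single_le_sum (f := fun j => ∑ b ∈ (g ^ j).support, ∑ i, b i)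
            (fun _ _ => Nat.zero_le _) (Finset.mem_range.2 hj)
    have h3 : bd e ≤ Ke e := Nat.le_mul_of_pos_left _ (Nat.pow_pos hp)
    have h4 : (k + b) i = k i + b i := rfl
    have h5 : e * p + (∑ j ∈ Finset.range (J e), ∑ b ∈ (g ^ j).support, ∑ i, b i) + 1 ≤ Ke e := h3
    omega
  have hDC : ∀ e m, PowerSeries.coeff m (PowerSeries.map (algebraMap R ℂ) (D e)) ∈ R := by
    intro e m
    rw [PowerSeries.coeff_map]
    exact (PowerSeries.coeff m (D e)).2
  have hout : ∀ e k, k ∉ K e → SmS R p e (gA F (monomial k 1)) := by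
    intro e k hk
    refine (hsm e k).2.1 ?_
    by_contra hcon
    push Not at hcon
    exact hk (Finset.mem_Iic.2 fun i => (hcon i).le)
  have hmono : ∀ e k m, T e ≤ m → Sm R p e (PowerSeries.coeff m
      (PowerSeries.map (algebraMap R ℂ) (D e) * gA F (monomial k 1))) := by
    intro e k m hm
    by_cases hk : k ∈ K e
    · obtain ⟨G1, hG1⟩ : ∃ G1, G1 = ∑ j ∈ Finset.range (J e), (PowerSeries.X : PowerSeries ℂ) ^ j *
        ∑ b ∈ (g ^ j).support, PowerSeries.C (kap g j b k) * YY c (k + b) := ⟨_, rfl⟩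
      have h1 := (hsm e k).2.2
      rw [← hG1] at h1
      have h2 : PowerSeries.map (algebraMap R ℂ) (D e) * gA F (monomial k 1) =
          PowerSeries.map (algebraMap R ℂ) (D e) * (gA F (monomial k 1) - G1) +
          PowerSeries.map (algebraMap R ℂ) (D e) * G1 := by ring
      rw [h2, map_add]
      have h3 : PowerSeries.coeff m (PowerSeries.map (algebraMap R ℂ) (D e) * G1) = 0 := by
        rw [hG1, Finset.mul_sum, map_sum]
        refine Finset.sum_eq_zero fun j hj => ?_
        rw [mul_left_comm, PowerSeries.coeff_X_pow_mul']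
        split_ifs with hjm
        · rw [Finset.mul_sum, map_sum]
          refine Finset.sum_eq_zero fun b hb => ?_
          obtain ⟨Q, hQ1, hQ2⟩ := EE_YY r cR (Ke e) (k + b)
            (fun i => hKe e k hk j (Finset.mem_range.1 hj) b hb i)
          have h4 : PowerSeries.map (algebraMap R ℂ) (D e) * YY c (k + b) =
              PowerSeries.map (algebraMap R ℂ) (Q : PowerSeries R) := by
            rw [hQ1, map_mul, YY_map]
            rfl
          rw [mul_left_comm, PowerSeries.coeff_C_mul, h4, PowerSeries.coeff_map,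
            Polynomial.coeff_coe]
          have hne : EE r cR ^ (Ke e) ≠ 0 := by
            intro h0
            have h5 := lc_EE r hr cR hunit (Ke e)
            rw [h0, Polynomial.leadingCoeff_zero] at h5
            exact h5.ne_zero rfl
          have h5 : Q.natDegree ≤ d e := Polynomial.natDegree_le_of_dvd hQ2 hne
          have h6 : J e + d e + m₁ + 2 ≤ m := hm
          have h7 := Finset.mem_range.1 hj
          rw [Polynomial.coeff_eq_zero_of_natDegree_lt (by omega), map_zero, mul_zero]
        · rfl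
      rw [h3, add_zero]
      exact SmS.mul (hDC e) h1 m
    · exact SmS.mul (hDC e) (hout e k hk) m
  let A := liftA R F hint
  have hA : ∀ P, PowerSeries.map (algebraMap R ℂ) (A P) = gA F (map (algebraMap R ℂ) P) :=
    map_liftA R F hint
  let a : Ari n (II R p) D T K := {
    f := f
    A := A
    hA := by
      intro c P
      apply map_inj
      rw [hA, map_mul, map_C, gA_C_mul, map_mul, hA, PowerSeries.map_C]
    a1 := by
      intro i P
      apply map_inj
      have e1 : PowerSeries.map (algebraMap R ℂ) (PowerSeries.X * A (X i * pderiv i f * P)) =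
          PowerSeries.X * PowerSeries.map (algebraMap R ℂ) (A (X i * pderiv i f * P)) := by
        rw [RingHom.map_mul, PowerSeries.map_X]
      have e2 : map (algebraMap R ℂ) (X i * P) = X i * map (algebraMap R ℂ) P := by
        rw [RingHom.map_mul, map_X]
      have e3 : map (algebraMap R ℂ) (pderiv i (X i * P)) =
          pderiv i (X i * map (algebraMap R ℂ) P) := by
        rw [← e2, pderiv_map]
      have e4 : map (algebraMap R ℂ) (X i * pderiv i f * P) =
          X i * pderiv i F * map (algebraMap R ℂ) P := by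
        rw [RingHom.map_mul, RingHom.map_mul, map_X, hF, pderiv_map]
      rw [RingHom.map_add, e1, hA, hA, hA, e2, e3, e4]
      exact gA_a1 F i _
    a2 := by
      intro P
      apply map_inj
      rw [map_th, map_mul, PowerSeries.map_X, hA, hA, map_mul, ← hF]
      exact gA_a2 F _
    d2 := by
      intro e P m hm
      apply red_zero
      rw [map_mul, hA, hPsum, Finset.mul_sum, map_sum]
      refine Sm.sum _ _ fun s _ => ?_
      rw [mul_left_comm, PowerSeries.coeff_C_mul]
      exact (hmono e s m hm).mul_mem (coeff s P).2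
    d3 := by
      intro e k hk
      ext m
      rw [map_zero]
      apply red_zero
      rw [map_mul, hA, map_monomial, map_one]
      exact SmS.mul (hDC e) (hout e k hk) m }
  refine ⟨D, T, K, d, a, rfl, fun P => by rw [← hF]; exact hA P, fun e => ?_, fun e => ?_,
    fun e m hm => ?_, fun e => ?_, fun ω hω e => ?_⟩
  · show red (II R p) e (th ((EE r cR ^ (Ke e) : Polynomial R) : PowerSeries R)) = 0
    rw [Polynomial.coe_pow, th_pow, map_mul, map_natCast]
    have h1 : ((Ke e : ℕ) : PowerSeries (R ⧸ II R p e)) = 0 := by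
      have h2 : ((Ke e : ℕ) : R ⧸ II R p e) = 0 := by
        have h3 : ((Ke e : ℕ) : R) ∈ II R p e := by
          rw [mem_II]
          have : ((((Ke e : ℕ) : R)) : ℂ) = ((Ke e : ℕ) : ℂ) := by push_cast; rfl
          rw [this]
          exact Sm_nat (dvd_mul_right _ _)
        have h4 := Ideal.Quotient.eq_zero_iff_mem.2 h3
        rwa [map_natCast] at h4
      rw [← map_natCast (PowerSeries.C (R := R ⧸ II R p e)), h2, map_zero]
    rw [h1, zero_mul]
  · show d e + m₁ + 1 ≤ J e + d e + m₁ + 2
    omega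
  · show PowerSeries.coeff m (red (II R p) e (De e : PowerSeries R)) = 0
    rw [PowerSeries.coeff_map, Polynomial.coeff_coe,
      Polynomial.coeff_eq_zero_of_natDegree_lt hm, map_zero]
  · show IsUnit (PowerSeries.coeff (De e).natDegree (De e : PowerSeries R))
    rw [Polynomial.coeff_coe]
    exact lc_EE r hr cR hunit (Ke e)
  · exact rescale_EE r cR (Ke e) ω hω

end Pool.Agent.Helper91.FC
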