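import Mathlib
import Pool.Agent.Helper91.FC.Core

/-! A finite set of weights describing the Newton polyhedron, by Gordan's lemma. -/

set_option autoImplicit false

namespace Pool.Agent.Helper91.FC

variable {n : ℕ}

/-- admissible weights with slacks -/
def Adm (S : Finset (Fin n →₀ ℕ)) : AddSubmonoid ((Fin n → ℕ) × ℕ × (S → ℕ)) where
  carrier := {x | ∀ l : S, wt x.1 l.1 = x.2.1 + x.2.2 l}
  add_mem' := by
    intro x y hx hy l
    have h1 := hx l
    have h2 := hy l
    have h3 : wt (x + y).1 l.1 = wt x.1 l.1 + wt y.1 l.1 := by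
      unfold wt
      rw [← Finset.sum_add_distrib]
      exact Finset.sum_congr rfl fun i _ => add_mul _ _ _
    have h4 : (x + y).2.1 = x.2.1 + y.2.1 := rfl
    have h5 : (x + y).2.2 l = x.2.2 l + y.2.2 l := rfl
    rw [h3, h4, h5, h1, h2]
    ring
  zero_mem' := by
    intro l
    show wt 0 l.1 = 0 + 0
    unfold wt
    exact Finset.sum_eq_zero fun i _ => zero_mul _

lemma Adm_fg (S : Finset (Fin n →₀ ℕ)) : (Adm S).FG := by
  refine AddSubmonoid.fg_of_subtractive fun x hx y hxy l => ?_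
  have h1 := hx l
  have h2 := hxy l
  have h3 : wt (x + y).1 l.1 = wt x.1 l.1 + wt y.1 l.1 := by
    unfold wt
    rw [← Finset.sum_add_distrib]
    exact Finset.sum_congr rfl fun i _ => add_mul _ _ _
  have h4 : (x + y).2.1 = x.2.1 + y.2.1 := rfl
  have h5 : (x + y).2.2 l = x.2.2 l + y.2.2 l := rfl
  rw [h3, h4, h5] at h2
  omega

theorem exists_weights (S : Finset (Fin n →₀ ℕ)) (hS0 : ∀ l ∈ S, l ≠ 0)
    (hconv : ∀ i, ∃ d, 1 ≤ d ∧ Finsupp.single i d ∈ S) :
    ∃ (W : Finset (Fin n → ℕ)) (hW : W.Nonempty) (M : ℕ), 1 ≤ M ∧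
      (∀ w ∈ W, ∀ i, 1 ≤ w i) ∧ (∀ w ∈ W, ∀ l ∈ S, M ≤ wt w l) ∧
      (∀ (w : Fin n → ℕ) (t : ℕ), (∀ l ∈ S, t ≤ wt w l) → ∀ k, t * nu W hW k ≤ M * wt w k) := by
  classical
  obtain ⟨g, hg⟩ := Adm_fg S
  let J := g.filter (fun x => 0 < x.2.1)
  let T := ∏ x ∈ J, x.2.1
  have hT : 1 ≤ T := by
    have h0 : ∀ x ∈ J, 0 < x.2.1 := fun x hx => (Finset.mem_filter.1 hx).2
    have h1 : 0 < ∏ x ∈ J, x.2.1 := Finset.prod_pos h0
    exact h1
  have hdiv : ∀ x ∈ J, x.2.1 * (T / x.2.1) = T := fun x hx =>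
    Nat.mul_div_cancel' (Finset.dvd_prod_of_mem (fun x => x.2.1) hx)
  let W : Finset (Fin n → ℕ) := J.image (fun x => fun i => (T / x.2.1) * x.1 i)
  have hwt : ∀ (c : ℕ) (w : Fin n → ℕ) (k : Fin n →₀ ℕ), wt (fun i => c * w i) k = c * wt w k := by
    intro c w k
    unfold wt
    rw [Finset.mul_sum]
    exact Finset.sum_congr rfl fun i _ => by ring
  have hJ : J.Nonempty := by
    by_contra hJ
    rw [Finset.not_nonempty_iff_eq_empty] at hJ
    have h1 : ∀ x ∈ AddSubmonoid.closure (g : Set ((Fin n → ℕ) × ℕ × (S → ℕ))), x.2.1 = 0 := by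
      intro x hx
      induction hx using AddSubmonoid.closure_induction with
      | mem x hx =>
        by_contra h0
        have : x ∈ J := Finset.mem_filter.2 ⟨hx, Nat.pos_of_ne_zero h0⟩
        rw [hJ] at this
        exact absurd this (Finset.notMem_empty x)
      | zero => rfl
      | add x y _ _ hx hy => show x.2.1 + y.2.1 = 0; rw [hx, hy]
    have h2 : ((fun _ => 1, 1, fun l => wt (fun _ => 1) l.1 - 1) :
        (Fin n → ℕ) × ℕ × (S → ℕ)) ∈ Adm S := by
      intro l
      show wt (fun _ => 1) l.1 = 1 + (wt (fun _ => 1) l.1 - 1)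
      have h3 : 1 ≤ wt (fun _ => 1) l.1 := by
        by_contra h4
        have h5 : wt (fun _ => 1) l.1 = 0 := by omega
        apply hS0 l.1 l.2
        ext i
        have h6 : 1 * l.1 i ≤ wt (fun _ => 1) l.1 :=
          Finset.single_le_sum (f := fun i => 1 * l.1 i) (fun _ _ => Nat.zero_le _)
            (Finset.mem_univ i)
        rw [h5] at h6
        show l.1 i = 0
        omega
      omega
    rw [← hg] at h2
    exact one_ne_zero (h1 _ h2)
  have hW : W.Nonempty := hJ.image _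
  have hmemS : ∀ w ∈ W, ∀ l ∈ S, T ≤ wt w l := by
    intro w hw l hl
    obtain ⟨x, hx, rfl⟩ := Finset.mem_image.1 hw
    rw [hwt]
    have hxg : x ∈ Adm S := by
      rw [← hg]
      exact AddSubmonoid.subset_closure (Finset.mem_filter.1 hx).1
    have h1 := hxg ⟨l, hl⟩
    have h2 := hdiv x hx
    calc T = x.2.1 * (T / x.2.1) := h2.symm
      _ ≤ wt x.1 l * (T / x.2.1) := Nat.mul_le_mul_right _ (by
          have : wt x.1 l = x.2.1 + x.2.2 ⟨l, hl⟩ := h1
          omega)
      _ = _ := mul_comm _ _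
  refine ⟨W, hW, T, hT, fun w hw i => ?_, hmemS, fun w t hwt' k => ?_⟩
  · obtain ⟨d, hd, hdS⟩ := hconv i
    have h1 := hmemS w hw _ hdS
    rw [wt_single] at h1
    by_contra h2
    have h3 : w i = 0 := by omega
    rw [h3, zero_mul] at h1
    omega
  · have h1 : ∀ x ∈ AddSubmonoid.closure (g : Set ((Fin n → ℕ) × ℕ × (S → ℕ))),
        x.2.1 * nu W hW k ≤ T * wt x.1 k := by
      intro x hx
      induction hx using AddSubmonoid.closure_induction with
      | mem x hx =>
        by_cases h0 : 0 < x.2.1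
        · have hxJ : x ∈ J := Finset.mem_filter.2 ⟨hx, h0⟩
          have h2 := nu_le hW (Finset.mem_image_of_mem _ hxJ : (fun i => (T / x.2.1) * x.1 i) ∈ W) k
          rw [hwt] at h2
          calc x.2.1 * nu W hW k ≤ x.2.1 * ((T / x.2.1) * wt x.1 k) := Nat.mul_le_mul_left _ h2
            _ = T * wt x.1 k := by rw [← mul_assoc, hdiv x hxJ]
        · have h3 : x.2.1 = 0 := by omega
          rw [h3, zero_mul]
          exact Nat.zero_le _
      | zero => rw [show (0 : (Fin n → ℕ) × ℕ × (S → ℕ)).2.1 = 0 from rfl, zero_mul]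
                exact Nat.zero_le _
      | add x y _ _ hx hy =>
        have h2 : (x + y).2.1 = x.2.1 + y.2.1 := rfl
        have h3 : wt (x + y).1 k = wt x.1 k + wt y.1 k := by
          unfold wt
          rw [← Finset.sum_add_distrib]
          exact Finset.sum_congr rfl fun i _ => add_mul _ _ _
        rw [h2, h3, add_mul, mul_add]
        exact add_le_add hx hy
    have h2 : ((w, t, fun l => wt w l.1 - t) : (Fin n → ℕ) × ℕ × (S → ℕ)) ∈ Adm S := by
      intro l
      show wt w l.1 = t + (wt w l.1 - t)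
      have := hwt' l.1 l.2
      omega
    rw [← hg] at h2
    exact h1 _ h2

end Pool.Agent.Helper91.FC
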