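import Mathlib
import Pool.Agent.Helper91.FC.NG

/-! The points of the toric degeneration at which all logarithmic derivatives vanish. -/

set_option autoImplicit false

namespace Pool.Agent.Helper91.FC

open MvPolynomial

variable {n : ℕ}

/-- consequence of the Nullstellensatz on the torus -/
lemma torus_null (g : MvPolynomial (Fin n) ℂ)
    (hg : ∀ u : Fin n → ℂ, (∀ i, u i ≠ 0) → ∃ i, eval u (pderiv i g) ≠ 0) :
    ∃ (K : Fin n →₀ ℕ) (b : Fin n → MvPolynomial (Fin n) ℂ),
      monomial K 1 = ∑ i, X i * pderiv i g * b i := by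
  classical
  let J : Ideal (MvPolynomial (Fin n) ℂ) := Ideal.span (Set.range fun i => X i * pderiv i g)
  have h1 : (∏ i, X i : MvPolynomial (Fin n) ℂ) ∈ J.radical := by
    rw [← vanishingIdeal_zeroLocus_eq_radical (K := ℂ) J, mem_vanishingIdeal_iff]
    intro x hx
    rw [map_prod]
    by_contra h0
    have h2 : ∀ i, x i ≠ 0 := by
      intro i
      have := Finset.prod_ne_zero_iff.1 h0 i (Finset.mem_univ i)
      rwa [aeval_X] at this
    obtain ⟨i, hi⟩ := hg x h2
    have h3 := hx (X i * pderiv i g) (Ideal.subset_span ⟨i, rfl⟩)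
    rw [map_mul, aeval_X, aeval_eq_eval] at h3
    exact mul_ne_zero (h2 i) hi h3
  obtain ⟨N, hN⟩ := h1
  have h2 : (∏ i, X i : MvPolynomial (Fin n) ℂ) ^ N = monomial (N • oo n) 1 := by
    have h3 : (∏ i, X i : MvPolynomial (Fin n) ℂ) = monomial (oo n) 1 := by
      rw [monomial_eq, C_1, one_mul, Finsupp.prod_fintype _ _ fun i => pow_zero _]
      exact Finset.prod_congr rfl fun i _ => by rw [oo_apply, pow_one]
    rw [h3, monomial_pow, one_pow]
  rw [h2] at hN
  obtain ⟨c, hc⟩ := (Ideal.mem_span_range_iff_exists_fun).1 hN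
  refine ⟨N • oo n, c, ?_⟩
  rw [← hc]
  exact Finset.sum_congr rfl fun i _ => mul_comm _ _

/-- a functional which is multiplicative on the monoid of exponents where `e` does not vanish -/
lemma theta_contra (g : MvPolynomial (Fin n) ℂ) (K : Fin n →₀ ℕ)
    (b : Fin n → MvPolynomial (Fin n) ℂ) (hK : monomial K 1 = ∑ i, X i * pderiv i g * b i)
    (e : (Fin n →₀ ℕ) → ℂ) (e0 : e 0 = 1)
    (hT : ∀ k k', e k ≠ 0 → e k' ≠ 0 → e (k + k') = e k * e k')
    (hg : ∀ l ∈ g.support, e l ≠ 0)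
    (hsum : ∀ i : Fin n, ∑ l ∈ g.support, coeff l g * (l i : ℂ) * e l = 0) : False := by
  classical
  let θ : (Fin n →₀ ℕ) → ℂ := fun k =>
    if h : ∃ x : (Fin n →₀ ℕ) × (Fin n →₀ ℕ), e x.1 ≠ 0 ∧ e x.2 ≠ 0 ∧ k + x.2 = K + x.1 then
      e h.choose.1 / e h.choose.2 else 0
  have hθ : ∀ k t t', e t ≠ 0 → e t' ≠ 0 → k + t' = K + t → θ k = e t / e t' := by
    intro k t t' ht ht' hk
    have h : ∃ x : (Fin n →₀ ℕ) × (Fin n →₀ ℕ), e x.1 ≠ 0 ∧ e x.2 ≠ 0 ∧ k + x.2 = K + x.1 :=
      ⟨(t, t'), ht, ht', hk⟩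
    have h1 : θ k = e h.choose.1 / e h.choose.2 := dif_pos h
    obtain ⟨h2, h3, h4⟩ := h.choose_spec
    obtain ⟨s, hs⟩ : ∃ s, s = h.choose := ⟨_, rfl⟩
    rw [← hs] at h1 h2 h3 h4
    rw [h1, div_eq_div_iff h3 ht', ← hT _ _ h2 ht', ← hT _ _ ht h3]
    congr 1
    have h5 : K + (s.1 + t') = K + (t + s.2) := by
      calc K + (s.1 + t') = (K + s.1) + t' := by abel
        _ = (k + s.2) + t' := by rw [h4]
        _ = (k + t') + s.2 := by abel
        _ = (K + t) + s.2 := by rw [hk]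
        _ = K + (t + s.2) := by abel
    exact add_left_cancel h5
  have hθ0 : θ K = 1 := by
    rw [hθ K 0 0 (by rw [e0]; exact one_ne_zero) (by rw [e0]; exact one_ne_zero) rfl, e0, div_one]
  have hθl : ∀ k l, e l ≠ 0 → θ (k + l) = θ k * e l := by
    intro k l hl
    by_cases h : ∃ x : (Fin n →₀ ℕ) × (Fin n →₀ ℕ), e x.1 ≠ 0 ∧ e x.2 ≠ 0 ∧ k + x.2 = K + x.1
    · obtain ⟨⟨t, t'⟩, ht, ht', hk⟩ := h
      have h1 : e (t + l) ≠ 0 := by rw [hT _ _ ht hl]; exact mul_ne_zero ht hl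
      have h2 : k + l + t' = K + (t + l) := by
        calc k + l + t' = (k + t') + l := by abel
          _ = (K + t) + l := by rw [hk]
          _ = K + (t + l) := by abel
      rw [hθ (k + l) (t + l) t' h1 ht' h2, hθ k t t' ht ht' hk, hT _ _ ht hl]
      ring
    · have h1 : θ k = 0 := dif_neg h
      have h2 : θ (k + l) = 0 := by
        refine dif_neg ?_
        rintro ⟨⟨t, t'⟩, ht, ht', hk⟩
        refine h ⟨(t, l + t'), ht, ?_, ?_⟩
        · show e (l + t') ≠ 0
          rw [hT _ _ hl ht']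
          exact mul_ne_zero hl ht'
        · show k + (l + t') = K + t
          rw [← add_assoc]
          exact hk
      rw [h1, h2, zero_mul]
  let Θ : MvPolynomial (Fin n) ℂ →ₗ[ℂ] ℂ := (basisMonomials (Fin n) ℂ).constr ℂ θ
  have hΘ : ∀ (s : Fin n →₀ ℕ) (c : ℂ), Θ (monomial s c) = c * θ s := by
    intro s c
    have h1 : (monomial s c : MvPolynomial (Fin n) ℂ) = c • (basisMonomials (Fin n) ℂ) s := by
      rw [coe_basisMonomials, smul_monomial, smul_eq_mul, mul_one]
    rw [h1, map_smul, Module.Basis.constr_basis, smul_eq_mul]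
  have hmul : ∀ (i : Fin n) (a : MvPolynomial (Fin n) ℂ), Θ (X i * pderiv i g * a) = 0 := by
    intro i a
    induction a using MvPolynomial.induction_on' with
    | monomial s c =>
      have h1 : X i * pderiv i g = ∑ l ∈ g.support, monomial l (coeff l g * (l i : ℂ)) := by
        conv_lhs => rw [g.as_sum]
        rw [map_sum, Finset.mul_sum]
        refine Finset.sum_congr rfl fun l _ => ?_
        rw [X_mul_pderiv_monomial, ← Nat.cast_smul_eq_nsmul ℂ, smul_monomial, smul_eq_mul, mul_comm]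
      rw [h1, Finset.sum_mul, map_sum]
      have h2 : ∀ l ∈ g.support, Θ (monomial l (coeff l g * (l i : ℂ)) * monomial s c) =
          (coeff l g * (l i : ℂ) * e l) * (c * θ s) := by
        intro l hl
        rw [monomial_mul, hΘ, add_comm l s, hθl s l (hg l hl)]
        ring
      rw [Finset.sum_congr rfl h2, ← Finset.sum_mul, hsum i, zero_mul]
    | add p q hp hq => rw [mul_add, map_add, hp, hq, add_zero]
  have h1 := congrArg Θ hK
  rw [hΘ, hθ0, map_sum, Finset.sum_eq_zero fun i _ => hmul i (b i), mul_one] at h1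
  exact one_ne_zero h1

/-- nondegeneracy with respect to the Newton polyhedron -/
def NDeg (f : MvPolynomial (Fin n) ℂ) : Prop :=
  ∀ (w : Fin n → ℕ) (κ : ℕ), (∀ i, 1 ≤ w i) → (∀ s ∈ f.support, κ ≤ wt w s) →
    (∃ s ∈ f.support, wt w s = κ) → ∀ u : Fin n → ℂ, (∀ i, u i ≠ 0) →
      ∃ i, eval u (pderiv i (weightedHomogeneousComponent w κ f)) ≠ 0

theorem face (W : Finset (Fin n → ℕ)) (hW : W.Nonempty) (M : ℕ)
    (hpos : ∀ w ∈ W, ∀ i, 1 ≤ w i) (f : MvPolynomial (Fin n) ℂ)
    (hWf : ∀ w ∈ W, ∀ l ∈ f.support, M ≤ wt w l)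
    (hopt : ∀ (w : Fin n → ℕ) (t : ℕ), (∀ l ∈ f.support, t ≤ wt w l) →
      ∀ k, t * nu W hW k ≤ M * wt w k)
    (hnd : NDeg f) (e : (Fin n →₀ ℕ) → ℂ) (e0 : e 0 = 1)
    (e1 : ∀ k k', nu W hW (k + k') = nu W hW k + nu W hW k' → e (k + k') = e k * e k')
    (e2 : ∀ k k', nu W hW (k + k') ≠ nu W hW k + nu W hW k' → e k * e k' = 0)
    (ef : ∀ i : Fin n, ∑ l ∈ f.support, (if nu W hW l = M then
      coeff l f * (l i : ℂ) * e l else 0) = 0)
    (k : Fin n →₀ ℕ) (hk : k ≠ 0) : e k = 0 := by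
  classical
  by_contra hek
  have hTnu : ∀ k k', e k ≠ 0 → e k' ≠ 0 → nu W hW (k + k') = nu W hW k + nu W hW k' := by
    intro k k' h h'
    by_contra h2
    exact mul_ne_zero h h' (e2 k k' h2)
  have hT : ∀ k k', e k ≠ 0 → e k' ≠ 0 → e (k + k') = e k * e k' := fun k k' h h' =>
    e1 k k' (hTnu k k' h h')
  have hTne : ∀ k k', e k ≠ 0 → e k' ≠ 0 → e (k + k') ≠ 0 := fun k k' h h' => by
    rw [hT k k' h h']; exact mul_ne_zero h h'
  let A : (Fin n →₀ ℕ) → Finset (Fin n → ℕ) := fun k => W.filter fun w => wt w k = nu W hW k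
  let Z : (Fin n →₀ ℕ) → Finset (Fin n) := fun k => Finset.univ.filter fun i => k i = 0
  obtain ⟨k₁, ⟨hk₁, hk₁0⟩, hmin⟩ := WellFounded.has_min
    (measure (fun k : Fin n →₀ ℕ => (A k).card + (Z k).card)).wf {k | e k ≠ 0 ∧ k ≠ 0} ⟨k, hek, hk⟩
  have hmin' : ∀ k, e k ≠ 0 → A k₁ ⊆ A k ∧ Z k₁ ⊆ Z k := by
    intro k hek
    have h1 : e (k₁ + k) ≠ 0 := hTne _ _ hk₁ hek
    have h2 : k₁ + k ≠ 0 := by
      intro h
      apply hk₁0
      ext i
      have := DFunLike.congr_fun h i
      rw [Finsupp.add_apply, Finsupp.zero_apply] at this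
      show k₁ i = 0
      omega
    have h3 : ¬ ((A (k₁ + k)).card + (Z (k₁ + k)).card < (A k₁).card + (Z k₁).card) :=
      hmin (k₁ + k) ⟨h1, h2⟩
    have h4 := hTnu _ _ hk₁ hek
    have h5 : A (k₁ + k) = A k₁ ∩ A k := by
      ext w
      simp only [A, Finset.mem_inter, Finset.mem_filter]
      rw [wt_add, h4]
      constructor
      · rintro ⟨hw, h⟩
        have h6 := nu_le hW hw k₁
        have h7 := nu_le hW hw k
        exact ⟨⟨hw, by omega⟩, ⟨hw, by omega⟩⟩
      · rintro ⟨⟨hw, h6⟩, ⟨_, h7⟩⟩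
        exact ⟨hw, by rw [h6, h7]⟩
    have h6 : Z (k₁ + k) = Z k₁ ∩ Z k := by
      ext i
      simp only [Z, Finset.mem_inter, Finset.mem_filter, Finset.mem_univ, true_and]
      constructor
      · intro h
        have h' : k₁ i + k i = 0 := h
        omega
      · intro h
        show k₁ i + k i = 0
        omega
    rw [h5, h6] at h3
    have h7 : (A k₁ ∩ A k).card ≤ (A k₁).card := Finset.card_le_card Finset.inter_subset_left
    have h8 : (Z k₁ ∩ Z k).card ≤ (Z k₁).card := Finset.card_le_card Finset.inter_subset_left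
    have h9 : A k₁ ∩ A k = A k₁ := Finset.eq_of_subset_of_card_le Finset.inter_subset_left (by omega)
    have h10 : Z k₁ ∩ Z k = Z k₁ :=
      Finset.eq_of_subset_of_card_le Finset.inter_subset_left (by omega)
    exact ⟨Finset.inter_eq_left.1 h9, Finset.inter_eq_left.1 h10⟩
  have hAne : (A k₁).Nonempty := by
    obtain ⟨w, hw, h⟩ := nu_mem hW k₁
    exact ⟨w, Finset.mem_filter.2 ⟨hw, h.symm⟩⟩
  obtain ⟨a, ha⟩ : ∃ a, a = (A k₁).card := ⟨_, rfl⟩
  have ha1 : 1 ≤ a := by rw [ha]; exact Finset.card_pos.2 hAne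
  let w : Fin n → ℕ := fun i => (∑ w' ∈ A k₁, w' i) + (if i ∈ Z k₁ then a * M + 1 else 0)
  have hwt : ∀ l, wt w l = ∑ w' ∈ A k₁, wt w' l + (a * M + 1) * ∑ i ∈ Z k₁, l i := by
    intro l
    unfold wt
    rw [Finset.sum_comm, Finset.mul_sum]
    have h1 : ∑ i ∈ Z k₁, (a * M + 1) * l i = ∑ i, (if i ∈ Z k₁ then (a * M + 1) * l i else 0) := by
      rw [← Finset.sum_filter]
      refine Finset.sum_congr ?_ fun _ _ => rfl
      ext i
      simp
    rw [h1, ← Finset.sum_add_distrib]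
    refine Finset.sum_congr rfl fun i _ => ?_
    show ((∑ w' ∈ A k₁, w' i) + (if i ∈ Z k₁ then a * M + 1 else 0)) * l i = _
    rw [add_mul, Finset.sum_mul]
    congr 1
    split_ifs
    · rfl
    · rw [zero_mul]
  have hsumA : ∀ l ∈ f.support, a * M ≤ ∑ w' ∈ A k₁, wt w' l := by
    intro l hl
    rw [ha, ← smul_eq_mul]
    exact Finset.card_nsmul_le_sum _ _ _ fun w' hw' => hWf w' (Finset.mem_filter.1 hw').1 l hl
  have hlow : ∀ l ∈ f.support, a * M ≤ wt w l := by
    intro l hl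
    rw [hwt]
    exact (hsumA l hl).trans (Nat.le_add_right _ _)
  have hw1 : ∀ i, 1 ≤ w i := by
    intro i
    obtain ⟨w', hw'⟩ := hAne
    have h1 : w' i ≤ ∑ w' ∈ A k₁, w' i :=
      Finset.single_le_sum (f := fun w' : Fin n → ℕ => w' i) (fun _ _ => Nat.zero_le _) hw'
    have h2 := hpos w' (Finset.mem_filter.1 hw').1 i
    show 1 ≤ (∑ w' ∈ A k₁, w' i) + _
    omega
  -- multiples of `k₁`
  have hmult : ∀ N : ℕ, e (N • k₁) ≠ 0 ∧ nu W hW (N • k₁) = N * nu W hW k₁ := by
    intro N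
    induction N with
    | zero =>
      rw [zero_smul, e0, zero_mul]
      refine ⟨one_ne_zero, ?_⟩
      have := nu_le hW hW.choose_spec (0 : Fin n →₀ ℕ)
      have h0 : wt hW.choose (0 : Fin n →₀ ℕ) = 0 := by
        unfold wt
        exact Finset.sum_eq_zero fun i _ => by rw [Finsupp.zero_apply, mul_zero]
      omega
    | succ N ih =>
      rw [add_smul, one_smul]
      refine ⟨hTne _ _ ih.1 hk₁, ?_⟩
      rw [hTnu _ _ ih.1 hk₁, ih.2]
      ring
  have hE : ∀ l ∈ f.support, wt w l = a * M → e l ≠ 0 ∧ nu W hW l = M := by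
    intro l hl hwl
    rw [hwt] at hwl
    have h1 := hsumA l hl
    have h2 : (a * M + 1) * ∑ i ∈ Z k₁, l i = 0 := by omega
    have h3 : ∑ i ∈ Z k₁, l i = 0 := by
      rcases Nat.mul_eq_zero.1 h2 with h | h
      · omega
      · exact h
    have h4 : ∑ w' ∈ A k₁, wt w' l = a * M := by omega
    have h5 : ∀ w' ∈ A k₁, wt w' l = M := by
      intro w' hw'
      by_contra hne
      have h6 : M < wt w' l :=
        lt_of_le_of_ne (hWf w' (Finset.mem_filter.1 hw').1 l hl) (Ne.symm hne)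
      have h7 : ∑ _w' ∈ A k₁, M < ∑ w' ∈ A k₁, wt w' l :=
        Finset.sum_lt_sum (fun w' hw' => hWf w' (Finset.mem_filter.1 hw').1 l hl) ⟨w', hw', h6⟩
      rw [Finset.sum_const, smul_eq_mul, ← ha, h4] at h7
      exact lt_irrefl _ h7
    have hnl : nu W hW l = M := by
      obtain ⟨w', hw'⟩ := hAne
      have h6 := nu_le hW (Finset.mem_filter.1 hw').1 l
      rw [h5 w' hw'] at h6
      obtain ⟨w'', hw'', h7⟩ := nu_mem hW l
      have h8 := hWf w'' hw'' l hl
      omega
    refine ⟨?_, hnl⟩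
    let N : ℕ := ∑ w' ∈ W, wt w' l + ∑ i, l i
    have hlN : l ≤ N • k₁ := by
      intro i
      rw [Finsupp.smul_apply, smul_eq_mul]
      by_cases hi : i ∈ Z k₁
      · have := Finset.sum_eq_zero_iff.1 h3 i hi
        rw [this]
        exact Nat.zero_le _
      · have h6 : k₁ i ≠ 0 := by
          intro h
          exact hi (Finset.mem_filter.2 ⟨Finset.mem_univ _, h⟩)
        have h7 : l i ≤ ∑ i, l i := Finset.single_le_sum (f := fun i => l i)
          (fun _ _ => Nat.zero_le _) (Finset.mem_univ i)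
        calc l i ≤ N := h7.trans (Nat.le_add_left _ _)
          _ ≤ N * k₁ i := Nat.le_mul_of_pos_right _ (Nat.pos_of_ne_zero h6)
    obtain ⟨r, hr⟩ := exists_add_of_le hlN
    have hwN : ∀ w', wt w' l + wt w' r = N * wt w' k₁ := by
      intro w'
      rw [← wt_add, ← hr]
      unfold wt
      rw [Finset.mul_sum]
      refine Finset.sum_congr rfl fun i _ => ?_
      rw [Finsupp.smul_apply, smul_eq_mul]
      ring
    have hnr : nu W hW (l + r) = nu W hW l + nu W hW r := by
      refine le_antisymm ?_ (nu_superadd hW l r)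
      rw [← hr, (hmult N).2, hnl]
      obtain ⟨w', hw', h6⟩ := nu_mem hW r
      rw [h6]
      have h7 := hwN w'
      by_cases h8 : w' ∈ A k₁
      · have h9 : wt w' k₁ = nu W hW k₁ := (Finset.mem_filter.1 h8).2
        have h10 := h5 w' h8
        rw [h9] at h7
        omega
      · have h9 : nu W hW k₁ + 1 ≤ wt w' k₁ := by
          have h10 := nu_le hW hw' k₁
          by_contra h11
          exact h8 (Finset.mem_filter.2 ⟨hw', by omega⟩)
        have h10 : N * (nu W hW k₁ + 1) ≤ N * wt w' k₁ := Nat.mul_le_mul_left _ h9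
        have h11 : wt w' l ≤ N := (Finset.single_le_sum (f := fun w' => wt w' l)
          (fun _ _ => Nat.zero_le _) hw').trans (Nat.le_add_right _ _)
        rw [mul_add, mul_one] at h10
        omega
    have h6 := (hmult N).1
    rw [hr, e1 l r hnr] at h6
    exact left_ne_zero_of_mul h6
  have hE' : ∀ l ∈ f.support, e l ≠ 0 → nu W hW l = M → wt w l = a * M := by
    intro l hl hel hnl
    obtain ⟨h1, h2⟩ := hmin' l hel
    rw [hwt]
    have h3 : ∑ w' ∈ A k₁, wt w' l = a * M := by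
      have : ∀ w' ∈ A k₁, wt w' l = M := fun w' hw' => by
        rw [(Finset.mem_filter.1 (h1 hw')).2, hnl]
      rw [Finset.sum_congr rfl this, Finset.sum_const, smul_eq_mul, ← ha]
    have h4 : ∑ i ∈ Z k₁, l i = 0 :=
      Finset.sum_eq_zero fun i hi => (Finset.mem_filter.1 (h2 hi)).2
    rw [h3, h4, mul_zero, add_zero]
  have hex : ∃ s ∈ f.support, wt w s = a * M := by
    by_contra hcon
    push Not at hcon
    have h1 : ∀ l ∈ f.support, a * M + 1 ≤ wt w l := fun l hl =>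
      lt_of_le_of_ne (hlow l hl) (Ne.symm (hcon l hl))
    have h2 := hopt w (a * M + 1) h1 k₁
    have h3 : wt w k₁ = a * nu W hW k₁ := by
      rw [hwt]
      have h4 : ∑ w' ∈ A k₁, wt w' k₁ = a * nu W hW k₁ := by
        rw [Finset.sum_congr rfl fun w' hw' => (Finset.mem_filter.1 hw').2, Finset.sum_const,
          smul_eq_mul, ← ha]
      have h5 : ∑ i ∈ Z k₁, k₁ i = 0 :=
        Finset.sum_eq_zero fun i hi => (Finset.mem_filter.1 hi).2
      rw [h4, h5, mul_zero, add_zero]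
    rw [h3] at h2
    have h4 : 1 ≤ nu W hW k₁ := by
      obtain ⟨w', hw', h5⟩ := nu_mem hW k₁
      rw [h5]
      obtain ⟨i, hi⟩ : ∃ i, k₁ i ≠ 0 := by
        by_contra h6
        push Not at h6
        exact hk₁0 (Finsupp.ext h6)
      calc 1 ≤ w' i * k₁ i := Nat.mul_pos (hpos w' hw' i) (Nat.pos_of_ne_zero hi)
        _ ≤ wt w' k₁ := Finset.single_le_sum (f := fun i => w' i * k₁ i)
          (fun _ _ => Nat.zero_le _) (Finset.mem_univ i)
    have h5 : (a * M + 1) * nu W hW k₁ = M * (a * nu W hW k₁) + nu W hW k₁ := by ring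
    omega
  obtain ⟨g, hg⟩ : ∃ g, g = weightedHomogeneousComponent w (a * M) f := ⟨_, rfl⟩
  obtain ⟨K, b, hK⟩ := torus_null g (by rw [hg]; exact hnd w (a * M) hw1 hlow hex)
  have hwtw : ∀ s : Fin n →₀ ℕ, Finsupp.weight w s = wt w s := by
    intro s
    rw [Finsupp.weight_eq_sum]
    unfold wt
    exact Finset.sum_congr rfl fun i _ => by rw [smul_eq_mul, mul_comm]
  have hcoef : ∀ s, coeff s g = if wt w s = a * M then coeff s f else 0 := by
    intro s
    rw [hg, coeff_weightedHomogeneousComponent, hwtw]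
  have hgs : ∀ l ∈ g.support, l ∈ f.support ∧ wt w l = a * M := by
    intro l hl
    rw [mem_support_iff, hcoef] at hl
    split_ifs at hl with h
    · exact ⟨mem_support_iff.2 hl, h⟩
    · exact absurd rfl hl
  refine theta_contra g K b hK e e0 hT (fun l hl => (hE l (hgs l hl).1 (hgs l hl).2).1) ?_
  intro i
  rw [← ef i]
  refine Finset.sum_subset_zero_on_sdiff (fun l hl => (hgs l hl).1) ?_ ?_
  · intro l hl
    rw [Finset.mem_sdiff] at hl
    split_ifs with h
    · by_cases h1 : e l = 0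
      · rw [h1, mul_zero]
      · exfalso
        apply hl.2
        rw [mem_support_iff, hcoef, if_pos (hE' l hl.1 h1 h)]
        exact mem_support_iff.1 hl.1
    · rfl
  · intro l hl
    have h1 := hgs l hl
    rw [if_pos (hE l h1.1 h1.2).2, hcoef, if_pos h1.2]

end Pool.Agent.Helper91.FC
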