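import Mathlib
import Pool.Agent.Helper91.FC.Face

/-! The toric degeneration. -/

set_option autoImplicit false

namespace Pool.Agent.Helper91.FC

variable {n : ℕ}

/-- points of algebras of finite type -/
lemma exists_point {A : Type*} [CommRing A] [Algebra ℂ A] [Algebra.FiniteType ℂ A] (I : Ideal A)
    (a : A) (h : a ∉ I.radical) : ∃ χ : A →ₐ[ℂ] ℂ, (∀ x ∈ I, χ x = 0) ∧ χ a ≠ 0 := by
  have hJ : IsJacobsonRing A := isJacobsonRing_of_finiteType (A := ℂ)
  rw [Ideal.radical_eq_jacobson I, Ideal.jacobson, Submodule.mem_sInf] at h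
  push Not at h
  obtain ⟨m, ⟨hIm, hm⟩, ham⟩ := h
  let _ : Field (A ⧸ m) := Ideal.Quotient.field m
  have hfin : Module.Finite ℂ (A ⧸ m) := finite_of_finite_type_of_isJacobsonRing ℂ (A ⧸ m)
  have hb := IsAlgClosed.algebraMap_bijective_of_isIntegral (k := ℂ) (K := A ⧸ m)
  let e : ℂ ≃ₐ[ℂ] (A ⧸ m) := AlgEquiv.ofBijective (Algebra.ofId ℂ (A ⧸ m)) hb
  refine ⟨e.symm.toAlgHom.comp (Ideal.Quotient.mkₐ ℂ m), fun x hx => ?_, fun h0 => ?_⟩
  · show e.symm (Ideal.Quotient.mk m x) = 0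
    rw [Ideal.Quotient.eq_zero_iff_mem.2 (hIm hx), map_zero]
  · apply ham
    have h1 : e.symm (Ideal.Quotient.mk m a) = 0 := h0
    rw [map_eq_zero_iff _ e.symm.injective] at h1
    exact Ideal.Quotient.eq_zero_iff_mem.1 h1

/-- pairs of an exponent and an integer, the integer being given by its sums with the weights -/
def Gam (W : Finset (Fin n → ℕ)) : AddSubmonoid ((Fin n →₀ ℕ) × (W → ℕ)) where
  carrier := {x | ∀ j j' : W, x.2 j + wt j'.1 x.1 = x.2 j' + wt j.1 x.1}
  add_mem' := by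
    intro x y hx hy j j'
    have h1 := hx j j'
    have h2 := hy j j'
    have h3 : ∀ j : W, (x + y).2 j = x.2 j + y.2 j := fun _ => rfl
    have h4 : (x + y).1 = x.1 + y.1 := rfl
    rw [h3, h3, h4, wt_add, wt_add]
    omega
  zero_mem' := by
    intro j j'
    show 0 + wt j'.1 0 = 0 + wt j.1 0
    unfold wt
    rw [Finset.sum_eq_zero fun i _ => by rw [Finsupp.zero_apply, mul_zero],
      Finset.sum_eq_zero fun i _ => by rw [Finsupp.zero_apply, mul_zero]]

instance : WellQuasiOrderedLE (Fin n →₀ ℕ) := inferInstance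

lemma Gam_fg (W : Finset (Fin n → ℕ)) : (Gam W).FG := by
  refine AddSubmonoid.fg_of_subtractive fun x hx y hxy j j' => ?_
  have h1 := hx j j'
  have h2 := hxy j j'
  have h3 : ∀ j : W, (x + y).2 j = x.2 j + y.2 j := fun _ => rfl
  have h4 : (x + y).1 = x.1 + y.1 := rfl
  rw [h3, h3, h4, wt_add, wt_add] at h2
  omega

instance (W : Finset (Fin n → ℕ)) : AddMonoid.FG (Gam W) :=
  (AddMonoid.fg_iff_addSubmonoid_fg _).2 (Gam_fg W)

section

open AddMonoidAlgebra (single)

variable (W : Finset (Fin n → ℕ)) (hW : W.Nonempty)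

/-- the parameter -/
def xx : Gam W := ⟨(0, fun _ => 1), by
  intro j j'
  show 1 + wt j'.1 0 = 1 + wt j.1 0
  unfold wt
  rw [Finset.sum_eq_zero fun i _ => by rw [Finsupp.zero_apply, mul_zero],
    Finset.sum_eq_zero fun i _ => by rw [Finsupp.zero_apply, mul_zero]]⟩

/-- the minimal lift of an exponent -/
noncomputable def gam (k : Fin n →₀ ℕ) : Gam W := ⟨(k, fun j => wt j.1 k - nu W hW k), by
  intro j j'
  show wt j.1 k - nu W hW k + wt j'.1 k = wt j'.1 k - nu W hW k + wt j.1 k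
  have h1 := nu_le hW j.2 k
  have h2 := nu_le hW j'.2 k
  omega⟩

variable {W}

lemma Gam_ext {x y : Gam W} (h1 : x.1.1 = y.1.1) (h2 : ∀ j, x.1.2 j = y.1.2 j) : x = y :=
  Subtype.ext (Prod.ext h1 (funext h2))

lemma gam_add (k k' : Fin n →₀ ℕ) (δ : ℕ) (h : nu W hW (k + k') = nu W hW k + nu W hW k' + δ) :
    gam W hW k + gam W hW k' = gam W hW (k + k') + δ • xx W := by
  refine Gam_ext ?_ fun j => ?_
  · show k + k' = (k + k') + δ • (0 : Fin n →₀ ℕ)
    rw [smul_zero, add_zero]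
  · show (wt j.1 k - nu W hW k) + (wt j.1 k' - nu W hW k') =
      (wt j.1 (k + k') - nu W hW (k + k')) + δ • 1
    have h1 := nu_le hW j.2 k
    have h2 := nu_le hW j.2 k'
    have h3 := nu_le hW j.2 (k + k')
    rw [wt_add] at h3 ⊢
    rw [smul_eq_mul, mul_one]
    omega

lemma wt_zero (w : Fin n → ℕ) : wt w (0 : Fin n →₀ ℕ) = 0 := by
  unfold wt
  exact Finset.sum_eq_zero fun i _ => by rw [Finsupp.zero_apply, mul_zero]

lemma nu_zero : nu W hW (0 : Fin n →₀ ℕ) = 0 := by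
  have := nu_le hW hW.choose_spec (0 : Fin n →₀ ℕ)
  rw [wt_zero] at this
  omega

lemma gam_zero : gam W hW 0 = 0 := by
  refine Gam_ext rfl fun j => ?_
  show wt j.1 0 - nu W hW 0 = 0
  rw [wt_zero, Nat.zero_sub]

/-- the ring -/
abbrev AA (W : Finset (Fin n → ℕ)) : Type := AddMonoidAlgebra ℂ (Gam W)

/-- the logarithmic derivatives -/
noncomputable def ff (M : ℕ) (f : MvPolynomial (Fin n) ℂ) (i : Fin n) : AA W :=
  ∑ l ∈ f.support, single (gam W hW l + (nu W hW l - M) • xx W)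
    (MvPolynomial.coeff l f * (l i : ℂ))

/-- the ideal -/
noncomputable def Id (M : ℕ) (f : MvPolynomial (Fin n) ℂ) : Ideal (AA W) :=
  Ideal.span ({single (xx W) 1} ∪ Set.range (ff hW M f))

theorem gam_nilp (M : ℕ) (hpos : ∀ w ∈ W, ∀ i, 1 ≤ w i) (f : MvPolynomial (Fin n) ℂ)
    (hWf : ∀ w ∈ W, ∀ l ∈ f.support, M ≤ wt w l)
    (hopt : ∀ (w : Fin n → ℕ) (t : ℕ), (∀ l ∈ f.support, t ≤ wt w l) →
      ∀ k, t * nu W hW k ≤ M * wt w k)
    (hnd : NDeg f) (k : Fin n →₀ ℕ) (hk : k ≠ 0) :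
    single (gam W hW k) (1 : ℂ) ∈ (Id hW M f).radical := by
  classical
  by_contra hcon
  obtain ⟨χ, hχ, hχk⟩ := exists_point (Id hW M f) _ hcon
  have hx : χ (single (xx W) 1) = 0 := hχ _ (Ideal.subset_span (Or.inl rfl))
  have hf : ∀ i, χ (ff hW M f i) = 0 := fun i => hχ _ (Ideal.subset_span (Or.inr ⟨i, rfl⟩))
  let e : (Fin n →₀ ℕ) → ℂ := fun k => χ (single (gam W hW k) 1)
  have hδ : ∀ (γ : Gam W) (δ : ℕ), χ (single (γ + δ • xx W) 1) =
      χ (single γ 1) * (if δ = 0 then 1 else 0) := by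
    intro γ δ
    have h1 : (single (γ + δ • xx W) (1 : ℂ) : AA W) = single γ 1 * single (xx W) 1 ^ δ := by
      rw [AddMonoidAlgebra.single_pow, AddMonoidAlgebra.single_mul_single, one_pow, one_mul]
    rw [h1, map_mul, map_pow, hx]
    split_ifs with h
    · rw [h, pow_zero]
    · rw [zero_pow h]
  have hadd : ∀ k k' δ, nu W hW (k + k') = nu W hW k + nu W hW k' + δ →
      e k * e k' = e (k + k') * (if δ = 0 then 1 else 0) := by
    intro k k' δ h
    show χ _ * χ _ = χ _ * _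
    rw [← map_mul, AddMonoidAlgebra.single_mul_single, one_mul, gam_add hW k k' δ h, hδ]
  refine hχk (face W hW M hpos f hWf hopt hnd e ?_ ?_ ?_ ?_ k hk)
  · show χ (single (gam W hW 0) 1) = 1
    rw [gam_zero]
    exact map_one χ
  · intro k k' h
    rw [hadd k k' 0 h, if_pos rfl, mul_one]
  · intro k k' h
    obtain ⟨δ, hd⟩ := Nat.exists_eq_add_of_le (nu_superadd hW k k')
    rw [hadd k k' δ hd, if_neg, mul_zero]
    intro h0
    exact h (by omega)
  · intro i
    refine Eq.trans ?_ (hf i)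
    unfold ff
    rw [map_sum]
    refine Finset.sum_congr rfl fun l hl => ?_
    have h1 : (single (gam W hW l + (nu W hW l - M) • xx W)
        (MvPolynomial.coeff l f * (l i : ℂ)) : AA W) = (MvPolynomial.coeff l f * (l i : ℂ)) •
        single (gam W hW l + (nu W hW l - M) • xx W) 1 := by
      rw [AddMonoidAlgebra.smul_single, smul_eq_mul, mul_one]
    rw [h1, map_smul, hδ, smul_eq_mul]
    have h2 : M ≤ nu W hW l := by
      obtain ⟨w, hw, h⟩ := nu_mem hW l
      rw [h]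
      exact hWf w hw l hl
    show _ = _ * (e l * _)
    by_cases h3 : nu W hW l = M
    · rw [if_pos h3, if_pos (by omega), mul_one]
    · rw [if_neg h3, if_neg (by omega), mul_zero, mul_zero]

end

end Pool.Agent.Helper91.FC
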