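import Mathlib
import Pool.Agent.Helper91.FC.Tor

/-! The degree projections of the toric ring. -/

set_option autoImplicit false

namespace Pool.Agent.Helper91.FC

open MvPolynomial (monomial X pderiv coeff)

variable {n : ℕ}

lemma X_pderiv_sum (f : MvPolynomial (Fin n) ℂ) (i : Fin n) :
    X i * pderiv i f = ∑ l ∈ f.support, monomial l (coeff l f * (l i : ℂ)) := by
  conv_lhs => rw [f.as_sum]
  rw [map_sum, Finset.mul_sum]
  refine Finset.sum_congr rfl fun l _ => ?_
  rw [MvPolynomial.pderiv_monomial]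
  by_cases h : l i = 0
  · rw [h, Nat.cast_zero, mul_zero, map_zero, map_zero, mul_zero]
  · rw [MvPolynomial.X, MvPolynomial.monomial_mul, one_mul, add_comm,
      tsub_add_cancel_of_le (Finsupp.single_le_iff.2 (Nat.one_le_iff_ne_zero.2 h))]

section

open AddMonoidAlgebra (single)

variable {W : Finset (Fin n → ℕ)} (hW : W.Nonempty)

/-- the exponent of the parameter -/
noncomputable def dg (γ : Gam W) : ℤ := (γ.1.2 ⟨hW.choose, hW.choose_spec⟩ : ℤ) -
  wt hW.choose γ.1.1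

lemma dg_eq (γ : Gam W) (j : W) : dg hW γ = (γ.1.2 j : ℤ) - wt j.1 γ.1.1 := by
  have h := γ.2 ⟨hW.choose, hW.choose_spec⟩ j
  unfold dg
  have h' : (γ.1.2 ⟨hW.choose, hW.choose_spec⟩ : ℤ) + wt j.1 γ.1.1 =
      γ.1.2 j + wt hW.choose γ.1.1 := by exact_mod_cast h
  omega

lemma dg_add (γ γ' : Gam W) : dg hW (γ + γ') = dg hW γ + dg hW γ' := by
  unfold dg
  have h1 : (γ + γ').1.2 ⟨hW.choose, hW.choose_spec⟩ = γ.1.2 ⟨hW.choose, hW.choose_spec⟩ +
    γ'.1.2 ⟨hW.choose, hW.choose_spec⟩ := rfl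
  have h2 : (γ + γ').1.1 = γ.1.1 + γ'.1.1 := rfl
  rw [h1, h2, wt_add]
  push_cast
  ring

lemma dg_smul_xx (δ : ℕ) : dg hW (δ • xx W) = δ := by
  unfold dg
  have h1 : (δ • xx W).1.2 ⟨hW.choose, hW.choose_spec⟩ = δ • 1 := rfl
  have h2 : (δ • xx W).1.1 = δ • (0 : Fin n →₀ ℕ) := rfl
  rw [h1, h2, smul_zero, wt_zero, smul_eq_mul, mul_one]
  simp

lemma dg_xx : dg hW (xx W) = 1 := by
  have := dg_smul_xx hW 1
  rwa [one_smul] at this

lemma dg_gam (k : Fin n →₀ ℕ) : dg hW (gam W hW k) = -(nu W hW k : ℤ) := by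
  have h1 := nu_le hW hW.choose_spec k
  show ((wt hW.choose k - nu W hW k : ℕ) : ℤ) - wt hW.choose k = _
  omega

lemma dg_ge (γ : Gam W) : -dg hW γ ≤ nu W hW γ.1.1 := by
  obtain ⟨w, hw, h⟩ := nu_mem hW γ.1.1
  have h1 : dg hW γ = (γ.1.2 ⟨w, hw⟩ : ℤ) - wt w γ.1.1 := dg_eq hW γ ⟨w, hw⟩
  rw [h]
  have h2 : (0 : ℤ) ≤ γ.1.2 ⟨w, hw⟩ := Int.natCast_nonneg _
  omega

/-- the part of given degree, without the parameter -/
noncomputable def pid (d : ℤ) : AA W →+ MvPolynomial (Fin n) ℂ :=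
  (Finsupp.liftAddHom fun γ : Gam W => if dg hW γ = d then
    (monomial γ.1.1 : ℂ →ₗ[ℂ] MvPolynomial (Fin n) ℂ).toAddMonoidHom else 0).comp
    (AddMonoidAlgebra.coeffAddEquiv (R := ℂ) (M := Gam W)).toAddMonoidHom

lemma pid_single (d : ℤ) (γ : Gam W) (c : ℂ) :
    pid hW d (single γ c) = if dg hW γ = d then monomial γ.1.1 c else 0 := by
  show (Finsupp.liftAddHom fun γ : Gam W => if dg hW γ = d then
    (monomial γ.1.1 : ℂ →ₗ[ℂ] MvPolynomial (Fin n) ℂ).toAddMonoidHom else 0)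
      (Finsupp.single γ c) = _
  rw [Finsupp.liftAddHom_apply_single]
  split_ifs <;> rfl

lemma pid_xx (d : ℤ) (a : AA W) : pid hW d (a * single (xx W) 1) = pid hW (d - 1) a := by
  induction a using AddMonoidAlgebra.induction_linear with
  | zero => rw [zero_mul, map_zero, map_zero]
  | add a b ha hb => rw [add_mul, map_add, map_add, ha, hb]
  | single γ c =>
    rw [AddMonoidAlgebra.single_mul_single, mul_one, pid_single, pid_single, dg_add, dg_xx]
    have h1 : (γ + xx W).1.1 = γ.1.1 + 0 := rfl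
    rw [h1, add_zero]
    by_cases h : dg hW γ = d - 1
    · rw [if_pos h, if_pos (by omega)]
    · rw [if_neg h, if_neg (by omega)]

lemma pid_ff (M : ℕ) (f : MvPolynomial (Fin n) ℂ) (hWf : ∀ l ∈ f.support, M ≤ nu W hW l)
    (i : Fin n) (d : ℤ) (a : AA W) :
    pid hW d (a * ff hW M f i) = X i * pderiv i f * pid hW (d + M) a := by
  induction a using AddMonoidAlgebra.induction_linear with
  | zero => rw [zero_mul, map_zero, map_zero, mul_zero]
  | add a b ha hb => rw [add_mul, map_add, map_add, mul_add, ha, hb]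
  | single γ c =>
    unfold ff
    rw [Finset.mul_sum, map_sum, X_pderiv_sum, Finset.sum_mul]
    refine Finset.sum_congr rfl fun l hl => ?_
    have h0 := hWf l hl
    rw [AddMonoidAlgebra.single_mul_single, pid_single, pid_single, dg_add, dg_add, dg_gam,
      dg_smul_xx]
    have h1 : (γ + (gam W hW l + (nu W hW l - M) • xx W)).1.1 = γ.1.1 + (l +
      (nu W hW l - M) • (0 : Fin n →₀ ℕ)) := rfl
    rw [h1, smul_zero, add_zero]
    by_cases h : dg hW γ = d + M
    · rw [if_pos h, if_pos (by omega), MvPolynomial.monomial_mul, add_comm l, mul_comm c]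
    · rw [if_neg h, if_neg (by omega), mul_zero]

lemma pid_support (d : ℤ) (a : AA W) : ∀ s ∈ (pid hW d a).support, -d ≤ nu W hW s := by
  classical
  induction a using AddMonoidAlgebra.induction_linear with
  | zero =>
    intro s hs
    rw [map_zero, MvPolynomial.support_zero] at hs
    exact absurd hs (Finset.notMem_empty s)
  | add a b ha hb =>
    intro s hs
    rw [map_add] at hs
    rcases Finset.mem_union.1 (MvPolynomial.support_add hs) with h | h
    · exact ha s h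
    · exact hb s h
  | single γ c =>
    intro s hs
    rw [pid_single] at hs
    split_ifs at hs with h
    · rw [Finset.mem_singleton.1 (MvPolynomial.support_monomial_subset hs), ← h]
      exact dg_ge hW γ
    · rw [MvPolynomial.support_zero] at hs
      exact absurd hs (Finset.notMem_empty s)

/-- certificates -/
theorem cert (M : ℕ) (f : MvPolynomial (Fin n) ℂ) (hWf : ∀ l ∈ f.support, M ≤ nu W hW l)
    (k : Fin n →₀ ℕ) (hk : single (gam W hW k) (1 : ℂ) ∈ Id hW M f) :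
    ∃ (A : Fin n → MvPolynomial (Fin n) ℂ) (A₀ : MvPolynomial (Fin n) ℂ),
      monomial k 1 = (∑ i, X i * pderiv i f * A i) + A₀ ∧
      (∀ i, ∀ s ∈ (A i).support, nu W hW k ≤ nu W hW s + M) ∧
      ∀ s ∈ A₀.support, nu W hW k + 1 ≤ nu W hW s := by
  unfold Id at hk
  rw [Ideal.span_union, Submodule.mem_sup] at hk
  obtain ⟨y, hy, z, hz, hyz⟩ := hk
  rw [Ideal.mem_span_singleton'] at hy
  obtain ⟨a, rfl⟩ := hy
  rw [Ideal.mem_span_range_iff_exists_fun] at hz
  obtain ⟨b, rfl⟩ := hz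
  refine ⟨fun i => pid hW (-(nu W hW k : ℤ) + M) (b i), pid hW (-(nu W hW k : ℤ) - 1) a, ?_,
    fun i s hs => ?_, fun s hs => ?_⟩
  · have h := congrArg (pid hW (-(nu W hW k : ℤ))) hyz
    rw [map_add, map_sum, pid_xx, pid_single, dg_gam, if_pos rfl] at h
    have h1 : (gam W hW k).1.1 = k := rfl
    rw [h1] at h
    rw [← h, add_comm]
    congr 1
    exact Finset.sum_congr rfl fun i _ => pid_ff hW M f hWf i _ _
  · have := pid_support hW _ _ s hs
    omega
  · have := pid_support hW _ _ s hs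
    omega

lemma nu_smul (r : ℕ) (k : Fin n →₀ ℕ) : nu W hW (r • k) = r * nu W hW k := by
  have hwt : ∀ w : Fin n → ℕ, wt w (r • k) = r * wt w k := by
    intro w
    unfold wt
    rw [Finset.mul_sum]
    refine Finset.sum_congr rfl fun i _ => ?_
    rw [Finsupp.smul_apply, smul_eq_mul]
    ring
  refine le_antisymm ?_ ?_
  · obtain ⟨w, hw, h⟩ := nu_mem hW k
    rw [h, ← hwt]
    exact nu_le hW hw _
  · obtain ⟨w, hw, h⟩ := nu_mem hW (r • k)
    rw [h, hwt]
    exact Nat.mul_le_mul_left _ (nu_le hW hw _)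

lemma gam_smul (r : ℕ) (k : Fin n →₀ ℕ) : gam W hW (r • k) = r • gam W hW k := by
  refine Gam_ext rfl fun j => ?_
  show wt j.1 (r • k) - nu W hW (r • k) = r • (wt j.1 k - nu W hW k)
  have hwt : wt j.1 (r • k) = r * wt j.1 k := by
    unfold wt
    rw [Finset.mul_sum]
    refine Finset.sum_congr rfl fun i _ => ?_
    rw [Finsupp.smul_apply, smul_eq_mul]
    ring
  rw [hwt, nu_smul, smul_eq_mul, Nat.mul_sub]

end

theorem exists_power (W : Finset (Fin n → ℕ)) (hW : W.Nonempty) (M : ℕ)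
    (hpos : ∀ w ∈ W, ∀ i, 1 ≤ w i) (f : MvPolynomial (Fin n) ℂ)
    (hWf : ∀ w ∈ W, ∀ l ∈ f.support, M ≤ wt w l)
    (hopt : ∀ (w : Fin n → ℕ) (t : ℕ), (∀ l ∈ f.support, t ≤ wt w l) →
      ∀ k, t * nu W hW k ≤ M * wt w k)
    (hnd : NDeg f) (k : Fin n →₀ ℕ) (hk : k ≠ 0) :
    ∃ r, 1 ≤ r ∧ ∃ (A : Fin n → MvPolynomial (Fin n) ℂ) (A₀ : MvPolynomial (Fin n) ℂ),
      monomial (r • k) 1 = (∑ i, X i * pderiv i f * A i) + A₀ ∧
      (∀ i, ∀ s ∈ (A i).support, nu W hW (r • k) ≤ nu W hW s + M) ∧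
      ∀ s ∈ A₀.support, nu W hW (r • k) + 1 ≤ nu W hW s := by
  obtain ⟨r, hr⟩ := gam_nilp hW M hpos f hWf hopt hnd k hk
  refine ⟨r + 1, Nat.le_add_left _ _, cert hW M f ?_ _ ?_⟩
  · intro l hl
    obtain ⟨w, hw, h⟩ := nu_mem hW l
    rw [h]
    exact hWf w hw l hl
  · have h1 := Ideal.mul_mem_right (AddMonoidAlgebra.single (gam W hW k) (1 : ℂ)) _ hr
    rw [← pow_succ, AddMonoidAlgebra.single_pow, one_pow, ← gam_smul] at h1
    exact h1

end Pool.Agent.Helper91.FC
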