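import Mathlib
import Pool.Agent.Helper91.FC.AriEx
import Pool.Agent.Helper88.FC.Val

/-! The main theorem for polynomials with a finite certificate. -/

set_option autoImplicit false

namespace Pool.Agent.Helper91.FC

open MvPolynomial
open Pool.Agent.Helper81.FC (fac Lf fac_add_single X_mul_monomial pderiv_X_mul_monomial)

variable {n : ℕ}

/-- replace `f` by `ω f` -/
noncomputable def Ari.twist {R : Type*} [CommRing R] {I : ℕ → Ideal R} {D : ℕ → PowerSeries R}
    {T : ℕ → ℕ} {K : ℕ → Finset (Fin n →₀ ℕ)} (a : Ari n I D T K) (ω : R)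
    (hω : ∀ e, PowerSeries.rescale ω (D e) = D e) : Ari n I D T K where
  f := C ω * a.f
  A := (PowerSeries.rescale ω).toAddMonoidHom.comp a.A
  hA := by
    intro c P
    show PowerSeries.rescale ω (a.A (C c * P)) = PowerSeries.C c * PowerSeries.rescale ω (a.A P)
    rw [a.hA, map_mul]
    congr 1
    ext m
    rw [PowerSeries.coeff_rescale, PowerSeries.coeff_C]
    split_ifs with h
    · rw [h, pow_zero, one_mul]
    · rw [mul_zero]
  a1 := by
    intro i P
    show PowerSeries.rescale ω (a.A (pderiv i (X i * P))) +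
      PowerSeries.X * PowerSeries.rescale ω (a.A (X i * pderiv i (C ω * a.f) * P)) =
      PowerSeries.rescale ω (a.A (X i * P))
    have e1 : X i * pderiv i (C ω * a.f) * P = C ω * (X i * pderiv i a.f * P) := by
      rw [pderiv_C_mul]
      ring
    obtain ⟨G, hG⟩ : ∃ G, G = a.A (X i * pderiv i a.f * P) := ⟨_, rfl⟩
    rw [e1, a.hA, ← a.a1 i P, ← hG, map_add]
    congr 1
    ext m
    rw [PowerSeries.coeff_rescale]
    cases m with
    | zero => rw [PowerSeries.coeff_zero_X_mul, PowerSeries.coeff_zero_X_mul, mul_zero]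
    | succ m =>
      rw [PowerSeries.coeff_succ_X_mul, PowerSeries.coeff_succ_X_mul, PowerSeries.coeff_rescale,
        PowerSeries.coeff_C_mul]
      ring
  a2 := by
    intro P
    show th (PowerSeries.rescale ω (a.A P)) =
      PowerSeries.X * PowerSeries.rescale ω (a.A (C ω * a.f * P))
    rw [mul_assoc, a.hA]
    ext m
    have h := congrArg (PowerSeries.coeff m) (a.a2 P)
    rw [coeff_th] at h
    rw [coeff_th, PowerSeries.coeff_rescale]
    cases m with
    | zero => rw [PowerSeries.coeff_zero_X_mul, Nat.cast_zero, zero_mul]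
    | succ m =>
      rw [PowerSeries.coeff_succ_X_mul] at h ⊢
      rw [PowerSeries.coeff_rescale, PowerSeries.coeff_C_mul, ← h]
      ring
  d2 := by
    intro e P m hm
    show PowerSeries.coeff m (red I e (D e * PowerSeries.rescale ω (a.A P))) = 0
    have e1 : D e * PowerSeries.rescale ω (a.A P) = PowerSeries.rescale ω (D e * a.A P) := by
      rw [map_mul, hω]
    have h := a.d2 e P m hm
    rw [PowerSeries.coeff_map] at h
    rw [e1, PowerSeries.coeff_map, PowerSeries.coeff_rescale, map_mul, h, mul_zero]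
  d3 := by
    intro e k hk
    show red I e (D e * PowerSeries.rescale ω (a.A (monomial k 1))) = 0
    have e1 : D e * PowerSeries.rescale ω (a.A (monomial k 1)) =
        PowerSeries.rescale ω (D e * a.A (monomial k 1)) := by
      rw [map_mul, hω]
    have h := a.d3 e k hk
    ext m
    have h2 := congrArg (PowerSeries.coeff m) h
    rw [PowerSeries.coeff_map, map_zero] at h2
    rw [e1, PowerSeries.coeff_map, PowerSeries.coeff_rescale, map_mul, h2, mul_zero, map_zero]

lemma Cer_twist {R : Type*} [CommRing R] {W : Finset (Fin n → ℕ)} {hW : W.Nonempty} {M : ℕ}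
    {f : MvPolynomial (Fin n) R} {k : Fin n →₀ ℕ} (h : Cer W hW M f k) (ω ω' : R)
    (hω : ω * ω' = 1) : Cer W hW M (C ω * f) k := by
  obtain ⟨A, A₀, h1, h2, h3⟩ := h
  refine ⟨fun i => C ω' * A i, A₀, ?_, fun i s hs => ?_, h3⟩
  · rw [h1]
    congr 1
    refine Finset.sum_congr rfl fun i _ => ?_
    rw [pderiv_C_mul]
    have e1 : (C ω * C ω' : MvPolynomial (Fin n) R) = 1 := by rw [← map_mul, hω, map_one]
    calc X i * pderiv i f * A i = (C ω * C ω') * (X i * pderiv i f * A i) := by rw [e1, one_mul]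
      _ = X i * (C ω * pderiv i f) * (C ω' * A i) := by ring
  · refine h2 i s ?_
    rw [mem_support_iff] at hs ⊢
    intro h0
    apply hs
    rw [coeff_C_mul, h0, mul_zero]

lemma exists_lift (R : Subalgebra ℤ ℂ) (P : MvPolynomial (Fin n) ℂ) (h : ∀ s, coeff s P ∈ R) :
    ∃ Q : MvPolynomial (Fin n) R, map (algebraMap R ℂ) Q = P := by
  refine ⟨∑ s ∈ P.support, monomial s ⟨coeff s P, h s⟩, ?_⟩
  conv_rhs => rw [P.as_sum]
  rw [map_sum]
  refine Finset.sum_congr rfl fun s _ => ?_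
  rw [map_monomial]
  rfl

lemma map_injective' (R : Subalgebra ℤ ℂ) :
    Function.Injective (map (algebraMap R ℂ) : MvPolynomial (Fin n) R → MvPolynomial (Fin n) ℂ) :=
  map_injective _ Subtype.val_injective

lemma support_map' (R : Subalgebra ℤ ℂ) (Q : MvPolynomial (Fin n) R) :
    (map (algebraMap R ℂ) Q).support = Q.support :=
  support_map_of_injective _ Subtype.val_injective

lemma mem_support_mul_monomial {R : Type*} [CommRing R] {P : MvPolynomial (Fin n) R}
    {l s : Fin n →₀ ℕ} (h : s ∈ (P * monomial l 1).support) : ∃ t ∈ P.support, s = t + l := by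
  classical
  rw [mem_support_iff, coeff_mul_monomial'] at h
  split_ifs at h with hl
  · refine ⟨s - l, ?_, (tsub_add_cancel_of_le hl).symm⟩
    rw [mem_support_iff]
    intro h0
    rw [h0, zero_mul] at h
    exact h rfl
  · exact absurd rfl h

/-- a finite set of coefficients lies in a Noetherian ring in which some prime is no unit -/
theorem exists_ring (X₀ : Finset ℂ) : ∃ (R : Subalgebra ℤ ℂ) (p : ℕ), 1 ≤ p ∧
    (∀ x ∈ X₀, x ∈ R ∧ x⁻¹ ∈ R) ∧ ∀ x : R, (∀ e, x ∈ II R p e) → x = 0 := by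
  classical
  obtain ⟨N, hN, hV⟩ := Pool.Agent.Helper88.FC.exists_valuationSubring (X₀.filter (· ≠ 0))
    (fun x hx => (Finset.mem_filter.1 hx).2)
  obtain ⟨p, hpN, hp⟩ := Nat.exists_infinite_primes (N + 1)
  obtain ⟨V, hV1, hV2⟩ := hV p hp (fun h => by
    have := Nat.le_of_dvd (Nat.pos_of_ne_zero hN) h
    omega)
  let R : Subalgebra ℤ ℂ := Algebra.adjoin ℤ ((X₀ ∪ X₀.image (·⁻¹) : Finset ℂ) : Set ℂ)
  have hRV : ∀ x ∈ R, x ∈ V := by
    intro x hx
    induction hx using Algebra.adjoin_induction with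
    | mem x hx =>
      rw [Finset.mem_coe, Finset.mem_union, Finset.mem_image] at hx
      rcases hx with hx | ⟨y, hy, rfl⟩
      · by_cases h0 : x = 0
        · rw [h0]; exact V.zero_mem
        · rw [← V.valuation_le_one_iff]
          exact (hV2 x (Finset.mem_filter.2 ⟨hx, h0⟩)).le
      · by_cases h0 : y = 0
        · rw [h0, inv_zero]; exact V.zero_mem
        · rw [← V.valuation_le_one_iff, map_inv₀, hV2 y (Finset.mem_filter.2 ⟨hy, h0⟩), inv_one]
    | algebraMap z =>
      rw [eq_intCast]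
      exact intCast_mem V z
    | add x y _ _ hx hy => exact V.add_mem _ _ hx hy
    | mul x y _ _ hx hy => exact V.mul_mem _ _ hx hy
  refine ⟨R, p, hp.one_lt.le, fun x hx => ⟨Algebra.subset_adjoin ?_, Algebra.subset_adjoin ?_⟩, ?_⟩
  · exact Finset.mem_coe.2 (Finset.mem_union_left _ hx)
  · exact Finset.mem_coe.2 (Finset.mem_union_right _ (Finset.mem_image_of_mem _ hx))
  · intro x hx
    have hft : Algebra.FiniteType ℤ R := by
      rw [← Subalgebra.fg_iff_finiteType]
      exact Subalgebra.fg_adjoin_finset _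
    have hnoe : IsNoetherianRing R := Algebra.FiniteType.isNoetherianRing ℤ R
    have hne : Ideal.span {(p : R)} ≠ ⊤ := by
      intro h
      rw [Ideal.span_singleton_eq_top] at h
      obtain ⟨y, hy⟩ := h.exists_right_inv
      have h1 : (p : ℂ) * (y : ℂ) = 1 := by
        have := congrArg Subtype.val hy
        push_cast at this
        exact this
      have h2 := (V.valuation_le_one_iff (y : ℂ)).2 (hRV _ y.2)
      have h3 : V.valuation ((p : ℂ) * (y : ℂ)) < 1 := by
        rw [map_mul]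
        calc V.valuation (p : ℂ) * V.valuation (y : ℂ) ≤ V.valuation (p : ℂ) * 1 :=
              mul_le_mul_right h2 _
          _ < 1 := by rw [mul_one]; exact hV1
      rw [h1, map_one] at h3
      exact lt_irrefl _ h3
    have h4 := Ideal.iInf_pow_eq_bot_of_isDomain (Ideal.span {(p : R)}) hne
    have h5 : x ∈ (⨅ i : ℕ, Ideal.span {(p : R)} ^ i) := by
      rw [Ideal.mem_iInf]
      exact hx
    rw [h4] at h5
    exact h5

/-- a finite certificate: all but finitely many monomials are reduced by multiples of finitely many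
identities -/
def FinCer (W : Finset (Fin n → ℕ)) (hW : W.Nonempty) (M : ℕ) (f : MvPolynomial (Fin n) ℂ) : Prop :=
  ∃ (G : Finset (Fin n →₀ ℕ)) (q : ℕ) (k₀ : Fin q → (Fin n →₀ ℕ))
    (A : Fin q → Fin n → MvPolynomial (Fin n) ℂ) (A₀ : Fin q → MvPolynomial (Fin n) ℂ),
    (∀ t, monomial (k₀ t) 1 = (∑ i, X i * pderiv i f * A t i) + A₀ t) ∧
    ∀ k, k ∉ G → ∃ t l, k = k₀ t + l ∧
      (∀ i, ∀ s ∈ (A t i).support, nu W hW (k + oo n) ≤ nu W hW (s + l + oo n) + M) ∧
      ∀ s ∈ (A₀ t).support, nu W hW (k + oo n) + 1 ≤ nu W hW (s + l + oo n)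

theorem main (hn : 1 ≤ n) (f : MvPolynomial (Fin n) ℂ) (hf0 : coeff 0 f = 0)
    (W : Finset (Fin n → ℕ)) (hW : W.Nonempty) (M : ℕ) (hM : 1 ≤ M)
    (hpos : ∀ w ∈ W, ∀ i, 1 ≤ w i) (hWf : ∀ w ∈ W, ∀ l ∈ f.support, M ≤ wt w l)
    (hcer : FinCer W hW M f) (h : MvPolynomial (Fin n) ℂ) (r : ℕ) (hr : 1 ≤ r)
    (m₀ : ℕ) (h0 : Lf (h * f ^ m₀) ≠ 0) (M₀ : ℕ) :
    ∃ m, M₀ ≤ m ∧ m ≡ m₀ [MOD r] ∧ Lf (h * f ^ m) ≠ 0 := by
  classical
  by_contra hcon
  push Not at hcon
  -- the last index
  obtain ⟨m₁, hm₁, hm₁', hlast⟩ : ∃ m₁, m₁ ≡ m₀ [MOD r] ∧ Lf (h * f ^ m₁) ≠ 0 ∧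
      ∀ m, m₁ < m → m ≡ m₀ [MOD r] → Lf (h * f ^ m) = 0 := by
    have hlt : ∀ m, (m ≡ m₀ [MOD r] ∧ Lf (h * f ^ m) ≠ 0) → m ≤ M₀ := by
      rintro m ⟨h1, h2⟩
      by_contra h3
      exact h2 (hcon m (not_le.1 h3).le h1)
    have hsp := Nat.findGreatest_spec (P := fun m => m ≡ m₀ [MOD r] ∧ Lf (h * f ^ m) ≠ 0)
      (hlt m₀ ⟨Nat.ModEq.refl _, h0⟩) ⟨Nat.ModEq.refl _, h0⟩
    refine ⟨_, hsp.1, hsp.2, fun m hm hm2 => ?_⟩
    by_contra h3
    exact absurd ⟨hm2, h3⟩ (Nat.findGreatest_is_greatest hm (hlt m ⟨hm2, h3⟩))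
  obtain ⟨G, q, k₀, A, A₀, hid, hG⟩ := hcer
  obtain ⟨ζ, hζ⟩ : ∃ ζ : ℂ, IsPrimitiveRoot ζ r :=
    ⟨_, Complex.isPrimitiveRoot_exp r (by omega)⟩
  let X₀ : Finset ℂ := insert ζ (f.support.image (fun s => coeff s f) ∪
    h.support.image (fun s => coeff s h) ∪
    (Finset.univ.biUnion fun t => Finset.univ.biUnion fun i =>
      (A t i).support.image (fun s => coeff s (A t i))) ∪
    (Finset.univ.biUnion fun t => (A₀ t).support.image (fun s => coeff s (A₀ t))))
  obtain ⟨R, p, hp, hX, hI⟩ := exists_ring X₀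
  have hmem : ∀ P : MvPolynomial (Fin n) ℂ, (∀ s ∈ P.support, coeff s P ∈ X₀) →
      ∀ s, coeff s P ∈ R := by
    intro P hP s
    by_cases hs : s ∈ P.support
    · exact (hX _ (hP s hs)).1
    · rw [notMem_support_iff.1 hs]
      exact R.zero_mem
  obtain ⟨fR, hfR⟩ := exists_lift R f (hmem f fun s hs => by
    refine Finset.mem_insert_of_mem (Finset.mem_union_left _ (Finset.mem_union_left _
      (Finset.mem_union_left _ (Finset.mem_image_of_mem _ hs)))))
  obtain ⟨hR, hhR⟩ := exists_lift R h (hmem h fun s hs => by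
    refine Finset.mem_insert_of_mem (Finset.mem_union_left _ (Finset.mem_union_left _
      (Finset.mem_union_right _ (Finset.mem_image_of_mem _ hs)))))
  have hA' := fun t i => exists_lift R (A t i) (hmem (A t i) fun s hs => by
    refine Finset.mem_insert_of_mem (Finset.mem_union_left _ (Finset.mem_union_right _ ?_))
    exact Finset.mem_biUnion.2 ⟨t, Finset.mem_univ _, Finset.mem_biUnion.2 ⟨i, Finset.mem_univ _,
      Finset.mem_image_of_mem _ hs⟩⟩)
  choose AR hAR using hA'
  have hA₀' := fun t => exists_lift R (A₀ t) (hmem (A₀ t) fun s hs => by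
    refine Finset.mem_insert_of_mem (Finset.mem_union_right _ ?_)
    exact Finset.mem_biUnion.2 ⟨t, Finset.mem_univ _, Finset.mem_image_of_mem _ hs⟩)
  choose AR₀ hAR₀ using hA₀'
  have hζR : ζ ∈ R := (hX ζ (Finset.mem_insert_self _ _)).1
  have hζR' : ζ⁻¹ ∈ R := (hX ζ (Finset.mem_insert_self _ _)).2
  let z : R := ⟨ζ, hζR⟩
  let z' : R := ⟨ζ⁻¹, hζR'⟩
  have hz : z * z' = 1 := Subtype.ext (mul_inv_cancel₀ (hζ.ne_zero (by omega)))
  have hzr : z ^ r = 1 := Subtype.ext (by
    show ((z ^ r : R) : ℂ) = 1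
    push_cast
    exact hζ.pow_eq_one)
  have hcf : ∀ s, algebraMap R ℂ (coeff s fR) = coeff s f := by
    intro s
    rw [← hfR, coeff_map]
  have hf0' : coeff 0 fR = 0 := by
    apply Subtype.val_injective
    exact (hcf 0).trans hf0
  have hunit : ∀ i : Fin n, coeff (Finsupp.single i 1) fR = 0 ∨
      IsUnit (coeff (Finsupp.single i 1) fR) := by
    intro i
    by_cases h1 : coeff (Finsupp.single i 1) f = 0
    · left
      apply Subtype.val_injective
      exact (hcf _).trans h1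
    · right
      have h2 : (coeff (Finsupp.single i 1) f)⁻¹ ∈ R := (hX _
        (Finset.mem_insert_of_mem (Finset.mem_union_left _ (Finset.mem_union_left _
          (Finset.mem_union_left _ (Finset.mem_image_of_mem _ (mem_support_iff.2 h1))))))).2
      refine IsUnit.of_mul_eq_one (⟨_, h2⟩ : R) (Subtype.ext ?_)
      show algebraMap R ℂ (coeff (Finsupp.single i 1) fR) * _ = 1
      rw [hcf]
      exact mul_inv_cancel₀ h1
  obtain ⟨D, T, K, d, a, haf, haA, hd1, hdT, hDd, hDu, hDω⟩ :=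
    exists_ari R p hp fR hf0' r hr m₁ hunit
  have hcer' : ∀ k, k ∉ G → Cer W hW M fR k := by
    intro k hk
    obtain ⟨t, l, hkl, hc1, hc2⟩ := hG k hk
    refine ⟨fun i => AR t i * monomial l 1, AR₀ t * monomial l 1, ?_, fun i s hs => ?_,
      fun s hs => ?_⟩
    · apply map_injective' R
      have e1 : monomial k (1 : ℂ) = monomial (k₀ t) 1 * monomial l 1 := by
        rw [monomial_mul, one_mul, hkl]
      have hml : ∀ l' : Fin n →₀ ℕ, map (algebraMap R ℂ) (monomial l' (1 : R)) =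
          monomial l' (1 : ℂ) := fun l' => by rw [map_monomial, (algebraMap R ℂ).map_one]
      rw [hml, e1, hid t, RingHom.map_add, map_sum, RingHom.map_mul, hAR₀,
        hml, add_mul, Finset.sum_mul]
      congr 1
      refine Finset.sum_congr rfl fun i _ => ?_
      rw [RingHom.map_mul, RingHom.map_mul, RingHom.map_mul, map_X, ← pderiv_map, hfR, hAR, hml]
      ring
    · obtain ⟨t', ht', rfl⟩ := mem_support_mul_monomial hs
      refine hc1 i t' ?_
      rw [← hAR, support_map']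
      exact ht'
    · obtain ⟨t', ht', rfl⟩ := mem_support_mul_monomial hs
      refine hc2 t' ?_
      rw [← hAR₀, support_map']
      exact ht'
  let c₀ : ℕ := r - m₀ % r
  let aj : Fin r → Ari n (II R p) D T K := fun j =>
    a.twist (z ^ (j : ℕ)) (hDω _ (by rw [← pow_mul, mul_comm, pow_mul, hzr, one_pow]))
  let ω : Fin r → R := fun j => z ^ (c₀ * (j : ℕ))
  have hsum : ∀ m, algebraMap R ℂ (PowerSeries.coeff m
      (∑ j, PowerSeries.C (ω j) * (aj j).A hR)) =
      (∑ j ∈ Finset.range r, (ζ ^ (c₀ + m)) ^ j) * (Lf (h * f ^ m) / (m.factorial : ℂ)) := by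
    intro m
    have h1 : ∀ j : Fin r, (PowerSeries.coeff m) (PowerSeries.C (ω j) * (aj j).A hR) =
        z ^ (c₀ * (j : ℕ)) * ((z ^ (j : ℕ)) ^ m * PowerSeries.coeff m (a.A hR)) := by
      intro j
      rw [PowerSeries.coeff_C_mul]
      show _ * PowerSeries.coeff m (PowerSeries.rescale (z ^ (j : ℕ)) (a.A hR)) = _
      rw [PowerSeries.coeff_rescale]
    have h2 : algebraMap R ℂ (PowerSeries.coeff m (a.A hR)) =
        Lf (h * f ^ m) / (m.factorial : ℂ) := by
      have := congrArg (PowerSeries.coeff m) (haA hR)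
      rw [PowerSeries.coeff_map, coeff_gA, hfR, hhR] at this
      exact this
    have hzζ : algebraMap R ℂ z = ζ := rfl
    rw [map_sum, Finset.sum_congr rfl fun j _ => h1 j, map_sum, Finset.sum_mul,
      ← Fin.sum_univ_eq_sum_range (fun j => (ζ ^ (c₀ + m)) ^ j *
        (Lf (h * f ^ m) / (m.factorial : ℂ))) r]
    refine Finset.sum_congr rfl fun j _ => ?_
    rw [map_mul, map_mul, map_pow, map_pow, map_pow, h2, hzζ, ← mul_assoc]
    congr 1
    rw [← pow_mul, ← pow_add, ← pow_mul]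
    congr 1
    ring
  have hmod : ∀ m, m ≡ m₀ [MOD r] ↔ r ∣ c₀ + m := by
    intro m
    have h1 : m₀ % r < r := Nat.mod_lt _ (by omega)
    have h2 : c₀ + m₀ % r = r := by
      show r - m₀ % r + m₀ % r = r
      omega
    rw [← Nat.modEq_zero_iff_dvd]
    have h3 : c₀ + m₀ ≡ 0 [MOD r] := by
      have h4 : c₀ + m₀ ≡ c₀ + m₀ % r [MOD r] := Nat.ModEq.add_left _ (Nat.mod_modEq _ _).symm
      rw [h2] at h4
      exact h4.trans (by unfold Nat.ModEq; rw [Nat.mod_self, Nat.zero_mod])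
    constructor
    · intro h4
      exact (Nat.ModEq.add_left c₀ h4).trans h3
    · intro h4
      exact Nat.ModEq.add_left_cancel' c₀ (h4.trans h3.symm)
  have hr1 : ∀ m, r ∣ c₀ + m → ∑ j ∈ Finset.range r, (ζ ^ (c₀ + m)) ^ j = (r : ℂ) := by
    intro m hm
    rw [(hζ.pow_eq_one_iff_dvd _).2 hm]
    simp
  have hr2 : ∀ m, ¬ r ∣ c₀ + m → ∑ j ∈ Finset.range r, (ζ ^ (c₀ + m)) ^ j = 0 := by
    intro m hm
    have h1 : ζ ^ (c₀ + m) ≠ 1 := fun h => hm ((hζ.pow_eq_one_iff_dvd _).1 h)
    rw [geom_sum_eq h1, ← pow_mul, mul_comm, pow_mul, hζ.pow_eq_one, one_pow, sub_self, zero_div]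
  refine fin_contra hn (II R p) hI D T K hd1 d m₁ hdT hDd hDu W hW M hM hpos aj ?_
    (fun _ => G) ?_ hR ω ?_ ?_
  · intro j w hw l hl
    refine hWf w hw l ?_
    have h1 : l ∈ (C (z ^ (j : ℕ)) * a.f).support := hl
    rw [haf, mem_support_iff, coeff_C_mul] at h1
    rw [mem_support_iff, ← hcf]
    intro h2
    apply h1
    have h3 : coeff l fR = 0 := Subtype.val_injective h2
    rw [h3, mul_zero]
  · intro j k hk
    show Cer W hW M (C (z ^ (j : ℕ)) * a.f) k
    rw [haf]
    exact Cer_twist (hcer' k hk) _ (z' ^ (j : ℕ)) (by rw [← mul_pow, hz, one_pow])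
  · intro m hm
    apply Subtype.val_injective
    refine (hsum m).trans ?_
    by_cases h1 : r ∣ c₀ + m
    · rw [hlast m hm ((hmod m).2 h1), zero_div, mul_zero]
      rfl
    · rw [hr2 m h1, zero_mul]
      rfl
  · intro h1
    have h2 := hsum m₁
    rw [h1, map_zero, hr1 m₁ ((hmod m₁).1 hm₁)] at h2
    have h3 : (r : ℂ) ≠ 0 := Nat.cast_ne_zero.2 (by omega)
    have h4 : (m₁.factorial : ℂ) ≠ 0 := Nat.cast_ne_zero.2 (Nat.factorial_ne_zero _)
    exact mul_ne_zero h3 (div_ne_zero hm₁' h4) h2.symm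

end Pool.Agent.Helper91.FC
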