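import Mathlib
import Pool.Agent.Helper91.FC.Deg
import Pool.Agent.Helper91.FC.NG
import Pool.Agent.Helper91.FC.Main

/-! The finite certificate of a nondegenerate polynomial. -/

set_option autoImplicit false

namespace Pool.Agent.Helper91.FC

open MvPolynomial (monomial X pderiv coeff)

variable {n : ℕ}

/-- exponents with active weight `w`, with slacks -/
def Cone (W : Finset (Fin n → ℕ)) (w : Fin n → ℕ) : AddSubmonoid ((Fin n →₀ ℕ) × (W → ℕ)) where
  carrier := {x | ∀ j : W, wt j.1 x.1 = wt w x.1 + x.2 j}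
  add_mem' := by
    intro x y hx hy j
    have h1 := hx j
    have h2 := hy j
    have h3 : (x + y).2 j = x.2 j + y.2 j := rfl
    have h4 : (x + y).1 = x.1 + y.1 := rfl
    rw [h3, h4, wt_add, wt_add]
    omega
  zero_mem' := by
    intro j
    show wt j.1 0 = wt w 0 + 0
    rw [wt_zero, wt_zero]

lemma Cone_fg (W : Finset (Fin n → ℕ)) (w : Fin n → ℕ) : (Cone W w).FG := by
  refine AddSubmonoid.fg_of_subtractive fun x hx y hxy j => ?_
  have h1 := hx j
  have h2 := hxy j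
  have h3 : (x + y).2 j = x.2 j + y.2 j := rfl
  have h4 : (x + y).1 = x.1 + y.1 := rfl
  rw [h3, h4, wt_add, wt_add] at h2
  omega

lemma Cone_nu {W : Finset (Fin n → ℕ)} {w : Fin n → ℕ} (hw : w ∈ W)
    {x : (Fin n →₀ ℕ) × (W → ℕ)} (hx : x ∈ Cone W w) :
    nu W ⟨w, hw⟩ x.1 = wt w x.1 := by
  refine le_antisymm (nu_le _ hw _) ?_
  obtain ⟨w', hw', h⟩ := nu_mem ⟨w, hw⟩ x.1
  rw [h]
  have := hx ⟨w', hw'⟩
  have h2 : wt w' x.1 = wt w x.1 + x.2 ⟨w', hw'⟩ := this
  omega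

/-- every large exponent is the sum of a multiple of one of finitely many exponents and an
exponent with a common active weight -/
theorem exists_split (W : Finset (Fin n → ℕ)) (hW : W.Nonempty) (r : (Fin n →₀ ℕ) → ℕ) :
    ∃ (P G : Finset (Fin n →₀ ℕ)), (∀ z ∈ P, z ≠ 0) ∧ ∀ k, k ∉ G → ∃ z ∈ P, ∃ l,
      k = r z • z + l ∧ nu W hW (k + oo n) = nu W hW (r z • z) + nu W hW (l + oo n) := by
  classical
  choose g hg using fun w => Cone_fg W w
  let P : Finset (Fin n →₀ ℕ) := (W.biUnion fun w => (g w).image Prod.fst).filter (· ≠ 0)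
  let B : Fin n →₀ ℕ := ∑ w ∈ W, ∑ x ∈ g w, r x.1 • x.1
  refine ⟨P, Finset.Icc 0 B, fun z hz => (Finset.mem_filter.1 hz).2, fun k hk => ?_⟩
  obtain ⟨w, hw, hwk⟩ := nu_mem hW (k + oo n)
  have hmem : ((k + oo n, fun j => wt j.1 (k + oo n) - wt w (k + oo n)) :
      (Fin n →₀ ℕ) × (W → ℕ)) ∈ Cone W w := by
    intro j
    show wt j.1 (k + oo n) = wt w (k + oo n) + (wt j.1 (k + oo n) - wt w (k + oo n))
    have h := nu_le hW j.2 (k + oo n)
    omega
  rw [← hg w, AddSubmonoid.mem_closure_finset] at hmem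
  obtain ⟨m, -, hm⟩ := hmem
  have hm1 : ∑ x ∈ g w, m x • x.1 = k + oo n := by
    have := congrArg Prod.fst hm
    rw [Prod.fst_sum] at this
    exact this
  -- a generator with a large multiplicity
  obtain ⟨x, hx, hx0, hxm⟩ : ∃ x ∈ g w, x.1 ≠ 0 ∧ r x.1 + 1 ≤ m x := by
    by_contra hcon
    push Not at hcon
    apply hk
    rw [Finset.mem_Icc]
    refine ⟨zero_le, ?_⟩
    calc k ≤ k + oo n := le_self_add
      _ = ∑ x ∈ g w, m x • x.1 := hm1.symm
      _ ≤ ∑ x ∈ g w, r x.1 • x.1 := by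
        refine Finset.sum_le_sum fun x hx => ?_
        by_cases h0 : x.1 = 0
        · rw [h0, smul_zero, smul_zero]
        · exact nsmul_le_nsmul_left (zero_le) (Nat.lt_succ_iff.1 (hcon x hx h0))
      _ ≤ B := Finset.single_le_sum (f := fun w => ∑ x ∈ g w, r x.1 • x.1)
        (fun _ _ => zero_le) hw
  refine ⟨x.1, Finset.mem_filter.2 ⟨Finset.mem_biUnion.2 ⟨w, hw, Finset.mem_image_of_mem _ hx⟩,
    hx0⟩, ?_⟩
  -- the remaining sum
  obtain ⟨y, hyd⟩ : ∃ y : (Fin n →₀ ℕ) × (W → ℕ),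
    y = ∑ x' ∈ g w, (if x' = x then m x - r x.1 else m x') • x' := ⟨_, rfl⟩
  have hy : y ∈ Cone W w := by
    rw [hyd]
    refine AddSubmonoid.sum_mem _ fun x' hx' => AddSubmonoid.nsmul_mem _ ?_ _
    rw [← hg w]
    exact AddSubmonoid.subset_closure hx'
  have hxC : x ∈ Cone W w := by
    rw [← hg w]
    exact AddSubmonoid.subset_closure hx
  have hy1 : r x.1 • x.1 + y.1 = k + oo n := by
    have h1 : y.1 = ∑ x' ∈ g w, (if x' = x then m x - r x.1 else m x') • x'.1 := by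
      rw [hyd, Prod.fst_sum]
      rfl
    rw [h1, ← hm1, ← Finset.add_sum_erase _ _ hx, ← Finset.add_sum_erase (g w) (fun x => m x • x.1) hx,
      if_pos rfl, ← add_assoc, ← add_smul]
    congr 1
    · congr 1
      omega
    · refine Finset.sum_congr rfl fun x' hx' => ?_
      rw [if_neg (Finset.ne_of_mem_erase hx')]
  have hle : r x.1 • x.1 ≤ k := by
    intro i
    have h2 : (r x.1 + 1) * x.1 i ≤ k i + 1 := by
      have h3 : m x • x.1 ≤ k + oo n := by
        rw [← hm1]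
        exact Finset.single_le_sum (f := fun x => m x • x.1) (fun _ _ => zero_le) hx
      have h4 := h3 i
      rw [Finsupp.smul_apply, smul_eq_mul, Finsupp.add_apply, oo_apply] at h4
      exact (Nat.mul_le_mul_right _ hxm).trans h4
    rw [Finsupp.smul_apply, smul_eq_mul]
    rcases Nat.eq_zero_or_pos (x.1 i) with h5 | h5
    · rw [h5, mul_zero]
      exact Nat.zero_le _
    · rw [add_mul, one_mul] at h2
      omega
  obtain ⟨l, hl⟩ := exists_add_of_le hle
  refine ⟨l, hl, ?_⟩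
  have hyl : y.1 = l + oo n := by
    rw [hl, add_assoc] at hy1
    exact add_left_cancel hy1
  have h1 : nu W hW (l + oo n) = wt w (l + oo n) := by
    rw [← hyl]
    exact Cone_nu hw hy
  have h2 : nu W hW (r x.1 • x.1) = wt w (r x.1 • x.1) := by
    have h3 : r x.1 • x ∈ Cone W w := AddSubmonoid.nsmul_mem _ hxC _
    have h4 : r x.1 • x.1 = (r x.1 • x).1 := (Prod.smul_fst _ _).symm
    rw [h4]
    exact Cone_nu hw h3
  rw [hwk, h1, h2, ← wt_add, ← hyl, hy1]

theorem newton_cer (f : MvPolynomial (Fin n) ℂ) (hf0 : coeff 0 f = 0)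
    (hconv : ∀ i, ∃ d, 1 ≤ d ∧ coeff (Finsupp.single i d) f ≠ 0) (hnd : NDeg f) :
    ∃ (W : Finset (Fin n → ℕ)) (hW : W.Nonempty) (M : ℕ), 1 ≤ M ∧
      (∀ w ∈ W, ∀ i, 1 ≤ w i) ∧ (∀ w ∈ W, ∀ l ∈ f.support, M ≤ wt w l) ∧ FinCer W hW M f := by
  classical
  obtain ⟨W, hW, M, hM, hpos, hWf, hopt⟩ := exists_weights f.support
    (fun l hl h0 => by rw [h0, MvPolynomial.mem_support_iff] at hl; exact hl hf0)
    (fun i => by
      obtain ⟨d, hd, h⟩ := hconv i
      exact ⟨d, hd, MvPolynomial.mem_support_iff.2 h⟩)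
  refine ⟨W, hW, M, hM, hpos, hWf, ?_⟩
  have hex := exists_power W hW M hpos f hWf hopt hnd
  have hex' : ∀ k : Fin n →₀ ℕ, ∃ (r : ℕ) (A : Fin n → MvPolynomial (Fin n) ℂ)
      (A₀ : MvPolynomial (Fin n) ℂ), k ≠ 0 → (monomial (r • k) 1 =
        (∑ i, X i * pderiv i f * A i) + A₀ ∧
      (∀ i, ∀ s ∈ (A i).support, nu W hW (r • k) ≤ nu W hW s + M) ∧
      ∀ s ∈ A₀.support, nu W hW (r • k) + 1 ≤ nu W hW s) := by
    intro k
    by_cases hk : k = 0
    · exact ⟨0, 0, 0, fun h => absurd hk h⟩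
    · obtain ⟨r, -, A, A₀, h⟩ := hex k hk
      exact ⟨r, A, A₀, fun _ => h⟩
  choose r A A₀ hA using hex'
  obtain ⟨P, G, hP, hG⟩ := exists_split W hW r
  let e := P.equivFin
  refine ⟨G, P.card, fun t => r (e.symm t).1 • (e.symm t).1, fun t => A (e.symm t).1,
    fun t => A₀ (e.symm t).1, fun t => (hA _ (hP _ (e.symm t).2)).1, fun k hk => ?_⟩
  obtain ⟨z, hz, l, hkl, hnu⟩ := hG k hk
  refine ⟨e ⟨z, hz⟩, l, ?_, ?_, ?_⟩
  · show k = r (e.symm (e ⟨z, hz⟩)).1 • (e.symm (e ⟨z, hz⟩)).1 + l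
    rw [Equiv.symm_apply_apply]
    exact hkl
  · show ∀ i, ∀ s ∈ (A (e.symm (e ⟨z, hz⟩)).1 i).support, _
    rw [Equiv.symm_apply_apply]
    intro i s hs
    have h1 := (hA z (hP z hz)).2.1 i s hs
    have h2 := nu_superadd hW s (l + oo n)
    rw [hnu, add_assoc s l (oo n)]
    omega
  · show ∀ s ∈ (A₀ (e.symm (e ⟨z, hz⟩)).1).support, _
    rw [Equiv.symm_apply_apply]
    intro s hs
    have h1 := (hA z (hP z hz)).2.2 s hs
    have h2 := nu_superadd hW s (l + oo n)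
    rw [hnu, add_assoc s l (oo n)]
    omega

end Pool.Agent.Helper91.FC
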