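import Mathlib
import Pool.Agent.Helper91.FC.Main

/-! The certificate for a nondegenerate lowest weighted form. -/

set_option autoImplicit false

namespace Pool.Agent.Helper91.FC

open MvPolynomial
open Pool.Agent.Helper81.FC (fac Lf mono_mem comp_mul JJ pderiv_support X_mul_support weight_add_single)

variable {n : ℕ}

lemma wt_eq_weight (w : Fin n → ℕ) (s : Fin n →₀ ℕ) : wt w s = Finsupp.weight w s := by
  rw [Finsupp.weight_eq_sum]
  unfold wt
  exact Finset.sum_congr rfl fun i _ => by rw [smul_eq_mul, mul_comm]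

lemma nu_singleton (w : Fin n → ℕ) (k : Fin n →₀ ℕ) :
    nu {w} (Finset.singleton_nonempty w) k = wt w k := by
  obtain ⟨w', hw', h⟩ := nu_mem (Finset.singleton_nonempty w) k
  rw [h, Finset.mem_singleton.1 hw']

lemma X_pderiv_support {i : Fin n} {P : MvPolynomial (Fin n) ℂ} {s : Fin n →₀ ℕ}
    (hs : s ∈ (X i * pderiv i P).support) : s ∈ P.support := by
  obtain ⟨t, ht, rfl⟩ := X_mul_support hs
  rw [mem_support_iff, coeff_pderiv] at ht
  rw [mem_support_iff]
  intro h0
  rw [h0, zero_mul] at ht
  exact ht rfl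

theorem low_cer (w : Fin n → ℕ) (hw : ∀ i, 1 ≤ w i) (f : MvPolynomial (Fin n) ℂ)
    (κ : ℕ) (hκ : ∀ s ∈ f.support, κ ≤ wt w s)
    (hnd : ∀ x : Fin n → ℂ, (∀ i, x i * eval x (pderiv i (weightedHomogeneousComponent w κ f)) = 0)
      → x = 0) :
    FinCer {w} (Finset.singleton_nonempty w) κ f := by
  classical
  obtain ⟨g, hg⟩ : ∃ g, g = weightedHomogeneousComponent w κ f := ⟨_, rfl⟩
  rw [← hg] at hnd
  obtain ⟨B, hB⟩ := mono_mem w g hnd
  have hgw : g.IsWeightedHomogeneous w κ := by
    rw [hg]; exact weightedHomogeneousComponent_isWeightedHomogeneous κ f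
  have hq : ∀ i, (X i * pderiv i g).IsWeightedHomogeneous w κ := by
    intro i s hs
    rw [← mem_support_iff] at hs
    exact hgw (mem_support_iff.1 (X_pderiv_support hs))
  -- exponents
  let r : ℕ := B + κ + 1
  have hmem : ∀ j : Fin n, ∃ b : Fin n → MvPolynomial (Fin n) ℂ,
      monomial (Finsupp.single j r) (1 : ℂ) = ∑ i, X i * pderiv i g * b i ∧
      ∀ i, ∀ s ∈ (b i).support, wt w s + κ = w j * r := by
    intro j
    have h1 : B < Finsupp.weight w (Finsupp.single j r) := by
      rw [← wt_eq_weight, wt_single]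
      calc B < r := by show B < B + κ + 1; omega
        _ ≤ w j * r := Nat.le_mul_of_pos_left _ (hw j)
    have h2 := hB _ h1
    rw [JJ, Ideal.mem_span_range_iff_exists_fun] at h2
    obtain ⟨c, hc⟩ := h2
    obtain ⟨N, hN⟩ : ∃ N, w j * r = N + κ := by
      refine ⟨w j * r - κ, ?_⟩
      have : r ≤ w j * r := Nat.le_mul_of_pos_left _ (hw j)
      have h3 : κ ≤ r := by show κ ≤ B + κ + 1; omega
      omega
    refine ⟨fun i => weightedHomogeneousComponent w N (c i), ?_, fun i s hs => ?_⟩
    · have h3 : weightedHomogeneousComponent w (N + κ) (monomial (Finsupp.single j r) (1 : ℂ))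
          = monomial (Finsupp.single j r) 1 := by
        rw [weightedHomogeneousComponent_of_mem (n := N + κ)
          (isWeightedHomogeneous_monomial w _ _ (by rw [← wt_eq_weight, wt_single, hN])),
          if_pos rfl]
      rw [← h3, ← hc, map_sum]
      exact Finset.sum_congr rfl fun i _ => by rw [comp_mul w κ _ (hq i), mul_comm]
    · have h3 := weightedHomogeneousComponent_isWeightedHomogeneous N (c i) (mem_support_iff.1 hs)
      rw [wt_eq_weight, h3, hN]
  choose b hb1 hb2 using hmem
  have hsupp : ∀ s ∈ (f - g).support, κ + 1 ≤ wt w s := by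
    intro s hs
    rw [mem_support_iff, coeff_sub] at hs
    by_cases h1 : wt w s = κ
    · exfalso
      apply hs
      rw [hg, coeff_weightedHomogeneousComponent, if_pos (by rw [← wt_eq_weight, h1]), sub_self]
    · have h2 : s ∈ f.support := by
        rw [mem_support_iff]
        intro h3
        apply hs
        rw [hg, coeff_weightedHomogeneousComponent, h3]
        simp
      have h3 := hκ s h2
      omega
  refine ⟨Finset.Iic (Finsupp.equivFunOnFinite.symm fun _ => r), n, fun j => Finsupp.single j r,
    b, fun j => -∑ i, X i * pderiv i (f - g) * b j i, fun j => ?_, fun k hk => ?_⟩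
  · rw [hb1 j, ← sub_eq_add_neg, ← Finset.sum_sub_distrib]
    refine Finset.sum_congr rfl fun i _ => ?_
    rw [map_sub]
    ring
  · obtain ⟨j, hj⟩ : ∃ j, r ≤ k j := by
      by_contra hcon
      push Not at hcon
      exact hk (Finset.mem_Iic.2 fun i => (hcon i).le)
    refine ⟨j, k - Finsupp.single j r, ?_, fun i s hs => ?_, fun s hs => ?_⟩
    · rw [add_tsub_cancel_of_le (Finsupp.single_le_iff.2 hj)]
    · rw [nu_singleton, nu_singleton]
      have h1 : k = Finsupp.single j r + (k - Finsupp.single j r) := by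
        rw [add_tsub_cancel_of_le (Finsupp.single_le_iff.2 hj)]
      have h2 := hb2 j i s hs
      have h3 := congrArg (wt w) h1
      rw [wt_add, wt_single] at h3
      rw [wt_add, wt_add, wt_add]
      omega
    · rw [nu_singleton, nu_singleton]
      have h1 : k = Finsupp.single j r + (k - Finsupp.single j r) := by
        rw [add_tsub_cancel_of_le (Finsupp.single_le_iff.2 hj)]
      have h3 := congrArg (wt w) h1
      rw [wt_add, wt_single] at h3
      rw [wt_add, wt_add, wt_add]
      rw [support_neg] at hs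
      have h4 := MvPolynomial.support_sum hs
      rw [Finset.mem_biUnion] at h4
      obtain ⟨i, _, hi⟩ := h4
      have h5 := MvPolynomial.support_mul _ _ hi
      obtain ⟨s₁, hs₁, s₂, hs₂, rfl⟩ := Finset.mem_add.1 h5
      have h6 := hsupp s₁ (X_pderiv_support hs₁)
      have h7 := hb2 j i s₂ hs₂
      rw [wt_add]
      omega

end Pool.Agent.Helper91.FC
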